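import Pool.Agent.H29.KPP.Reg

/-!
`C²` regularity of entire limits along lines.
-/

open MeasureTheory Set Filter Topology Metric
open scoped RealInnerProductSpace ENNReal

set_option linter.unusedSectionVars false

namespace Pool.Agent.H29.KPP

variable {E : Type*} [NormedAddCommGroup E] [InnerProductSpace ℝ E] [FiniteDimensional ℝ E]
  [MeasurableSpace E] [BorelSpace E]

/-- A `C¹` extension of the nonlinearity to the whole line. -/
lemma exists_extension {f : ℝ → ℝ} (hf : ContDiffOn ℝ 1 f (Icc 0 1)) :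
    ∃ g g' : ℝ → ℝ, Continuous g' ∧ (∀ x, HasDerivAt g (g' x) x) ∧
      (∀ x ∈ Icc (0:ℝ) 1, g x = f x) ∧ ∃ C, ∀ x, |g' x| ≤ C := by
  set d : ℝ → ℝ := derivWithin f (Icc 0 1) with hd
  have hdc : ContinuousOn d (Icc 0 1) :=
    hf.continuousOn_derivWithin (uniqueDiffOn_Icc zero_lt_one) le_rfl
  set c : ℝ → ℝ := fun x => max 0 (min 1 x) with hc
  have hcc : Continuous c := by simp only [hc]; fun_prop
  have hcm : ∀ x, c x ∈ Icc (0:ℝ) 1 := fun x =>
    ⟨le_max_left _ _, max_le zero_le_one (min_le_left _ _)⟩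
  have hcid : ∀ x ∈ Icc (0:ℝ) 1, c x = x := fun x hx => by
    simp only [hc]
    rw [min_eq_right hx.2, max_eq_right hx.1]
  have hg'c : Continuous (fun x => d (c x)) := hdc.comp_continuous hcc hcm
  obtain ⟨C, hC⟩ := isCompact_Icc.exists_bound_of_continuousOn hdc
  refine ⟨fun x => f 0 + ∫ s in (0:ℝ)..x, d (c s), fun x => d (c x), hg'c, fun x => ?_,
    fun x hx => ?_, C, fun x => ?_⟩
  · exact (intervalIntegral.integral_hasDerivAt_right (hg'c.intervalIntegrable _ _)
      hg'c.stronglyMeasurable.stronglyMeasurableAtFilter hg'c.continuousAt).const_add _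
  · have h1 : ∫ s in (0:ℝ)..x, d (c s) = f x - f 0 := by
      apply intervalIntegral.integral_eq_sub_of_hasDerivAt_of_le hx.1
      · exact hf.continuousOn.mono (Icc_subset_Icc_right hx.2)
      · intro s hs
        have hs' : s ∈ Icc (0:ℝ) 1 := ⟨hs.1.le, hs.2.le.trans hx.2⟩
        rw [hcid s hs']
        have h2 : DifferentiableWithinAt ℝ f (Icc 0 1) s :=
          (hf.differentiableOn one_ne_zero) s hs'
        exact h2.hasDerivWithinAt.hasDerivAt (Icc_mem_nhds hs.1 (hs.2.trans_le hx.2))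
      · exact hg'c.intervalIntegrable _ _
    simp only [h1]; ring
  · exact hC _ (hcm x)

/-- Commutation of the derivative with the semigroup. -/
lemma T1_eq_T {F F1 : E → ℝ} {M C : ℝ} (hF : BM F M) (hF1 : BM F1 C) {e : E} (he : ‖e‖ = 1)
    (hd : ∀ (y : E) (r : ℝ), HasDerivAt (fun r : ℝ => F (y + r • e)) (F1 (y + r • e)) r)
    {ρ : ℝ} (hρ : 0 < ρ) (y : E) : T1 e ρ F y = T ρ F1 y := by
  have h1 := hasDerivAt_T_dir hF hρ he y 0
  rw [zero_smul, add_zero] at h1
  have h2 : HasDerivAt (fun r : ℝ => T ρ F (y + r • e)) (T ρ F1 y) 0 := by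
    unfold T
    have h3 := (hasDerivAt_integral_of_dominated_loc_of_deriv_le (μ := (volume : Measure E))
      (F := fun (r : ℝ) z => G 1 z * F (y + r • e - Real.sqrt ρ • z))
      (F' := fun (r : ℝ) z => G 1 z * F1 (y + r • e - Real.sqrt ρ • z))
      (x₀ := (0:ℝ)) (s := univ) (bound := fun z => G 1 z * C) univ_mem ?_ ?_ ?_ ?_ ?_ ?_).2
    · simpa using h3
    · exact Filter.Eventually.of_forall fun r => (hF.integrand ρ _).aestronglyMeasurable
    · exact hF.integrand ρ _
    · exact (hF1.integrand ρ _).aestronglyMeasurable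
    · refine Filter.Eventually.of_forall fun z r _ => ?_
      rw [norm_mul, Real.norm_of_nonneg (G_nonneg one_pos z)]
      exact mul_le_mul_of_nonneg_left (hF1.bd _) (G_nonneg one_pos z)
    · exact (integrable_G one_pos).mul_const C
    · refine Filter.Eventually.of_forall fun z r _ => ?_
      have h4 := (hd (y - Real.sqrt ρ • z) r).const_mul (G 1 z)
      have e1 : ∀ r : ℝ, y - Real.sqrt ρ • z + r • e = y + r • e - Real.sqrt ρ • z := fun r => by
        abel
      simp only [e1] at h4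
      exact h4
  exact h1.unique h2

lemma integrable_G2 {e : E} (he : ‖e‖ = 1) : Integrable (fun z : E => G2 e 1 z) := by
  obtain ⟨C1, hC1, hb1⟩ := G2_gauss_bound one_pos e he
  refine Integrable.mono' ((integrable_gauss (c := 1 / (8 * 1)) (by positivity)).const_mul C1)
    (continuous_G2 e 1).aestronglyMeasurable ?_
  exact Filter.Eventually.of_forall fun y => hb1 y

theorem contDiff_dir {f : ℝ → ℝ} {L : ℝ} (hf : NL f L) (hfC : ContDiffOn ℝ 1 f (Icc 0 1))
    {a : ℝ → E → ℝ} (ha : Ent L a) (hE : EulerE f a) {e : E} (he : ‖e‖ = 1) (t : ℝ) (x : E) :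
    ContDiff ℝ 2 (fun r : ℝ => a t (x + r • e)) := by
  obtain ⟨g, g', hg'c, hgd, hgf, Cg, hCg⟩ := exists_extension hfC
  have hab : ∀ s x, |a s x| ≤ 1 := fun s => (ha.bm s).bd
  set F : ℝ → E → ℝ := fun s y => f (a s y) with hF
  have hFc : Continuous (fun p : ℝ × E => F p.1 p.2) :=
    hf.cont_comp ha.cont (fun p => ha.range p.1 p.2)
  have hFb : ∀ s x, |F s x| ≤ L := fun s x => hf.abs_le (ha.range s x)
  have hFg : ∀ s y, F s y = g (a s y) := fun s y => (hgf _ (ha.range s y)).symm
  have hduh : ∀ s y, a s y = T 1 (a (s - 1)) y + Int F s y := fun s y => duhamel hf ha hE s y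
  -- first derivative
  set a1 : ℝ → E → ℝ := fun s y => T1 e 1 (a (s - 1)) y + Int1 e F s y with ha1
  have hd1 : ∀ s y (r : ℝ), HasDerivAt (fun r : ℝ => a s (y + r • e)) (a1 s (y + r • e)) r := by
    intro s y r
    have h1 := (hasDerivAt_T_dir (ha.bm (s - 1)) one_pos he y r).fun_add
      (hasDerivAt_Int he hFc hFb s y r)
    have h2 : (fun r : ℝ => a s (y + r • e)) =
        fun r : ℝ => T 1 (a (s - 1)) (y + r • e) + Int F s (y + r • e) := by
      funext r; exact hduh s _
    rw [h2]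
    exact h1
  have ha1c : Continuous (fun p : ℝ × E => a1 p.1 p.2) := by
    simp only [ha1]
    apply Continuous.add _ (continuous_Int1 he hFc hFb)
    have h1 : Continuous (fun p : ℝ × E => (((1:ℝ), p.1 - 1, p.2) : ℝ × ℝ × E)) := by fun_prop
    have h2 := (continuous_T1_param he ha.cont hab).comp h1.continuousOn (s := univ)
      (fun p _ => ⟨by simp, mem_univ _⟩)
    exact continuousOn_univ.1 h2
  obtain ⟨CI, hCI⟩ := Int1_bound he hFc hFb
  set C1 : ℝ := (Real.sqrt 1)⁻¹ * ((∫ z : E, ‖G1 e 1 z‖) * 1) + CI with hC1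
  have ha1b : ∀ s y, |a1 s y| ≤ C1 := fun s y =>
    (abs_add_le _ _).trans (add_le_add (T1_abs_le (ha.bm _) he 1 y) (hCI s y))
  -- derivative of F
  set F1 : ℝ → E → ℝ := fun s y => g' (a s y) * a1 s y with hF1
  have hF1c : Continuous (fun p : ℝ × E => F1 p.1 p.2) := (hg'c.comp ha.cont).mul ha1c
  have hCg0 : 0 ≤ Cg := (abs_nonneg _).trans (hCg 0)
  have hF1b : ∀ s y, |F1 s y| ≤ Cg * C1 := fun s y => by
    simp only [hF1, abs_mul]
    exact mul_le_mul (hCg _) (ha1b s y) (abs_nonneg _) hCg0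
  have hFd : ∀ s y (r : ℝ), HasDerivAt (fun r : ℝ => F s (y + r • e)) (F1 s (y + r • e)) r := by
    intro s y r
    simp only [hFg]
    exact (hgd _).comp r (hd1 s y r)
  have hFBM : ∀ s, BM (F s) L := fun s => ⟨(section_cont hFc s).measurable, hFb s⟩
  have hF1BM : ∀ s, BM (F1 s) (Cg * C1) := fun s => ⟨(section_cont hF1c s).measurable, hF1b s⟩
  have hInt : ∀ s y, Int1 e F s y = Int F1 s y := by
    intro s y
    unfold Int1 Int
    apply intervalIntegral.integral_congr_ae
    refine Filter.Eventually.of_forall fun ρ hρ => ?_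
    rw [uIoc_of_le zero_le_one] at hρ
    exact T1_eq_T (hFBM _) (hF1BM _) he (hFd _) hρ.1 y
  -- second derivative
  set a2 : ℝ → E → ℝ := fun s y => (∫ z, G2 e 1 (y - z) * a (s - 1) z) + Int1 e F1 s y with ha2
  have hd2 : ∀ s y (r : ℝ), HasDerivAt (fun r : ℝ => a1 s (y + r • e)) (a2 s (y + r • e)) r := by
    intro s y r
    obtain ⟨K1, hK1, hb1⟩ := G1_gauss_bound one_pos e he
    obtain ⟨K2, hK2, hb2⟩ := G2_gauss_bound one_pos e he
    have h1 := conv_deriv he (by positivity) (continuous_G1 e 1) (continuous_G2 e 1) hK2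
      (fun z s => hasDerivAt_G1 one_pos z e he s) hb1 hb2 (ha.bm (s - 1)) y r
    have h2 := h1.fun_add (hasDerivAt_Int he hF1c hF1b s y r)
    have h3 : (fun r : ℝ => a1 s (y + r • e)) = fun r : ℝ =>
        (∫ z, G1 e 1 (y + r • e - z) * a (s - 1) z) + Int F1 s (y + r • e) := by
      funext r
      simp only [ha1]
      rw [T1_eq one_pos, hInt]
    rw [h3]
    exact h2
  have ha2c : Continuous (fun r : ℝ => a2 t (x + r • e)) := by
    simp only [ha2]
    apply Continuous.add
    · have h1 := continuous_kernel_param (integrable_G2 he) ha.cont hab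
      have h2 : Continuous (fun r : ℝ => (((1:ℝ), t - 1, x + r • e) : ℝ × ℝ × E)) := by fun_prop
      have h3 := h1.comp h2
      have h4 : (fun r : ℝ => ∫ z, G2 e 1 (x + r • e - z) * a (t - 1) z) =
          fun r : ℝ => ∫ z, G2 e 1 z * a (t - 1) (x + r • e - Real.sqrt 1 • z) := by
        funext r
        rw [Real.sqrt_one, ← integral_sub_left_eq_self
          (fun z => G2 e 1 z * a (t - 1) (x + r • e - (1:ℝ) • z)) volume (x + r • e)]
        simp
      rw [h4]
      exact h3
    · have h2 : Continuous (fun r : ℝ => ((t, x + r • e) : ℝ × E)) := by fun_prop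
      exact (continuous_Int1 he hF1c hF1b).comp h2
  have hderiv1 : deriv (fun r : ℝ => a t (x + r • e)) = fun r => a1 t (x + r • e) := by
    funext r; exact (hd1 t x r).deriv
  have hderiv2 : deriv (fun r : ℝ => a1 t (x + r • e)) = fun r => a2 t (x + r • e) := by
    funext r; exact (hd2 t x r).deriv
  rw [show (2 : WithTop ℕ∞) = 1 + 1 from rfl, contDiff_succ_iff_deriv]
  refine ⟨fun r => (hd1 t x r).differentiableAt, by simp, ?_⟩
  rw [hderiv1, contDiff_one_iff_deriv, hderiv2]
  exact ⟨fun r => (hd2 t x r).differentiableAt, ha2c⟩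

end Pool.Agent.H29.KPP
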