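import Pool.Agent.H29.KPP.Trace

/-!
Uniform continuity of solutions, compactness of translates, and entire limits.
-/

open MeasureTheory Set Filter Topology Metric
open scoped RealInnerProductSpace ENNReal

set_option linter.unusedSectionVars false

namespace Pool.Agent.H29.KPP

variable {E : Type*} [NormedAddCommGroup E] [InnerProductSpace ℝ E] [FiniteDimensional ℝ E]
  [MeasurableSpace E] [BorelSpace E]

lemma HC_ge_one {σ τ : ℝ} (hσ : 0 < σ) (hτ : 0 < τ) (d : ℝ) : 1 ≤ HC E σ τ d := by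
  unfold HC
  have h1 : 1 ≤ ((σ + τ) / σ) ^ (((Module.finrank ℝ E : ℕ) : ℝ) / 2) := by
    apply Real.one_le_rpow
    · rw [le_div_iff₀ hσ]; linarith
    · positivity
  have h2 : 1 ≤ Real.exp (d ^ 2 / (4 * τ)) := Real.one_le_exp (by positivity)
  nlinarith

/-- Closeness of values at nearby times. -/
lemma Sol.close {f : ℝ → ℝ} {L : ℝ} (hf : NL f L) {u : ℝ → E → ℝ} (h : Sol f u) {σ τ t : ℝ}
    (hσ : 0 < σ) (hτ : 0 < τ) (ht : σ < t) (x x' : E) :
    |u (t + τ) x - u t x'| ≤ Real.exp (L * (σ + τ)) * HC E σ τ ‖x - x'‖ - 1 := by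
  have h0 : 0 < t - σ := by linarith
  have s1 := h.on' t h0
  have s2 := h.on' (t + τ) h0
  have hbm := s1.bm (left_mem_Icc.2 (by linarith : t - σ ≤ t))
  have hr := fun y => h.range (t - σ) h0 y
  have e1 : t - (t - σ) = σ := by ring
  have e2 : t + τ - (t - σ) = σ + τ := by ring
  have l1 := s1.lower hf (by linarith) x'
  have l2 := s2.lower hf (by linarith) x
  have u1 := s1.upper hf (by linarith) x'
  have u2 := s2.upper hf (by linarith) x
  rw [e1] at l1 u1
  rw [e2] at l2 u2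
  have k1 := T_harnack hbm (fun y => (hr y).1) hσ hτ x x'
  have hbm' : BM (fun y => 1 - u (t - σ) y) 1 := by
    refine ⟨measurable_const.sub hbm.meas, fun y => ?_⟩
    have := hr y
    rw [abs_le]; constructor <;> linarith [this.1, this.2]
  have k2 := T_harnack hbm' (fun y => by have := (hr y).2; linarith) hσ hτ x x'
  have hone : BM (fun _ : E => (1:ℝ)) 1 := ⟨measurable_const, fun _ => by simp⟩
  rw [T_sub hone hbm, T_sub hone hbm, T_const, T_const] at k2
  set H := HC E σ τ ‖x - x'‖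
  have hH : 1 ≤ H := HC_ge_one hσ hτ _
  set A := T σ (u (t - σ)) x'
  set B := T (σ + τ) (u (t - σ)) x
  have hB := T_abs_le hbm (σ + τ) x
  have hB0 : 0 ≤ B := T_nonneg (fun y => (hr y).1) _ _
  have hB1 : B ≤ 1 := (abs_le.1 hB).2
  have hA0 : 0 ≤ A := T_nonneg (fun y => (hr y).1) _ _
  have hx1 := h.range (t + τ) (by linarith) x
  have hx2 := h.range t (by linarith) x'
  have E1 : 1 ≤ Real.exp (L * σ) := Real.one_le_exp (mul_nonneg hf.L0 hσ.le)
  have E2 : Real.exp (L * σ) ≤ Real.exp (L * (σ + τ)) := by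
    apply Real.exp_le_exp.2
    have := mul_nonneg hf.L0 hτ.le
    nlinarith
  set e3 := Real.exp (L * (σ + τ))
  have E3 : 1 ≤ e3 := E1.trans E2
  rw [abs_le]
  constructor
  · -- u t x' ≤ u (t+τ) x + ...
    have h1 : u t x' ≤ e3 * H * u (t + τ) x := by
      calc u t x' ≤ Real.exp (L * σ) * A := u1
        _ ≤ e3 * A := mul_le_mul_of_nonneg_right E2 hA0
        _ ≤ e3 * (H * B) := mul_le_mul_of_nonneg_left k1 (by linarith)
        _ ≤ e3 * (H * u (t + τ) x) := by gcongr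
        _ = _ := by ring
    have h2 : 0 ≤ e3 * H - 1 := by nlinarith
    nlinarith [hx1.1, hx1.2]
  · have h1 : B ≤ A + (H - 1) := by nlinarith
    have h2 : u (t + τ) x ≤ B + (e3 - 1) := by nlinarith
    nlinarith [mul_nonneg (by linarith : 0 ≤ e3 - 1) (by linarith : 0 ≤ H - 1)]

/-- Uniform continuity of a solution on `[1,∞) × E`. -/
theorem Sol.uniformContinuous {f : ℝ → ℝ} {L : ℝ} (hf : NL f L) {u : ℝ → E → ℝ} (h : Sol f u) :
    UniformContinuous (fun p : ℝ × E => u (max p.1 1) p.2) := by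
  rw [Metric.uniformContinuous_iff]
  intro ε hε
  set n : ℝ := ((Module.finrank ℝ E : ℕ) : ℝ) with hn
  have hn0 : 0 ≤ n := by positivity
  set m : ℝ → ℝ := fun σ => Real.exp (L * (σ + 2 * σ ^ 2)) * ((1 + 2 * σ) ^ (n / 2) *
    Real.exp (σ ^ 2 / 4)) - 1 with hm
  have hm0 : ContinuousAt m 0 := by
    simp only [hm]
    apply ContinuousAt.sub _ continuousAt_const
    apply ContinuousAt.mul (Continuous.continuousAt (by fun_prop))
    apply ContinuousAt.mul _ (Continuous.continuousAt (by fun_prop))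
    apply ContinuousAt.rpow_const (Continuous.continuousAt (by fun_prop))
    left; norm_num
  have hm00 : m 0 = 0 := by simp [hm]
  have hev : ∀ᶠ σ in 𝓝[>] (0:ℝ), m σ < ε / 2 := by
    have := hm0.tendsto.eventually (gt_mem_nhds (show m 0 < ε / 2 by rw [hm00]; linarith))
    exact this.filter_mono nhdsWithin_le_nhds
  have hev2 : ∀ᶠ σ in 𝓝[>] (0:ℝ), σ ∈ Ioo (0:ℝ) 1 := Ioo_mem_nhdsGT one_pos
  obtain ⟨σ, hσm, hσ⟩ := (hev.and hev2).exists
  have hσ0 : 0 < σ := hσ.1
  have hσ1 : σ < 1 := hσ.2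
  -- the key estimate
  have key : ∀ t ≥ (1:ℝ), ∀ τ ∈ Icc (σ ^ 2) (2 * σ ^ 2), ∀ x x' : E, ‖x - x'‖ ≤ σ ^ 2 →
      |u (t + τ) x - u t x'| < ε / 2 := by
    intro t ht τ hτ x x' hxx
    have hσ2 : 0 < σ ^ 2 := by positivity
    have hτ0 : 0 < τ := lt_of_lt_of_le hσ2 hτ.1
    refine lt_of_le_of_lt (h.close hf hσ0 hτ0 (by linarith) x x') (lt_of_le_of_lt ?_ hσm)
    simp only [hm]
    apply sub_le_sub_right
    apply mul_le_mul _ _ (HC_pos hσ0 hτ0 _).le (Real.exp_pos _).le
    · apply Real.exp_le_exp.2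
      apply mul_le_mul_of_nonneg_left _ hf.L0
      linarith [hτ.2]
    · unfold HC
      rw [← hn]
      apply mul_le_mul _ _ (Real.exp_pos _).le (by positivity)
      · apply Real.rpow_le_rpow (by positivity) _ (by positivity)
        rw [div_le_iff₀ hσ0]
        nlinarith [hτ.2]
      · apply Real.exp_le_exp.2
        rw [div_le_div_iff₀ (by positivity) (by positivity)]
        have h1 : ‖x - x'‖ ^ 2 ≤ (σ ^ 2) ^ 2 := by gcongr
        nlinarith [hτ.1, mul_le_mul_of_nonneg_left hτ.1 hσ2.le]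
  refine ⟨σ ^ 2, by positivity, ?_⟩
  -- symmetric version
  have sym : ∀ t t' : ℝ, 1 ≤ t → t ≤ t' → t' - t ≤ σ ^ 2 → ∀ x x' : E, ‖x - x'‖ ≤ σ ^ 2 →
      |u t x - u t' x'| < ε := by
    intro t t' ht htt' hd x x' hxx
    have k1 := key t ht (2 * σ ^ 2) ⟨by nlinarith [sq_nonneg σ], le_rfl⟩ x x
      (by simp; positivity)
    have k2 := key t' (by linarith) (2 * σ ^ 2 - (t' - t)) ⟨by linarith, by linarith⟩ x x' hxx
    have e : t' + (2 * σ ^ 2 - (t' - t)) = t + 2 * σ ^ 2 := by ring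
    rw [e] at k2
    have h3 : |u t x - u t' x'| ≤ |u t x - u (t + 2 * σ ^ 2) x| +
      |u (t + 2 * σ ^ 2) x - u t' x'| := abs_sub_le _ _ _
    rw [abs_sub_comm] at k1
    linarith
  rintro ⟨t, x⟩ ⟨t', x'⟩ hd
  rw [Prod.dist_eq, max_lt_iff] at hd
  simp only at hd
  obtain ⟨hd1, hd2⟩ := hd
  rw [Real.dist_eq] at hd1 ⊢
  rw [dist_eq_norm] at hd2
  have hmax : |max t 1 - max t' 1| ≤ |t - t'| := by
    have := abs_max_sub_max_le_max t 1 t' 1
    simpa using this
  simp only
  rcases le_total (max t 1) (max t' 1) with hle | hle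
  · exact sym _ _ (le_max_right _ _) hle (by
      have := neg_le_abs (max t 1 - max t' 1); linarith) x x' hd2.le
  · rw [abs_sub_comm]
    exact sym _ _ (le_max_right _ _) hle (by
      have := le_abs_self (max t 1 - max t' 1); linarith) x' x (by rw [norm_sub_rev]; exact hd2.le)

/-- Compactness of the translates of a bounded uniformly continuous function. -/
theorem exists_subseq_translate {X : Type*} [NormedAddCommGroup X] [ProperSpace X]
    {v : X → ℝ} (hv : UniformContinuous v) (hr : ∀ y, v y ∈ Icc (0:ℝ) 1) (p : ℕ → X) :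
    ∃ (φ : ℕ → ℕ) (F : C(X, ℝ)), StrictMono φ ∧
      TendstoLocallyUniformly (fun n y => v (p (φ n) + y)) F atTop := by
  have hmod : ∀ k : ℕ, ∃ ρ > 0, ∀ y y', dist y y' < ρ → dist (v y) (v y') < 1 / ((k:ℝ) + 1) :=
    fun k => Metric.uniformContinuous_iff.1 hv _ (by positivity)
  choose ρ hρ hρ' using hmod
  set Q : Set (X → ℝ) := {F | (∀ y, F y ∈ Icc (0:ℝ) 1) ∧
    ∀ (k : ℕ) y y', dist y y' < ρ k → dist (F y) (F y') ≤ 1 / ((k:ℝ) + 1)} with hQ
  have hQcont : ∀ F ∈ Q, Continuous F := by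
    intro F hF
    rw [Metric.continuous_iff]
    intro y ε hε
    obtain ⟨k, hk⟩ := exists_nat_one_div_lt hε
    exact ⟨ρ k, hρ k, fun z hz => lt_of_le_of_lt (hF.2 k z y hz) hk⟩
  set S : Set C(X, ℝ) := {F | (F : X → ℝ) ∈ Q} with hS
  have himg : ContinuousMap.toFun '' S = Q := by
    ext F
    constructor
    · rintro ⟨g, hg, rfl⟩; exact hg
    · intro hF; exact ⟨⟨F, hQcont F hF⟩, hF, rfl⟩
  have hQcomp : IsCompact Q := by
    have h1 : IsCompact (Set.pi univ (fun _ : X => Icc (0:ℝ) 1)) :=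
      isCompact_univ_pi fun _ => isCompact_Icc
    refine h1.of_isClosed_subset ?_ (fun F hF y _ => hF.1 y)
    have e : Q = (⋂ y, {F : X → ℝ | F y ∈ Icc (0:ℝ) 1}) ∩
        ⋂ (k : ℕ), ⋂ y, ⋂ y', ⋂ (_ : dist y y' < ρ k),
          {F : X → ℝ | dist (F y) (F y') ≤ 1 / ((k:ℝ) + 1)} := by
      ext F; simp [hQ]
    rw [e]
    refine IsClosed.inter (isClosed_iInter fun y => ?_) (isClosed_iInter fun k =>
      isClosed_iInter fun y => isClosed_iInter fun y' => isClosed_iInter fun _ => ?_)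
    · exact isClosed_Icc.preimage (continuous_apply y)
    · exact isClosed_le ((continuous_apply y).dist (continuous_apply y')) continuous_const
  have hScomp : IsCompact S := by
    apply ArzelaAscoli.isCompact_of_equicontinuous S (by rw [himg]; exact hQcomp)
    intro y
    rw [Metric.equicontinuousAt_iff]
    intro ε hε
    obtain ⟨k, hk⟩ := exists_nat_one_div_lt hε
    refine ⟨ρ k, hρ k, fun z hz F => ?_⟩
    exact lt_of_le_of_lt (F.2.2 k _ _ (by rw [dist_comm]; exact hz)) hk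
  set seq : ℕ → C(X, ℝ) := fun n => ⟨fun y => v (p n + y), hv.continuous.comp (by fun_prop)⟩
    with hseq
  have hmem : ∀ n, seq n ∈ S := by
    intro n
    refine ⟨fun y => hr _, fun k y y' hyy => ?_⟩
    exact (hρ' k _ _ (by simpa using hyy)).le
  obtain ⟨F, _, φ, hφ, hlim⟩ := hScomp.tendsto_subseq hmem
  refine ⟨φ, F, hφ, ?_⟩
  exact ContinuousMap.tendsto_iff_tendstoLocallyUniformly.1 hlim

end Pool.Agent.H29.KPP
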