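import Mathlib

/-!
Pointwise second derivatives, the heat operator, and the comparison principle on `[t0,T] × E`.
-/

open MeasureTheory Set Filter Topology Metric
open scoped RealInnerProductSpace ENNReal

namespace Pool.Agent.H29.KPP

variable {E : Type*} [NormedAddCommGroup E] [InnerProductSpace ℝ E] [FiniteDimensional ℝ E]

/-- `φ` is differentiable on `ℝ` and its derivative has derivative `d` at `0`. -/
def HasD2 (φ : ℝ → ℝ) (d : ℝ) : Prop :=
  ∃ g : ℝ → ℝ, (∀ s, HasDerivAt φ (g s) s) ∧ HasDerivAt g d 0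

/-- The sum of the second derivatives along the standard orthonormal basis at `x` is `l`. -/
def HasLap (w : E → ℝ) (x : E) (l : ℝ) : Prop :=
  ∃ d : Fin (Module.finrank ℝ E) → ℝ,
    (∀ i, HasD2 (fun s => w (x + s • stdOrthonormalBasis ℝ E i)) (d i)) ∧ ∑ i, d i = l

/-- `(∂_t - Δ) w = q` at `(t,x)`. -/
def PDE (w : ℝ → E → ℝ) (t : ℝ) (x : E) (q : ℝ) : Prop :=
  ∃ wt l, HasDerivAt (fun s => w s x) wt t ∧ HasLap (w t) x l ∧ wt - l = q

lemma HasD2.add {φ ψ : ℝ → ℝ} {d e : ℝ} (h1 : HasD2 φ d) (h2 : HasD2 ψ e) :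
    HasD2 (fun s => φ s + ψ s) (d + e) := by
  obtain ⟨g, hg, hg'⟩ := h1
  obtain ⟨k, hk, hk'⟩ := h2
  exact ⟨fun s => g s + k s, fun s => (hg s).fun_add (hk s), hg'.fun_add hk'⟩

lemma HasD2.const_mul {φ : ℝ → ℝ} {d : ℝ} (c : ℝ) (h1 : HasD2 φ d) :
    HasD2 (fun s => c * φ s) (c * d) := by
  obtain ⟨g, hg, hg'⟩ := h1
  exact ⟨fun s => c * g s, fun s => (hg s).const_mul c, hg'.const_mul c⟩

lemma HasLap.add {w v : E → ℝ} {x : E} {l m : ℝ} (h1 : HasLap w x l) (h2 : HasLap v x m) :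
    HasLap (fun y => w y + v y) x (l + m) := by
  obtain ⟨d, hd, hd'⟩ := h1
  obtain ⟨e, he, he'⟩ := h2
  exact ⟨fun i => d i + e i, fun i => (hd i).add (he i), by
    rw [Finset.sum_add_distrib, hd', he']⟩

lemma HasLap.const_mul {w : E → ℝ} {x : E} {l : ℝ} (c : ℝ) (h1 : HasLap w x l) :
    HasLap (fun y => c * w y) x (c * l) := by
  obtain ⟨d, hd, hd'⟩ := h1
  exact ⟨fun i => c * d i, fun i => (hd i).const_mul c, by
    rw [← Finset.mul_sum, hd']⟩

lemma PDE.add {w v : ℝ → E → ℝ} {t : ℝ} {x : E} {p q : ℝ} (h1 : PDE w t x p)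
    (h2 : PDE v t x q) : PDE (fun s y => w s y + v s y) t x (p + q) := by
  obtain ⟨a, l, ha, hl, e1⟩ := h1
  obtain ⟨b, m, hb, hm, e2⟩ := h2
  exact ⟨a + b, l + m, ha.fun_add hb, hl.add hm, by rw [← e1, ← e2]; ring⟩

lemma PDE.const_mul {w : ℝ → E → ℝ} {t : ℝ} {x : E} {p : ℝ} (c : ℝ) (h1 : PDE w t x p) :
    PDE (fun s y => c * w s y) t x (c * p) := by
  obtain ⟨a, l, ha, hl, e1⟩ := h1
  exact ⟨c * a, c * l, ha.const_mul c, hl.const_mul c, by rw [← e1]; ring⟩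

lemma PDE.sub {w v : ℝ → E → ℝ} {t : ℝ} {x : E} {p q : ℝ} (h1 : PDE w t x p)
    (h2 : PDE v t x q) : PDE (fun s y => w s y - v s y) t x (p - q) := by
  have := h1.add (h2.const_mul (-1))
  simpa [sub_eq_add_neg] using this

/-- Multiplication by an exponential in time. -/
lemma PDE.exp_mul {w : ℝ → E → ℝ} {t : ℝ} {x : E} {p : ℝ} (c t0 : ℝ) (h1 : PDE w t x p) :
    PDE (fun s y => Real.exp (c * (s - t0)) * w s y) t x
      (Real.exp (c * (t - t0)) * (p + c * w t x)) := by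
  obtain ⟨a, l, ha, hl, e1⟩ := h1
  have h2 : HasDerivAt (fun s => Real.exp (c * (s - t0))) (Real.exp (c * (t - t0)) * c) t := by
    have h3 : HasDerivAt (fun s => c * (s - t0)) c t := by
      simpa using ((hasDerivAt_id t).sub_const t0).const_mul c
    exact h3.exp
  refine ⟨_, _, h2.fun_mul ha, hl.const_mul _, ?_⟩
  rw [← e1]; ring

/-- Translation in time and space. -/
lemma PDE.shift {w : ℝ → E → ℝ} {t : ℝ} {x : E} {p : ℝ} (s : ℝ) (h : E)
    (h1 : PDE w (t - s) (x + h) p) :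
    PDE (fun r y => w (r - s) (y + h)) t x p := by
  obtain ⟨a, l, ha, ⟨d, hd, hd'⟩, e1⟩ := h1
  refine ⟨a, l, ?_, ⟨d, fun i => ?_, hd'⟩, e1⟩
  · exact HasDerivAt.comp_sub_const t s ha
  · have := hd i
    refine (by simpa [add_right_comm] using this)

/-- Second derivative test, necessary condition. -/
lemma HasD2.nonneg_of_isLocalMin {φ : ℝ → ℝ} {d : ℝ} (h : HasD2 φ d) (hm : IsLocalMin φ 0) :
    0 ≤ d := by
  obtain ⟨g, hg, hg'⟩ := h
  have hg0 : g 0 = 0 := hm.hasDerivAt_eq_zero (hg 0)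
  by_contra! hd
  have hs := hg'.tendsto_slope
  have h1 : ∀ᶠ s in 𝓝[≠] (0:ℝ), slope g 0 s < 0 := hs.eventually (gt_mem_nhds hd)
  have h1' : ∀ᶠ s in 𝓝[>] (0:ℝ), slope g 0 s < 0 :=
    h1.filter_mono (nhdsWithin_mono _ (fun y hy => ne_of_gt hy))
  have h2 : ∀ᶠ s in 𝓝[>] (0:ℝ), φ 0 ≤ φ s := Filter.Eventually.filter_mono nhdsWithin_le_nhds hm
  obtain ⟨r, hr, hr'⟩ := (mem_nhdsGT_iff_exists_Ioo_subset).1 (h1'.and h2)
  have hr0 : (0:ℝ) < r := hr
  have hmem : r / 2 ∈ Ioo (0:ℝ) r := ⟨by linarith, by linarith⟩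
  obtain ⟨c, hc, hc'⟩ := exists_hasDerivAt_eq_slope φ g (half_pos hr0)
    (fun y _ => (hg y).continuousAt.continuousWithinAt) (fun y _ => hg y)
  have h3 := (hr' hmem).2
  have h3' : φ 0 ≤ φ (r/2) := h3
  have h4 : 0 ≤ g c := by
    rw [hc']; apply div_nonneg <;> linarith
  have h5 := (hr' ⟨hc.1, by linarith [hc.2]⟩ : _ ∧ _).1
  have h5' : slope g 0 c < 0 := h5
  rw [slope_def_field, hg0, sub_zero, sub_zero] at h5'
  have : 0 ≤ g c / c := div_nonneg h4 hc.1.le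
  linarith

lemma hasLap_normSq (x : E) :
    HasLap (fun y : E => ‖y‖ ^ 2) x (2 * Module.finrank ℝ E) := by
  refine ⟨fun _ => 2, fun i => ?_, by simp [mul_comm]⟩
  set b := stdOrthonormalBasis ℝ E i
  have hb : ‖b‖ = 1 := (stdOrthonormalBasis ℝ E).orthonormal.1 i
  have h1 : (fun s : ℝ => ‖x + s • b‖ ^ 2) = fun s => ‖x‖ ^ 2 + 2 * s * ⟪x, b⟫ + s ^ 2 := by
    funext s
    rw [norm_add_sq_real, norm_smul, hb, inner_smul_right]
    simp; ring
  rw [h1]
  refine ⟨fun s => 2 * ⟪x, b⟫ + 2 * s, fun s => ?_, ?_⟩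
  · have h2 : HasDerivAt (fun s : ℝ => ‖x‖ ^ 2 + 2 * s * ⟪x, b⟫) (2 * ⟪x, b⟫) s := by
      have := (((hasDerivAt_id s).const_mul 2).mul_const ⟪x, b⟫).const_add (‖x‖ ^ 2)
      simpa using this
    have h3 : HasDerivAt (fun s : ℝ => s ^ 2) (2 * s) s := by
      simpa using hasDerivAt_pow 2 s
    exact h2.fun_add h3
  · have := ((hasDerivAt_id (0:ℝ)).const_mul 2).const_add (2 * ⟪x, b⟫)
    simpa using this

/-- **Comparison principle.** -/
theorem comparison {t0 T K M : ℝ} {w : ℝ → E → ℝ}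
    (hc : ContinuousOn (fun p : ℝ × E => w p.1 p.2) (Icc t0 T ×ˢ univ))
    (hM : ∀ t ∈ Icc t0 T, ∀ x, -M ≤ w t x)
    (h0 : ∀ x, 0 ≤ w t0 x)
    (hp : ∀ t ∈ Ioc t0 T, ∀ x, w t x < 0 → ∃ q, PDE w t x q ∧ K * w t x ≤ q) :
    ∀ t ∈ Icc t0 T, ∀ x, 0 ≤ w t x := by
  intro t1 ht1 x1
  by_contra! hneg
  set n : ℝ := ((Module.finrank ℝ E : ℕ) : ℝ) with hn
  have hn0 : 0 ≤ n := by positivity
  -- choose ε
  set A : ℝ := 1 + ‖x1‖ ^ 2 + (2 * n + 1) * (t1 - t0) with hA
  have hA0 : 0 < A := by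
    have : 0 ≤ t1 - t0 := by linarith [ht1.1]
    positivity
  set B : ℝ := Real.exp (-K * (t1 - t0)) * w t1 x1 with hB
  have hB0 : B < 0 := mul_neg_of_pos_of_neg (Real.exp_pos _) hneg
  set ε : ℝ := -B / (2 * A) with hε
  have hε0 : 0 < ε := div_pos (by linarith) (by positivity)
  set v : ℝ → E → ℝ := fun t x =>
    Real.exp (-K * (t - t0)) * w t x + ε * (1 + ‖x‖ ^ 2 + (2 * n + 1) * (t - t0)) with hv
  have hv1 : v t1 x1 < 0 := by
    have : v t1 x1 = B + ε * A := rfl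
    rw [this, hε]
    field_simp
    linarith
  have hM0 : 0 < M := by
    have := hM t1 ht1 x1; linarith
  -- lower bound
  set C : ℝ := Real.exp (|K| * (T - t0)) * M with hC
  have hlow : ∀ t ∈ Icc t0 T, ∀ x, ε * ‖x‖ ^ 2 - C ≤ v t x := by
    intro t ht x
    have h1 : Real.exp (-K * (t - t0)) ≤ Real.exp (|K| * (T - t0)) := by
      apply Real.exp_le_exp.2
      have h2 : -K ≤ |K| := neg_le_abs K
      have h3 : 0 ≤ t - t0 := by linarith [ht.1]
      have h4 : t - t0 ≤ T - t0 := by linarith [ht.2]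
      calc -K * (t - t0) ≤ |K| * (t - t0) := mul_le_mul_of_nonneg_right h2 h3
        _ ≤ |K| * (T - t0) := mul_le_mul_of_nonneg_left h4 (abs_nonneg _)
    have h2 : -C ≤ Real.exp (-K * (t - t0)) * w t x := by
      have h3 := hM t ht x
      have h4 := Real.exp_pos (-K * (t - t0))
      nlinarith
    have h3 : 0 ≤ (2 * n + 1) * (t - t0) := by
      have : 0 ≤ t - t0 := by linarith [ht.1]
      positivity
    have h4 : 0 ≤ ε * (1 + (2 * n + 1) * (t - t0)) := by positivity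
    simp only [hv]
    nlinarith
  obtain ⟨R, hR1, hR2, hR3⟩ : ∃ R : ℝ, ‖x1‖ ≤ R ∧ 0 ≤ R ∧ C ≤ ε * R ^ 2 := by
    refine ⟨‖x1‖ + (C / ε + 1), ?_, ?_, ?_⟩
    · have : 0 ≤ C / ε := by positivity
      linarith
    · positivity
    · have h1 : 0 ≤ C / ε := by positivity
      have h2 : C / ε ≤ (‖x1‖ + (C / ε + 1)) ^ 2 := by
        nlinarith [norm_nonneg x1, mul_nonneg (norm_nonneg x1) h1]
      calc C = ε * (C / ε) := by field_simp
        _ ≤ _ := by gcongr
  -- the minimum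
  have hcomp : IsCompact (Icc t0 T ×ˢ closedBall (0:E) R) :=
    isCompact_Icc.prod (isCompact_closedBall _ _)
  have hvc : ContinuousOn (fun p : ℝ × E => v p.1 p.2) (Icc t0 T ×ˢ univ) := by
    simp only [hv]
    apply ContinuousOn.add
    · apply ContinuousOn.mul _ hc
      apply Continuous.continuousOn
      fun_prop
    · apply Continuous.continuousOn
      fun_prop
  obtain ⟨⟨ts, xs⟩, hmem, hmin⟩ := hcomp.exists_isMinOn
    ⟨(t1, x1), ⟨ht1, by simpa using hR1⟩⟩ (hvc.mono (prod_mono le_rfl (subset_univ _)))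
  have hts : ts ∈ Icc t0 T := hmem.1
  have hglob : ∀ t ∈ Icc t0 T, ∀ x, v ts xs ≤ v t x := by
    have hle : v ts xs ≤ v t1 x1 := hmin (show (t1, x1) ∈ _ from ⟨ht1, by simpa using hR1⟩)
    intro t ht x
    by_cases hx : ‖x‖ ≤ R
    · exact hmin (show (t, x) ∈ _ from ⟨ht, by simpa using hx⟩)
    · push Not at hx
      have h1 := hlow t ht x
      have h2 : ε * R ^ 2 ≤ ε * ‖x‖ ^ 2 := by gcongr
      linarith
  have hvneg : v ts xs < 0 := lt_of_le_of_lt (hglob t1 ht1 x1) hv1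
  have hts0 : t0 < ts := by
    rcases eq_or_lt_of_le hts.1 with h | h
    · exfalso
      rw [← h] at hvneg
      have h1 := h0 xs
      simp only [hv, sub_self, mul_zero, Real.exp_zero, one_mul, add_zero] at hvneg
      have : 0 < ε * (1 + ‖xs‖ ^ 2) := by positivity
      linarith
    · exact h
  have hpoly : 0 ≤ ε * (1 + ‖xs‖ ^ 2 + (2 * n + 1) * (ts - t0)) := by
    have : 0 ≤ ts - t0 := by linarith
    positivity
  have hwneg : w ts xs < 0 := by
    by_contra! h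
    have h1 : 0 ≤ Real.exp (-K * (ts - t0)) * w ts xs := mul_nonneg (Real.exp_pos _).le h
    simp only [hv] at hvneg
    linarith
  obtain ⟨q, hq, hKq⟩ := hp ts ⟨hts0, hts.2⟩ xs hwneg
  -- PDE for v
  have hP1 := hq.exp_mul (-K) t0
  have hP2 : PDE (fun (t : ℝ) (x : E) => ε * (1 + ‖x‖ ^ 2 + (2 * n + 1) * (t - t0))) ts xs
      (ε * ((2 * n + 1) - 2 * n)) := by
    refine PDE.const_mul ε ⟨2 * n + 1, 2 * n, ?_, ?_, rfl⟩
    · have := (((hasDerivAt_id ts).sub_const t0).const_mul (2 * n + 1)).const_add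
        (1 + ‖xs‖ ^ 2)
      simpa using this
    · obtain ⟨d, hd, hd'⟩ := hasLap_normSq xs
      refine ⟨d, fun i => ?_, hd'⟩
      obtain ⟨g, hg, hg'⟩ := hd i
      refine ⟨g, fun s => ?_, hg'⟩
      exact ((hg s).const_add 1).add_const _
  obtain ⟨vt, l, hvt, hl, hvl⟩ := hP1.add hP2
  have hvt0 : vt ≤ 0 := by
    have hmin2 : IsLocalMinOn (fun s => v s xs) (Icc t0 ts) ts := by
      have : IsMinOn (fun s => v s xs) (Icc t0 ts) ts := by
        intro s hs
        exact hglob s ⟨hs.1, hs.2.trans hts.2⟩ xs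
      exact this.localize
    have h1 := hmin2.hasFDerivWithinAt_nonneg
      (f' := ContinuousLinearMap.toSpanSingleton ℝ vt)
      (hasDerivWithinAt_iff_hasFDerivWithinAt.1 hvt.hasDerivWithinAt)
      (y := t0 - ts) (by
        apply sub_mem_posTangentConeAt_of_segment_subset
        rw [segment_symm, segment_eq_Icc hts0.le])
    have h2 : 0 ≤ (t0 - ts) * vt := by simpa using h1
    nlinarith
  have hl0 : 0 ≤ l := by
    obtain ⟨d, hd, hd'⟩ := hl
    rw [← hd']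
    apply Finset.sum_nonneg
    intro i _
    apply (hd i).nonneg_of_isLocalMin
    apply Filter.Eventually.of_forall
    intro s
    have := hglob ts hts (xs + s • stdOrthonormalBasis ℝ E i)
    simpa [hv] using this
  have hfin : 0 < vt - l := by
    rw [hvl]
    have h1 : 0 ≤ q + -K * w ts xs := by linarith
    have h2 : 0 ≤ Real.exp (-K * (ts - t0)) * (q + -K * w ts xs) :=
      mul_nonneg (Real.exp_pos _).le h1
    have h3 : 0 < ε * ((2 * n + 1) - 2 * n) := by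
      have : (2 * n + 1) - 2 * n = 1 := by ring
      rw [this]; linarith
    linarith
  linarith

end Pool.Agent.H29.KPP
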