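import Mathlib

/-!
# Definitions for MP_b84e2d_an (asymptotic planarity for Fisher-KPP equations)
-/

open MeasureTheory Set Filter Topology Metric
open scoped RealInnerProductSpace ENNReal

namespace Pool.Agent.H29.KPP

/-- `ℝ^N`. -/
abbrev RN (N : ℕ) : Type := EuclideanSpace ℝ (Fin N)

/-- Fisher-KPP nonlinearities: `f ∈ C¹([0,1])`, `f(0) = f(1) = 0`, `f > 0` on `(0,1)` and
`s ↦ f(s)/s` is nonincreasing on `(0,1]`. -/
structure IsFisherKPP (f : ℝ → ℝ) : Prop where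
  contDiffOn : ContDiffOn ℝ 1 f (Icc 0 1)
  zero : f 0 = 0
  one : f 1 = 0
  pos : ∀ s ∈ Ioo (0:ℝ) 1, 0 < f s
  anti : AntitoneOn (fun s => f s / s) (Ioc 0 1)

/-- `u : (0,∞) × ℝ^N → [0,1]` is a classical solution of `∂_t u = Δ u + f(u)` with
`u(t,·) → 1_U` in `L¹_loc(ℝ^N)` as `t → 0+`. -/
structure IsSolution {N : ℕ} (f : ℝ → ℝ) (U : Set (RN N)) (u : ℝ → RN N → ℝ) : Prop where
  mem_Icc : ∀ t > 0, ∀ x, u t x ∈ Icc (0:ℝ) 1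
  continuousOn : ContinuousOn (fun p : ℝ × RN N => u p.1 p.2) (Ioi 0 ×ˢ univ)
  differentiableAt : ∀ t > 0, ∀ x, DifferentiableAt ℝ (fun s => u s x) t
  contDiff : ∀ t > 0, ContDiff ℝ 2 (u t)
  eqn : ∀ t > 0, ∀ x, deriv (fun s => u s x) t = Laplacian.laplacian (u t) x + f (u t x)
  initial : ∀ K : Set (RN N), IsCompact K →
    Tendsto (fun t => eLpNorm (fun x => u t x - U.indicator (fun _ => (1:ℝ)) x) 1
      (volume.restrict K)) (𝓝[>] 0) (𝓝 0)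

/-- `U_δ = {x ∈ U : dist(x, ∂U) ≥ δ}` (the distance to the empty set is `∞`). -/
def innerSet {N : ℕ} (U : Set (RN N)) (δ : ℝ) : Set (RN N) :=
  {x | x ∈ U ∧ ENNReal.ofReal δ ≤ infEDist x (frontier U)}

/-- Condition (H): `d_H(U, U_δ) < ∞` for some `δ > 0`. -/
def CondH {N : ℕ} (U : Set (RN N)) : Prop :=
  ∃ δ > 0, hausdorffEDist U (innerSet U δ) < ⊤

/-- `ψ ∈ Ω(u)`: `ψ ∈ L^∞(ℝ^N)` and `u(t_n, x_n + ·) → ψ` in `L^∞_loc(ℝ^N)` for some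
`t_n → +∞` and some `x_n ∈ ℝ^N`. -/
def MemOmega {N : ℕ} (u : ℝ → RN N → ℝ) (ψ : RN N → ℝ) : Prop :=
  MemLp ψ ⊤ volume ∧ ∃ (t : ℕ → ℝ) (x : ℕ → RN N), Tendsto t atTop atTop ∧
    ∀ K : Set (RN N), IsCompact K →
      Tendsto (fun n => eLpNorm (fun y => u (t n) (x n + y) - ψ y) ⊤ (volume.restrict K))
        atTop (𝓝 0)

/-- `u` is asymptotically locally planar: every `ψ ∈ Ω(u)` is of the form `ψ(x) = Ψ(x · e)`
(almost everywhere) with `Ψ ∈ C²(ℝ)` and a unit vector `e`. -/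
def IsAsympLocallyPlanar {N : ℕ} (u : ℝ → RN N → ℝ) : Prop :=
  ∀ ψ : RN N → ℝ, MemOmega u ψ → ∃ (Ψ : ℝ → ℝ) (e : RN N), ContDiff ℝ 2 Ψ ∧ ‖e‖ = 1 ∧
    ψ =ᵐ[volume] fun x => Ψ ⟪x, e⟫

end Pool.Agent.H29.KPP
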