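import Pool.Agent.H29.KPP.Kernel

/-!
The heat semigroup solves the heat equation pointwise.
-/

open MeasureTheory Set Filter Topology Metric
open scoped RealInnerProductSpace ENNReal

set_option linter.unusedSectionVars false

namespace Pool.Agent.H29.KPP

variable {E : Type*} [NormedAddCommGroup E] [InnerProductSpace ℝ E] [FiniteDimensional ℝ E]
  [MeasurableSpace E] [BorelSpace E]

lemma hasDerivAt_normSq (z b : E) (hb : ‖b‖ = 1) (s : ℝ) :
    HasDerivAt (fun s : ℝ => ‖z + s • b‖ ^ 2) (2 * ⟪z + s • b, b⟫) s := by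
  have h1 : (fun s : ℝ => ‖z + s • b‖ ^ 2) = fun s => ‖z‖ ^ 2 + 2 * s * ⟪z, b⟫ + s ^ 2 := by
    funext s
    rw [norm_add_sq_real, norm_smul, hb, inner_smul_right]
    simp; ring
  rw [h1]
  have h2 : HasDerivAt (fun s : ℝ => ‖z‖ ^ 2 + 2 * s * ⟪z, b⟫) (2 * ⟪z, b⟫) s := by
    have := (((hasDerivAt_id s).const_mul 2).mul_const ⟪z, b⟫).const_add (‖z‖ ^ 2)
    simpa using this
  have h3 : HasDerivAt (fun s : ℝ => s ^ 2) (2 * s) s := by
    simpa using hasDerivAt_pow 2 s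
  have h4 : 2 * ⟪z + s • b, b⟫ = 2 * ⟪z, b⟫ + 2 * s := by
    rw [inner_add_left, inner_smul_left, real_inner_self_eq_norm_sq, hb]
    simp; ring
  rw [h4]
  exact h2.fun_add h3

lemma hasDerivAt_inner (z b : E) (hb : ‖b‖ = 1) (s : ℝ) :
    HasDerivAt (fun s : ℝ => ⟪z + s • b, b⟫) 1 s := by
  have h1 : (fun s : ℝ => ⟪z + s • b, b⟫) = fun s => ⟪z, b⟫ + s := by
    funext s
    rw [inner_add_left, inner_smul_left, real_inner_self_eq_norm_sq, hb]
    simp
  rw [h1]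
  exact (hasDerivAt_id s).const_add _

/-- First derivative of the heat kernel in direction `b`. -/
noncomputable def G1 (b : E) (σ : ℝ) (z : E) : ℝ := -⟪z, b⟫ / (2 * σ) * G σ z

/-- Second derivative of the heat kernel in direction `b`. -/
noncomputable def G2 (b : E) (σ : ℝ) (z : E) : ℝ :=
  (-1 / (2 * σ) + ⟪z, b⟫ ^ 2 / (4 * σ ^ 2)) * G σ z

/-- Time derivative of the heat kernel. -/
noncomputable def Gt (σ : ℝ) (z : E) : ℝ :=
  (-((Module.finrank ℝ E : ℕ) : ℝ) / (2 * σ) + ‖z‖ ^ 2 / (4 * σ ^ 2)) * G σ z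

lemma hasDerivAt_G {σ : ℝ} (hσ : 0 < σ) (z b : E) (hb : ‖b‖ = 1) (s : ℝ) :
    HasDerivAt (fun s : ℝ => G σ (z + s • b)) (G1 b σ (z + s • b)) s := by
  unfold G1 G
  have h1 : HasDerivAt (fun s : ℝ => -‖z + s • b‖ ^ 2 / (4 * σ))
      (-(2 * ⟪z + s • b, b⟫) / (4 * σ)) s := ((hasDerivAt_normSq z b hb s).fun_neg).div_const _
  have h2 := (h1.exp).const_mul
    ((4 * Real.pi * σ) ^ (-((Module.finrank ℝ E : ℕ) : ℝ) / 2))
  convert! h2 using 1
  field_simp
  ring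

lemma hasDerivAt_G1 {σ : ℝ} (hσ : 0 < σ) (z b : E) (hb : ‖b‖ = 1) (s : ℝ) :
    HasDerivAt (fun s : ℝ => G1 b σ (z + s • b)) (G2 b σ (z + s • b)) s := by
  have h1 := hasDerivAt_G hσ z b hb s
  have h2 : HasDerivAt (fun s : ℝ => -⟪z + s • b, b⟫ / (2 * σ)) (-1 / (2 * σ)) s :=
    ((hasDerivAt_inner z b hb s).fun_neg).div_const _
  have h3 := h2.fun_mul h1
  have e : G2 b σ (z + s • b) = -1 / (2 * σ) * G σ (z + s • b) +
      -⟪z + s • b, b⟫ / (2 * σ) * G1 b σ (z + s • b) := by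
    unfold G2 G1
    field_simp
    ring
  rw [e]
  exact h3

lemma hasDerivAt_Gt {σ : ℝ} (hσ : 0 < σ) (z : E) :
    HasDerivAt (fun s : ℝ => G s z) (Gt σ z) σ := by
  have hpi := Real.pi_pos
  have h1 : HasDerivAt (fun s : ℝ => 4 * Real.pi * s) (4 * Real.pi) σ := by
    simpa using (hasDerivAt_id σ).const_mul (4 * Real.pi)
  have h2 := h1.rpow_const (p := -((Module.finrank ℝ E : ℕ) : ℝ) / 2)
    (Or.inl (by positivity))
  have h3 : HasDerivAt (fun s : ℝ => -‖z‖ ^ 2 / (4 * s)) (‖z‖ ^ 2 / (4 * σ ^ 2)) σ := by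
    have h4 : HasDerivAt (fun s : ℝ => 4 * s) 4 σ := by
      simpa using (hasDerivAt_id σ).const_mul 4
    have h5 := (hasDerivAt_const σ (-‖z‖ ^ 2)).fun_div h4 (by positivity)
    convert! h5 using 1
    field_simp
    ring
  have h6 := h2.fun_mul h3.exp
  unfold Gt G
  convert! h6 using 1
  rw [Real.rpow_sub_one (by positivity)]
  field_simp

lemma poly_gauss {c r : ℝ} (hc : 0 < c) (hr : 0 ≤ r) :
    (1 + r) * Real.exp (-c * r) ≤ (1 + 2 / c) * Real.exp (-(c / 2) * r) := by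
  have h1 : 1 + c / 2 * r ≤ Real.exp (c / 2 * r) := by
    have := Real.add_one_le_exp (c / 2 * r); linarith
  have h2 : 1 + r ≤ (1 + 2 / c) * Real.exp (c / 2 * r) := by
    calc 1 + r ≤ (1 + 2 / c) * (1 + c / 2 * r) := by
          have : (1 + 2 / c) * (1 + c / 2 * r) = 1 + r + (c / 2 * r + 2 / c) := by
            field_simp; ring
          rw [this]
          have : 0 ≤ c / 2 * r + 2 / c := by positivity
          linarith
      _ ≤ _ := by gcongr
  have h3 : Real.exp (-(c / 2) * r) = Real.exp (c / 2 * r) * Real.exp (-c * r) := by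
    rw [← Real.exp_add]; congr 1; ring
  rw [h3, ← mul_assoc]
  gcongr

lemma abs_inner_le' (z b : E) (hb : ‖b‖ = 1) : |⟪z, b⟫| ≤ ‖z‖ := by
  have := abs_real_inner_le_norm z b
  rwa [hb, mul_one] at this

lemma gauss_bound_of {k : E → ℝ} {A σ : ℝ} (hσ : 0 < σ) (hA : 0 ≤ A)
    (h : ∀ z, |k z| ≤ A * (1 + ‖z‖ ^ 2) * G σ z) :
    ∃ C, 0 ≤ C ∧ ∀ z, |k z| ≤ C * Real.exp (-(1 / (8 * σ)) * ‖z‖ ^ 2) := by
  have hpi := Real.pi_pos
  refine ⟨A * (4 * Real.pi * σ) ^ (-((Module.finrank ℝ E : ℕ) : ℝ) / 2) *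
    (1 + 2 / (1 / (4 * σ))), by positivity, fun z => (h z).trans ?_⟩
  rw [G_eq_gauss]
  have h1 := poly_gauss (c := 1 / (4 * σ)) (r := ‖z‖ ^ 2) (by positivity) (by positivity)
  have h2 : -(1 / (4 * σ) / 2) * ‖z‖ ^ 2 = -(1 / (8 * σ)) * ‖z‖ ^ 2 := by
    congr 2; field_simp; norm_num
  rw [h2] at h1
  have h3 : 0 ≤ A * (4 * Real.pi * σ) ^ (-((Module.finrank ℝ E : ℕ) : ℝ) / 2) := by positivity
  have h4 := mul_le_mul_of_nonneg_left h1 h3
  calc _ = A * (4 * Real.pi * σ) ^ (-((Module.finrank ℝ E : ℕ) : ℝ) / 2) *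
        ((1 + ‖z‖ ^ 2) * Real.exp (-(1 / (4 * σ)) * ‖z‖ ^ 2)) := by ring
    _ ≤ _ := h4
    _ = _ := by ring

lemma G_gauss_bound {σ : ℝ} (hσ : 0 < σ) :
    ∃ C, 0 ≤ C ∧ ∀ z : E, |G σ z| ≤ C * Real.exp (-(1 / (8 * σ)) * ‖z‖ ^ 2) := by
  refine gauss_bound_of hσ zero_le_one fun z => ?_
  rw [abs_of_nonneg (G_nonneg hσ z)]
  have h1 := G_nonneg hσ z
  nlinarith [sq_nonneg ‖z‖, mul_nonneg (sq_nonneg ‖z‖) h1]

lemma G1_gauss_bound {σ : ℝ} (hσ : 0 < σ) (b : E) (hb : ‖b‖ = 1) :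
    ∃ C, 0 ≤ C ∧ ∀ z : E, |G1 b σ z| ≤ C * Real.exp (-(1 / (8 * σ)) * ‖z‖ ^ 2) := by
  refine gauss_bound_of (A := 1 / (2 * σ)) hσ (by positivity) fun z => ?_
  unfold G1
  rw [abs_mul, abs_of_nonneg (G_nonneg hσ z), abs_div, abs_neg, abs_of_pos (by positivity :
    0 < 2 * σ)]
  have h1 := abs_inner_le' z b hb
  have h2 : |⟪z, b⟫| ≤ 1 + ‖z‖ ^ 2 := by nlinarith [sq_nonneg (‖z‖ - 1), norm_nonneg z]
  have h3 : |⟪z, b⟫| / (2 * σ) ≤ 1 / (2 * σ) * (1 + ‖z‖ ^ 2) := by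
    rw [div_eq_mul_inv, one_div, mul_comm]
    gcongr
  exact mul_le_mul_of_nonneg_right h3 (G_nonneg hσ z)

lemma G2_gauss_bound {σ : ℝ} (hσ : 0 < σ) (b : E) (hb : ‖b‖ = 1) :
    ∃ C, 0 ≤ C ∧ ∀ z : E, |G2 b σ z| ≤ C * Real.exp (-(1 / (8 * σ)) * ‖z‖ ^ 2) := by
  refine gauss_bound_of (A := 1 / (2 * σ) + 1 / (4 * σ ^ 2)) hσ (by positivity) fun z => ?_
  unfold G2
  rw [abs_mul, abs_of_nonneg (G_nonneg hσ z)]
  have h1 := abs_inner_le' z b hb
  have h2 : ⟪z, b⟫ ^ 2 ≤ ‖z‖ ^ 2 := by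
    rw [← sq_abs]; gcongr
  have h3 : |-1 / (2 * σ) + ⟪z, b⟫ ^ 2 / (4 * σ ^ 2)| ≤
      1 / (2 * σ) + ‖z‖ ^ 2 / (4 * σ ^ 2) := by
    rw [abs_le]
    have e1 : ⟪z, b⟫ ^ 2 / (4 * σ ^ 2) ≤ ‖z‖ ^ 2 / (4 * σ ^ 2) := by gcongr
    have e2 : 0 ≤ ⟪z, b⟫ ^ 2 / (4 * σ ^ 2) := by positivity
    have e3 : 0 < 1 / (2 * σ) := by positivity
    have e4 : -1 / (2 * σ) = -(1 / (2 * σ)) := by ring
    have e5 : 0 ≤ ‖z‖ ^ 2 / (4 * σ ^ 2) := by positivity
    rw [e4]
    constructor <;> linarith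
  have h4 : 1 / (2 * σ) + ‖z‖ ^ 2 / (4 * σ ^ 2) ≤
      (1 / (2 * σ) + 1 / (4 * σ ^ 2)) * (1 + ‖z‖ ^ 2) := by
    have e : (1 / (2 * σ) + 1 / (4 * σ ^ 2)) * (1 + ‖z‖ ^ 2) =
      1 / (2 * σ) + ‖z‖ ^ 2 / (4 * σ ^ 2) + (1 / (2 * σ) * ‖z‖ ^ 2 + 1 / (4 * σ ^ 2)) := by ring
    rw [e]
    have : 0 ≤ 1 / (2 * σ) * ‖z‖ ^ 2 + 1 / (4 * σ ^ 2) := by positivity
    linarith
  exact mul_le_mul_of_nonneg_right (h3.trans h4) (G_nonneg hσ z)

lemma continuous_G1 (b : E) (σ : ℝ) : Continuous (G1 b σ : E → ℝ) := by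
  unfold G1
  exact Continuous.mul (by fun_prop) (continuous_G σ)

lemma continuous_G2 (b : E) (σ : ℝ) : Continuous (G2 b σ : E → ℝ) := by
  unfold G2
  exact Continuous.mul (by fun_prop) (continuous_G σ)

lemma continuous_Gt (σ : ℝ) : Continuous (Gt σ : E → ℝ) := by
  unfold Gt
  exact Continuous.mul (by fun_prop) (continuous_G σ)

/-- Differentiation of a convolution in a direction. -/
lemma conv_deriv {k k' : E → ℝ} {b : E} (hb : ‖b‖ = 1) {C C' c M : ℝ} (hc : 0 < c)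
    (hk : Continuous k) (hk' : Continuous k') (hC' : 0 ≤ C')
    (hd : ∀ z (s : ℝ), HasDerivAt (fun s : ℝ => k (z + s • b)) (k' (z + s • b)) s)
    (h1 : ∀ z, |k z| ≤ C * Real.exp (-c * ‖z‖ ^ 2))
    (h2 : ∀ z, |k' z| ≤ C' * Real.exp (-c * ‖z‖ ^ 2))
    {g : E → ℝ} (hg : BM g M) (x : E) (s : ℝ) :
    HasDerivAt (fun s : ℝ => ∫ y, k (x + s • b - y) * g y) (∫ y, k' (x + s • b - y) * g y) s := by
  have hM : 0 ≤ M := (abs_nonneg _).trans (hg.bd 0)
  have key : ∀ (z : E) (r : ℝ), |r| ≤ |s| + 1 → Real.exp (-c * ‖z + r • b‖ ^ 2) ≤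
      Real.exp (c * (|s| + 1) ^ 2) * Real.exp (-(c / 2) * ‖z‖ ^ 2) := by
    intro z r hr
    rw [← Real.exp_add]
    apply Real.exp_le_exp.2
    have e1 : ‖z‖ ≤ ‖z + r • b‖ + |r| := by
      have : z = (z + r • b) - r • b := by abel
      calc ‖z‖ = ‖(z + r • b) - r • b‖ := by rw [← this]
        _ ≤ ‖z + r • b‖ + ‖r • b‖ := norm_sub_le _ _
        _ = _ := by rw [norm_smul, hb, mul_one, Real.norm_eq_abs]
    have e2 : ‖z‖ ^ 2 ≤ 2 * ‖z + r • b‖ ^ 2 + 2 * (|s| + 1) ^ 2 := by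
      have e3 : ‖z‖ ≤ ‖z + r • b‖ + (|s| + 1) := by linarith
      have e4 : ‖z‖ ^ 2 ≤ (‖z + r • b‖ + (|s| + 1)) ^ 2 := by gcongr
      nlinarith [sq_nonneg (‖z + r • b‖ - (|s| + 1))]
    nlinarith
  refine (hasDerivAt_integral_of_dominated_loc_of_deriv_le (ball_mem_nhds s one_pos)
    (F := fun (s : ℝ) y => k (x + s • b - y) * g y)
    (F' := fun (s : ℝ) y => k' (x + s • b - y) * g y)
    (bound := fun y => C' * (Real.exp (c * (|s| + 1) ^ 2) *
      Real.exp (-(c / 2) * ‖x - y‖ ^ 2)) * M) ?_ ?_ ?_ ?_ ?_ ?_).2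
  · refine Filter.Eventually.of_forall fun r => ?_
    exact ((hk.comp (by fun_prop)).measurable.mul hg.meas).aestronglyMeasurable
  · refine Integrable.mul_bdd (c := M) ?_ hg.meas.aestronglyMeasurable
      (Filter.Eventually.of_forall fun z => hg.bd _)
    refine Integrable.mono' ((integrable_gauss_sub hc (x + s • b)).const_mul C) ?_ ?_
    · exact ((hk.comp (by fun_prop)).measurable).aestronglyMeasurable
    · exact Filter.Eventually.of_forall fun y => h1 _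
  · exact ((hk'.comp (by fun_prop)).measurable.mul hg.meas).aestronglyMeasurable
  · refine Filter.Eventually.of_forall fun y r hr => ?_
    rw [norm_mul, Real.norm_eq_abs, Real.norm_eq_abs]
    have hr' : |r| ≤ |s| + 1 := by
      rw [mem_ball, Real.dist_eq] at hr
      have := abs_sub_abs_le_abs_sub r s
      linarith
    have e1 : x + r • b - y = (x - y) + r • b := by abel
    have e2 : |k' (x + r • b - y)| ≤ C' * (Real.exp (c * (|s| + 1) ^ 2) *
        Real.exp (-(c / 2) * ‖x - y‖ ^ 2)) := by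
      rw [e1]
      exact (h2 _).trans (mul_le_mul_of_nonneg_left (key (x - y) r hr') hC')
    exact mul_le_mul e2 (hg.bd y) (abs_nonneg _) ((abs_nonneg _).trans e2)
  · exact (((integrable_gauss_sub (by positivity) x).const_mul _).const_mul _).mul_const _
  · refine Filter.Eventually.of_forall fun y r _ => ?_
    have e1 : ∀ r : ℝ, x + r • b - y = (x - y) + r • b := fun r => by abel
    simp only [e1]
    exact (hd (x - y) r).mul_const _

/-- The space part. -/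
lemma hasLap_T {g : E → ℝ} {M : ℝ} (hg : BM g M) {σ : ℝ} (hσ : 0 < σ) (x : E) :
    HasLap (T σ g) x (∫ y, Gt σ (x - y) * g y) := by
  refine ⟨fun i => ∫ y, G2 (stdOrthonormalBasis ℝ E i) σ (x - y) * g y, fun i => ?_, ?_⟩
  · set b := stdOrthonormalBasis ℝ E i
    have hb : ‖b‖ = 1 := (stdOrthonormalBasis ℝ E).orthonormal.1 i
    obtain ⟨C0, hC0, hb0⟩ := G_gauss_bound (E := E) hσ
    obtain ⟨C1, hC1, hb1⟩ := G1_gauss_bound hσ b hb
    obtain ⟨C2, hC2, hb2⟩ := G2_gauss_bound hσ b hb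
    refine ⟨fun s => ∫ y, G1 b σ (x + s • b - y) * g y, fun s => ?_, ?_⟩
    · simp only [T_eq hσ]
      exact conv_deriv hb (by positivity) (continuous_G σ) (continuous_G1 b σ) hC1
        (fun z s => hasDerivAt_G hσ z b hb s) hb0 hb1 hg x s
    · have := conv_deriv hb (by positivity) (continuous_G1 b σ) (continuous_G2 b σ) hC2
        (fun z s => hasDerivAt_G1 hσ z b hb s) hb1 hb2 hg x 0
      simpa using this
  · rw [← integral_finsetSum]
    · congr 1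
      funext y
      rw [← Finset.sum_mul]
      congr 1
      unfold G2 Gt
      rw [← Finset.sum_mul]
      congr 1
      rw [Finset.sum_add_distrib, ← Finset.sum_div, ← Finset.sum_div,
        (stdOrthonormalBasis ℝ E).sum_sq_inner_left (x - y)]
      simp
    · intro i _
      obtain ⟨C2, hC2, hb2⟩ := G2_gauss_bound hσ (stdOrthonormalBasis ℝ E i)
        ((stdOrthonormalBasis ℝ E).orthonormal.1 i)
      refine Integrable.mul_bdd (c := M) ?_ hg.meas.aestronglyMeasurable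
        (Filter.Eventually.of_forall fun z => hg.bd _)
      refine Integrable.mono' ((integrable_gauss_sub (c := 1 / (8 * σ)) (by positivity) x).const_mul
        C2) ?_ ?_
      · exact (((continuous_G2 _ σ).comp (by fun_prop)).measurable).aestronglyMeasurable
      · exact Filter.Eventually.of_forall fun y => hb2 _

/-- The time part. -/
lemma hasDerivAt_T {g : E → ℝ} {M : ℝ} (hg : BM g M) {σ : ℝ} (hσ : 0 < σ) (x : E) :
    HasDerivAt (fun s => T s g x) (∫ y, Gt σ (x - y) * g y) σ := by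
  have hpi := Real.pi_pos
  have hM : 0 ≤ M := (abs_nonneg _).trans (hg.bd 0)
  have h1 : HasDerivAt (fun s => ∫ y, G s (x - y) * g y) (∫ y, Gt σ (x - y) * g y) σ := by
    set n : ℝ := ((Module.finrank ℝ E : ℕ) : ℝ) with hn
    have hn0 : 0 ≤ n := by positivity
    set A : ℝ := (n / σ + 1 / σ ^ 2) * (2 * Real.pi * σ) ^ (-n / 2) *
      (1 + 2 / (1 / (8 * σ))) with hA
    have hA0 : 0 ≤ A := by positivity
    have hbound : ∀ s ∈ Ioo (σ / 2) (2 * σ), ∀ z : E, |Gt s z| ≤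
        A * Real.exp (-(1 / (8 * σ) / 2) * ‖z‖ ^ 2) := by
      intro s hs z
      have hs0 : 0 < s := by linarith [hs.1]
      have e1 : |(-n / (2 * s) + ‖z‖ ^ 2 / (4 * s ^ 2))| ≤
          (n / σ + 1 / σ ^ 2) * (1 + ‖z‖ ^ 2) := by
        have f1 : n / (2 * s) ≤ n / σ := by
          apply div_le_div_of_nonneg_left hn0 hσ; linarith [hs.1]
        have f2 : ‖z‖ ^ 2 / (4 * s ^ 2) ≤ ‖z‖ ^ 2 / σ ^ 2 := by
          apply div_le_div_of_nonneg_left (by positivity) (by positivity)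
          nlinarith [hs.1]
        have f3 : 0 ≤ n / (2 * s) := by positivity
        have f4 : 0 ≤ ‖z‖ ^ 2 / (4 * s ^ 2) := by positivity
        have f5 : (n / σ + 1 / σ ^ 2) * (1 + ‖z‖ ^ 2) = n / σ + ‖z‖ ^ 2 / σ ^ 2 +
          (n / σ * ‖z‖ ^ 2 + 1 / σ ^ 2) := by ring
        have f6 : 0 ≤ n / σ * ‖z‖ ^ 2 + 1 / σ ^ 2 := by positivity
        have f7 : -n / (2 * s) = -(n / (2 * s)) := by ring
        rw [f5, f7, abs_le]
        constructor <;> linarith
      have e2 : G s z ≤ (2 * Real.pi * σ) ^ (-n / 2) * Real.exp (-(1 / (8 * σ)) * ‖z‖ ^ 2) := by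
        rw [G_eq_gauss]
        have g1 : (4 * Real.pi * s) ^ (-n / 2) ≤ (2 * Real.pi * σ) ^ (-n / 2) := by
          apply Real.rpow_le_rpow_of_nonpos (by positivity)
          · nlinarith [hs.1]
          · linarith
        have g2 : Real.exp (-(1 / (4 * s)) * ‖z‖ ^ 2) ≤ Real.exp (-(1 / (8 * σ)) * ‖z‖ ^ 2) := by
          apply Real.exp_le_exp.2
          have g3 : 1 / (8 * σ) ≤ 1 / (4 * s) := by
            apply one_div_le_one_div_of_le (by positivity)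
            linarith [hs.2]
          nlinarith [sq_nonneg ‖z‖]
        gcongr
      unfold Gt
      rw [abs_mul, abs_of_nonneg (G_nonneg hs0 z)]
      calc _ ≤ ((n / σ + 1 / σ ^ 2) * (1 + ‖z‖ ^ 2)) * ((2 * Real.pi * σ) ^ (-n / 2) *
            Real.exp (-(1 / (8 * σ)) * ‖z‖ ^ 2)) :=
            mul_le_mul e1 e2 (G_nonneg hs0 z) (by positivity)
        _ = ((n / σ + 1 / σ ^ 2) * (2 * Real.pi * σ) ^ (-n / 2)) *
            ((1 + ‖z‖ ^ 2) * Real.exp (-(1 / (8 * σ)) * ‖z‖ ^ 2)) := by ring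
        _ ≤ ((n / σ + 1 / σ ^ 2) * (2 * Real.pi * σ) ^ (-n / 2)) *
            ((1 + 2 / (1 / (8 * σ))) * Real.exp (-(1 / (8 * σ) / 2) * ‖z‖ ^ 2)) := by
            apply mul_le_mul_of_nonneg_left _ (by positivity)
            exact poly_gauss (by positivity) (by positivity)
        _ = _ := by rw [hA]; ring
    refine (hasDerivAt_integral_of_dominated_loc_of_deriv_le
      (Ioo_mem_nhds (by linarith : σ / 2 < σ) (by linarith : σ < 2 * σ))
      (F := fun (s : ℝ) y => G s (x - y) * g y)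
      (F' := fun (s : ℝ) y => Gt s (x - y) * g y)
      (bound := fun y => A * Real.exp (-(1 / (8 * σ) / 2) * ‖x - y‖ ^ 2) * M)
      ?_ ?_ ?_ ?_ ?_ ?_).2
    · refine Filter.Eventually.of_forall fun r => ?_
      exact (((continuous_G r).comp (by fun_prop)).measurable.mul hg.meas).aestronglyMeasurable
    · exact hg.kernel hσ x
    · exact (((continuous_Gt σ).comp (by fun_prop)).measurable.mul hg.meas).aestronglyMeasurable
    · refine Filter.Eventually.of_forall fun y r hr => ?_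
      rw [norm_mul, Real.norm_eq_abs, Real.norm_eq_abs]
      exact mul_le_mul (hbound r hr _) (hg.bd y) (abs_nonneg _) (by positivity)
    · exact ((integrable_gauss_sub (by positivity) x).const_mul _).mul_const _
    · refine Filter.Eventually.of_forall fun y r hr => ?_
      exact (hasDerivAt_Gt (by linarith [hr.1]) (x - y)).mul_const _
  refine h1.congr_of_eventuallyEq ?_
  filter_upwards [lt_mem_nhds hσ] with s hs
  exact T_eq hs g x

/-- `T σ g` solves the heat equation. -/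
theorem PDE_T {g : E → ℝ} {M : ℝ} (hg : BM g M) {σ : ℝ} (hσ : 0 < σ) (x : E) :
    PDE (fun s y => T s g y) σ x 0 :=
  ⟨_, _, hasDerivAt_T hg hσ x, hasLap_T hg hσ x, sub_self _⟩

/-- The shifted version. -/
theorem PDE_T' {g : E → ℝ} {M : ℝ} (hg : BM g M) {t0 t : ℝ} (ht : t0 < t) (x : E) :
    PDE (fun s y => T (s - t0) g y) t x 0 := by
  have := (PDE_T hg (σ := t - t0) (by linarith) (x + 0)).shift t0 0
  simpa using this

end Pool.Agent.H29.KPP
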