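import Pool.Agent.H29.KPP.Compact

/-!
Entire limits of solutions.
-/

open MeasureTheory Set Filter Topology Metric
open scoped RealInnerProductSpace ENNReal

set_option linter.unusedSectionVars false

namespace Pool.Agent.H29.KPP

variable {E : Type*} [NormedAddCommGroup E] [InnerProductSpace ℝ E] [FiniteDimensional ℝ E]
  [MeasurableSpace E] [BorelSpace E]

/-- The properties of entire limits that are used. -/
structure Ent (L : ℝ) (a : ℝ → E → ℝ) : Prop where
  range : ∀ t x, a t x ∈ Icc (0:ℝ) 1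
  cont : Continuous (fun p : ℝ × E => a p.1 p.2)
  lower : ∀ t x, ∀ σ ≥ 0, T σ (a (t - σ)) x ≤ a t x
  upper : ∀ t x, ∀ σ ≥ 0, a t x ≤ Real.exp (L * σ) * T σ (a (t - σ)) x
  diff : ∀ ϑ ∈ Icc (0:ℝ) 1, ∀ (s : ℝ) (h : E) t x, ∀ σ ≥ 0,
    Real.exp (-L * σ) * T σ (fun y => max (a (t - σ) y - ϑ * a (t - σ - s) (y + h)) 0) x -
    Real.exp (L * σ) * T σ (fun y => max (-(a (t - σ) y - ϑ * a (t - σ - s) (y + h))) 0) x
      ≤ a t x - ϑ * a (t - s) (x + h)

lemma Ent.cont_at {L : ℝ} {a : ℝ → E → ℝ} (h : Ent L a) (t : ℝ) : Continuous (a t) := by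
  have h1 : Continuous (fun x : E => ((t, x) : ℝ × E)) := by fun_prop
  exact h.cont.comp h1

lemma Ent.bm {L : ℝ} {a : ℝ → E → ℝ} (h : Ent L a) (t : ℝ) : BM (a t) 1 :=
  ⟨(h.cont_at t).measurable, fun x => by
    have := h.range t x
    rw [abs_le]; constructor <;> linarith [this.1, this.2]⟩

lemma tendsto_T {g : ℕ → E → ℝ} {g' : E → ℝ} {M : ℝ} (hg : ∀ᶠ n in atTop, BM (g n) M)
    (hlim : ∀ y, Tendsto (fun n => g n y) atTop (𝓝 (g' y))) (σ : ℝ) (x : E) :
    Tendsto (fun n => T σ (g n) x) atTop (𝓝 (T σ g' x)) := by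
  unfold T
  apply tendsto_integral_filter_of_dominated_convergence (bound := fun z => G 1 z * M)
  · filter_upwards [hg] with n hn
    exact (hn.integrand σ x).aestronglyMeasurable
  · filter_upwards [hg] with n hn
    refine Filter.Eventually.of_forall fun z => ?_
    rw [norm_mul, Real.norm_of_nonneg (G_nonneg one_pos z)]
    exact mul_le_mul_of_nonneg_left (hn.bd _) (G_nonneg one_pos z)
  · exact (integrable_G one_pos).mul_const M
  · refine Filter.Eventually.of_forall fun z => ?_
    exact (hlim _).const_mul _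

theorem ent_of_limit {f : ℝ → ℝ} {L : ℝ} (hf : NL f L) {u : ℝ → E → ℝ} (h : Sol f u)
    {t : ℕ → ℝ} (ht : Tendsto t atTop atTop) {p : ℕ → E} {a : ℝ → E → ℝ}
    (ha : Continuous (fun p : ℝ × E => a p.1 p.2))
    (hlim : ∀ s y, Tendsto (fun n => u (t n + s) (p n + y)) atTop (𝓝 (a s y))) : Ent L a := by
  have hpos : ∀ s : ℝ, ∀ᶠ n in atTop, 0 < t n + s := by
    intro s
    filter_upwards [ht.eventually_gt_atTop (-s)] with n hn
    linarith
  have hbm : ∀ s : ℝ, ∀ᶠ n in atTop, BM (fun y => u (t n + s) (p n + y)) 1 := by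
    intro s
    filter_upwards [hpos s] with n hn
    refine ⟨((h.continuous_at hn).comp (by fun_prop)).measurable, fun x => ?_⟩
    have := h.range _ hn (p n + x)
    rw [abs_le]; constructor <;> linarith [this.1, this.2]
  refine ⟨fun s y => ?_, ha, fun s y σ hσ => ?_, fun s y σ hσ => ?_,
    fun ϑ hϑ r k s y σ hσ => ?_⟩
  · refine isClosed_Icc.mem_of_tendsto (hlim s y) ?_
    filter_upwards [hpos s] with n hn
    exact h.range _ hn _
  · refine le_of_tendsto_of_tendsto (tendsto_T (hbm (s - σ)) (hlim (s - σ)) σ y) (hlim s y) ?_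
    filter_upwards [hpos (s - σ)] with n hn
    have h1 := (h.on' (t n + s) hn).lower hf (by linarith) (y + p n)
    rw [← T_shift, show t n + s - (t n + (s - σ)) = σ by ring] at h1
    simpa only [add_comm (p n)] using h1
  · refine le_of_tendsto_of_tendsto (hlim s y)
      ((tendsto_T (hbm (s - σ)) (hlim (s - σ)) σ y).const_mul _) ?_
    filter_upwards [hpos (s - σ)] with n hn
    have h1 := (h.on' (t n + s) hn).upper hf (by linarith) (y + p n)
    rw [← T_shift, show t n + s - (t n + (s - σ)) = σ by ring] at h1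
    simpa only [add_comm (p n)] using h1
  · have hD : ∀ z, Tendsto (fun n => u (t n + (s - σ)) (p n + z) -
        ϑ * u (t n + (s - σ - r)) (p n + (z + k))) atTop
        (𝓝 (a (s - σ) z - ϑ * a (s - σ - r) (z + k))) := fun z =>
      (hlim _ _).sub ((hlim _ _).const_mul ϑ)
    have hDb : ∀ᶠ n in atTop, ∀ z, |u (t n + (s - σ)) (p n + z) -
        ϑ * u (t n + (s - σ - r)) (p n + (z + k))| ≤ 1 := by
      filter_upwards [hpos (s - σ), hpos (s - σ - r)] with n h1 h2 z
      have r1 := h.range _ h1 (p n + z)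
      have r2 := h.range _ h2 (p n + (z + k))
      have h3 : ϑ * u (t n + (s - σ - r)) (p n + (z + k)) ≤ 1 := by
        nlinarith [hϑ.1, hϑ.2, r2.1, r2.2]
      have h4 := mul_nonneg hϑ.1 r2.1
      rw [abs_le]; constructor <;> linarith [r1.1, r1.2]
    have hcont : ∀ᶠ n in atTop, Continuous (fun z => u (t n + (s - σ)) (p n + z) -
        ϑ * u (t n + (s - σ - r)) (p n + (z + k))) := by
      filter_upwards [hpos (s - σ), hpos (s - σ - r)] with n h1 h2
      exact ((h.continuous_at h1).comp (by fun_prop)).sub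
        (continuous_const.mul ((h.continuous_at h2).comp (by fun_prop)))
    have hP : ∀ᶠ n in atTop, BM (fun z => max (u (t n + (s - σ)) (p n + z) -
        ϑ * u (t n + (s - σ - r)) (p n + (z + k))) 0) 1 := by
      filter_upwards [hDb, hcont] with n h1 h2
      refine ⟨(h2.max continuous_const).measurable, fun z => ?_⟩
      rw [abs_of_nonneg (le_max_right _ _)]
      exact max_le (abs_le.1 (h1 z)).2 zero_le_one
    have hQ : ∀ᶠ n in atTop, BM (fun z => max (-(u (t n + (s - σ)) (p n + z) -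
        ϑ * u (t n + (s - σ - r)) (p n + (z + k)))) 0) 1 := by
      filter_upwards [hDb, hcont] with n h1 h2
      refine ⟨(h2.neg.max continuous_const).measurable, fun z => ?_⟩
      rw [abs_of_nonneg (le_max_right _ _)]
      exact max_le (by linarith [(abs_le.1 (h1 z)).1]) zero_le_one
    refine le_of_tendsto_of_tendsto
      (((tendsto_T hP (fun z => (hD z).max tendsto_const_nhds) σ y).const_mul _).sub
      ((tendsto_T hQ (fun z => (hD z).neg.max tendsto_const_nhds) σ y).const_mul _))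
      ((hlim s y).sub ((hlim (s - r) (y + k)).const_mul ϑ)) ?_
    filter_upwards [hpos (s - σ), hpos (s - σ - r)] with n h1 h2
    have h3 := (h.on' (t n + s) h1).diff hf
      (h.on (s := r) (t0 := t n + (s - σ)) k (t n + s) (by linarith)) hϑ (by linarith) (y + p n)
    rw [show t n + s - (t n + (s - σ)) = σ by ring] at h3
    have e1 := T_shift (fun y => max (u (t n + (s - σ)) y -
      ϑ * u (t n + (s - σ) - r) (y + k)) 0) σ y (p n)
    have e2 := T_shift (fun y => max (-(u (t n + (s - σ)) y -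
      ϑ * u (t n + (s - σ) - r) (y + k))) 0) σ y (p n)
    rw [← e1, ← e2] at h3
    have c1 : ∀ z : E, p n + z = z + p n := fun z => add_comm _ _
    have c3 : t n + (s - σ - r) = t n + (s - σ) - r := by ring
    have c4 : t n + (s - r) = t n + s - r := by ring
    simp only [c1, c3, c4]
    have c5 : ∀ z : E, z + k + p n = z + p n + k := fun z => by abel
    simp only [c5]
    exact h3

/-- Existence of simultaneous entire limits along a subsequence. -/
theorem exists_entire {f : ℝ → ℝ} {L : ℝ} (hf : NL f L) {u : ℝ → E → ℝ} (h : Sol f u)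
    {t : ℕ → ℝ} (ht : Tendsto t atTop atTop) (p : ℕ → E) :
    ∃ (φ : ℕ → ℕ) (a : ℝ → E → ℝ), StrictMono φ ∧
      Continuous (fun p : ℝ × E => a p.1 p.2) ∧
      (∀ s, TendstoLocallyUniformly (fun n y => u (t (φ n) + s) (p (φ n) + y)) (a s) atTop) := by
  obtain ⟨φ, F, hφ, hF⟩ := exists_subseq_translate (X := ℝ × E)
    (v := fun q : ℝ × E => u (max q.1 1) q.2) (h.uniformContinuous hf)
    (fun q => h.range _ (lt_of_lt_of_le one_pos (le_max_right _ _)) _)
    (fun n => (t n, p n))
  refine ⟨φ, fun s y => F (s, y), hφ, F.continuous, fun s => ?_⟩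
  have h1 := hF.comp (fun y : E => ((s, y) : ℝ × E)) (by fun_prop)
  rw [Metric.tendstoLocallyUniformly_iff] at h1 ⊢
  intro ε hε x
  obtain ⟨W, hW, hev⟩ := h1 ε hε x
  refine ⟨W, hW, ?_⟩
  have htφ : Tendsto (fun n => t (φ n)) atTop atTop := ht.comp hφ.tendsto_atTop
  filter_upwards [hev, htφ.eventually_ge_atTop (1 - s)] with n hn hn2 y hy
  have h2 := hn y hy
  simp only [Function.comp] at h2
  have h3 : max (t (φ n) + s) 1 = t (φ n) + s := max_eq_left (by linarith)
  simpa [h3] using h2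

lemma tendsto_of_lu {g : ℕ → E → ℝ} {g' : E → ℝ} (h : TendstoLocallyUniformly g g' atTop) (y : E) :
    Tendsto (fun n => g n y) atTop (𝓝 (g' y)) := by
  rw [Metric.tendstoLocallyUniformly_iff] at h
  rw [Metric.tendsto_nhds]
  intro ε hε
  obtain ⟨W, hW, hev⟩ := h ε hε y
  filter_upwards [hev] with n hn
  rw [dist_comm]
  exact hn y (mem_of_mem_nhds hW)

lemma TLU_subseq {g : ℕ → E → ℝ} {g' : E → ℝ} (h : TendstoLocallyUniformly g g' atTop)
    {φ : ℕ → ℕ} (hφ : StrictMono φ) :
    TendstoLocallyUniformly (fun n => g (φ n)) g' atTop := by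
  rw [Metric.tendstoLocallyUniformly_iff] at h ⊢
  intro ε hε x
  obtain ⟨W, hW, hev⟩ := h ε hε x
  exact ⟨W, hW, hφ.tendsto_atTop.eventually hev⟩

end Pool.Agent.H29.KPP
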