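import Pool.Agent.H29.KPP.MainAbs

/-!
The one-step (Euler) estimate, the semigroup law and the Duhamel formula.
-/

open MeasureTheory Set Filter Topology Metric
open scoped RealInnerProductSpace ENNReal

set_option linter.unusedSectionVars false

namespace Pool.Agent.H29.KPP

variable {E : Type*} [NormedAddCommGroup E] [InnerProductSpace ℝ E] [FiniteDimensional ℝ E]
  [MeasurableSpace E] [BorelSpace E]

lemma NL.continuousOn {f : ℝ → ℝ} {L : ℝ} (hf : NL f L) : ContinuousOn f (Icc 0 1) := by
  have : LipschitzOnWith (Real.toNNReal L) f (Icc 0 1) := by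
    apply LipschitzOnWith.of_dist_le_mul
    intro a ha b hb
    rw [Real.dist_eq, Real.dist_eq, Real.coe_toNNReal _ hf.L0]
    exact hf.lip a ha b hb
  exact this.continuousOn

lemma NL.cont_comp {X : Type*} [TopologicalSpace X] {f : ℝ → ℝ} {L : ℝ} (hf : NL f L) {v : X → ℝ}
    (hv : Continuous v) (hr : ∀ x, v x ∈ Icc (0:ℝ) 1) : Continuous (fun x => f (v x)) :=
  hf.continuousOn.comp_continuous hv hr

lemma NL.abs_le {f : ℝ → ℝ} {L : ℝ} (hf : NL f L) {a : ℝ} (ha : a ∈ Icc (0:ℝ) 1) :
    |f a| ≤ L := by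
  rw [abs_of_nonneg (hf.nonneg a ha)]
  have h1 := hf.le ha
  nlinarith [hf.L0, ha.1, ha.2]

lemma exists_tail {ε : ℝ} (hε : 0 < ε) :
    ∃ R > 0, ∫ z in (closedBall (0:E) R)ᶜ, G 1 z < ε := by
  have hW : Integrable (fun z : E => G 1 z) := integrable_G one_pos
  have h1 : Tendsto (fun R : ℝ => ∫ x in closedBall (0:E) R, G 1 x) atTop (𝓝 (∫ x, G 1 x)) :=
    (aecover_closedBall tendsto_id).integral_tendsto_of_countably_generated hW
  have h2 := h1.eventually (lt_mem_nhds (show (∫ x : E, G 1 x) - ε < ∫ x, G 1 x by linarith))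
  obtain ⟨R, hR, hR0⟩ := (h2.and (eventually_gt_atTop 0)).exists
  refine ⟨R, hR0, ?_⟩
  have h3 := integral_add_compl (measurableSet_closedBall (x := (0:E)) (ε := R)) hW
  linarith

/-- `T r g y` is close to `c` if `g` is close to `c` near `y`. -/
lemma T_close {g : E → ℝ} {M : ℝ} (hg : BM g M) {c : ℝ} (hc : |c| ≤ M) {ε R : ℝ} (hε : 0 < ε)
    (hR : 0 < R) (htail : ∫ z in (closedBall (0:E) R)ᶜ, G 1 z < ε) {r : ℝ} {y : E}
    (hclose : ∀ z, ‖z - y‖ ≤ Real.sqrt r * R → |g z - c| ≤ ε) :
    |T r g y - c| ≤ ε + 2 * M * ε := by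
  have hM : 0 ≤ M := (abs_nonneg _).trans hc
  have hcBM : BM (fun _ : E => c) M := ⟨measurable_const, fun _ => hc⟩
  have h1 : T r g y - c = ∫ z, G 1 z * (g (y - Real.sqrt r • z) - c) := by
    have h2 := T_sub hg hcBM r y
    rw [T_const] at h2
    rw [← h2]
    rfl
  have hdiff : BM (fun z => g z - c) (2 * M) := by
    refine ⟨hg.meas.sub measurable_const, fun z => ?_⟩
    have h3 := hg.bd z
    calc |g z - c| ≤ |g z| + |c| := abs_sub _ _
      _ ≤ _ := by linarith
  have hint := hdiff.integrand r y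
  have hint2 := hint.norm
  rw [h1]
  calc |∫ z, G 1 z * (g (y - Real.sqrt r • z) - c)|
      ≤ ∫ z, ‖G 1 z * (g (y - Real.sqrt r • z) - c)‖ := by
        rw [← Real.norm_eq_abs]; exact norm_integral_le_integral_norm _
    _ = (∫ z in closedBall (0:E) R, ‖G 1 z * (g (y - Real.sqrt r • z) - c)‖) +
        ∫ z in (closedBall (0:E) R)ᶜ, ‖G 1 z * (g (y - Real.sqrt r • z) - c)‖ :=
        (integral_add_compl measurableSet_closedBall hint2).symm
    _ ≤ (∫ z in closedBall (0:E) R, G 1 z * ε) +
        ∫ z in (closedBall (0:E) R)ᶜ, G 1 z * (2 * M) := by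
        apply add_le_add
        · apply setIntegral_mono_on hint2.integrableOn
            ((integrable_G one_pos).mul_const ε).integrableOn measurableSet_closedBall
          intro z hz
          rw [norm_mul, Real.norm_of_nonneg (G_nonneg one_pos z), Real.norm_eq_abs]
          apply mul_le_mul_of_nonneg_left _ (G_nonneg one_pos z)
          apply hclose
          have e : y - Real.sqrt r • z - y = -(Real.sqrt r • z) := by abel
          rw [e, norm_neg, norm_smul, Real.norm_of_nonneg (Real.sqrt_nonneg _)]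
          apply mul_le_mul_of_nonneg_left _ (Real.sqrt_nonneg _)
          simpa using hz
        · apply setIntegral_mono_on hint2.integrableOn
            ((integrable_G one_pos).mul_const (2 * M)).integrableOn
            measurableSet_closedBall.compl
          intro z hz
          rw [norm_mul, Real.norm_of_nonneg (G_nonneg one_pos z), Real.norm_eq_abs]
          exact mul_le_mul_of_nonneg_left (hdiff.bd _) (G_nonneg one_pos z)
    _ ≤ ε + 2 * M * ε := by
        rw [integral_mul_const, integral_mul_const]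
        have h4 : ∫ z in closedBall (0:E) R, G 1 z ≤ 1 := by
          calc ∫ z in closedBall (0:E) R, G 1 z ≤ ∫ z : E, G 1 z :=
                setIntegral_le_integral (integrable_G one_pos)
                  (Filter.Eventually.of_forall fun z => G_nonneg one_pos z)
            _ = 1 := integral_G one_pos
        nlinarith

/-- Euler estimate. -/
theorem Sol.euler {f : ℝ → ℝ} {L : ℝ} (hf : NL f L) {u : ℝ → E → ℝ} (h : Sol f u) {ε : ℝ}
    (hε : 0 < ε) : ∃ h0 > 0, ∀ t ≥ 1, ∀ r ∈ Ioo 0 h0, ∀ x,
      |u (t + r) x - (T r (u t) x + r * T r (fun y => f (u t y)) x)| ≤ ε * r := by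
  have hL := hf.L0
  set ε' := ε / (2 * (L + 1)) with hε'
  have hε'0 : 0 < ε' := by positivity
  obtain ⟨R, hR, htail⟩ := exists_tail (E := E) (ε := ε') hε'0
  have huc := h.uniformContinuous hf
  rw [Metric.uniformContinuous_iff] at huc
  obtain ⟨ρ, hρ, hρ'⟩ := huc (ε' / (L + 1)) (by positivity)
  -- choose h0
  set h0 : ℝ := min ρ ((ρ / (2 * R)) ^ 2) with hh0
  have hh0pos : 0 < h0 := lt_min hρ (by positivity)
  have hh0ρ : h0 ≤ ρ := min_le_left _ _
  have hh0R : ∀ r ∈ Ioo 0 h0, Real.sqrt r * R < ρ := by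
    intro r hr
    have h1 : Real.sqrt r ≤ ρ / (2 * R) := by
      rw [Real.sqrt_le_left (by positivity)]
      exact (hr.2.trans_le (min_le_right _ _)).le
    calc Real.sqrt r * R ≤ ρ / (2 * R) * R := by gcongr
      _ = ρ / 2 := by field_simp
      _ < ρ := by linarith
  refine ⟨h0, hh0pos, fun t ht r hr x => ?_⟩
  have ht0 : 0 < t := by linarith
  have hut := h.continuous_at ht0
  have hFc : Continuous (fun y => f (u t y)) := hf.cont_comp hut (h.range t ht0)
  have hFb : ∀ y, |f (u t y)| ≤ L := fun y => hf.abs_le (h.range t ht0 y)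
  have hFm : BM (fun y => f (u t y)) L := ⟨hFc.measurable, hFb⟩
  have hs := h.on' (t + r) ht0
  have hum := hs.bm (left_mem_Icc.2 (by linarith [hr.1] : t ≤ t + r))
  -- the source estimate
  have hsrc : ∀ s ∈ Ioc t (t + r), ∀ y,
      |T (s - t) (fun y => f (u t y)) y - f (u s y)| ≤ ε := by
    intro s hs y
    have hs' : s - t ∈ Ioo 0 h0 := ⟨by linarith [hs.1], by linarith [hs.2, hr.2]⟩
    have hs0 : 0 < s := by linarith [hs.1]
    refine (T_close hFm (hf.abs_le (h.range s hs0 y)) hε'0 hR htail (r := s - t) (y := y)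
      fun z hz => ?_).trans ?_
    · refine (hf.lip _ (h.range t ht0 z) _ (h.range s hs0 y)).trans ?_
      have h1 := @hρ' (t, z) (s, y) (by
        rw [Prod.dist_eq, max_lt_iff]
        refine ⟨?_, ?_⟩
        · simp only [Real.dist_eq]
          rw [abs_sub_comm, abs_of_pos hs'.1]
          linarith [hs'.2]
        · simp only [dist_eq_norm]
          exact lt_of_le_of_lt hz (hh0R _ hs'))
      simp only at h1
      rw [max_eq_left ht, max_eq_left (by linarith [hs.1]), Real.dist_eq] at h1
      calc L * |u t z - u s y| ≤ (L + 1) * (ε' / (L + 1)) := by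
            apply mul_le_mul (by linarith) h1.le (abs_nonneg _) (by linarith)
        _ = ε' := by field_simp
    · rw [hε']
      have : ε / (2 * (L + 1)) + 2 * L * (ε / (2 * (L + 1))) =
        ε * ((1 + 2 * L) / (2 * (L + 1))) := by ring
      rw [this]
      have h2 : (1 + 2 * L) / (2 * (L + 1)) ≤ 1 := by
        rw [div_le_one (by positivity)]; linarith
      nlinarith
  -- the PDE for the approximate solution
  have hPDE : ∀ s ∈ Ioc t (t + r), ∀ y,
      PDE (fun s y => T (s - t) (u t) y + (s - t) * T (s - t) (fun y => f (u t y)) y) s y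
        (T (s - t) (fun y => f (u t y)) y) := by
    intro s hs y
    have p1 := PDE_T' hum hs.1 y
    obtain ⟨a, l, ha, ⟨d, hd, hd'⟩, hal⟩ := PDE_T' hFm hs.1 y
    have p2 : PDE (fun s y => (s - t) * T (s - t) (fun y => f (u t y)) y) s y
        (T (s - t) (fun y => f (u t y)) y) := by
      refine ⟨1 * T (s - t) (fun y => f (u t y)) y + (s - t) * a, (s - t) * l, ?_,
        HasLap.const_mul (s - t) ⟨d, hd, hd'⟩, ?_⟩
      · exact ((hasDerivAt_id s).sub_const t).fun_mul ha
      · have : a = l := by linarith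
        rw [this]; ring
    have := p1.add p2
    simpa using this
  have hWc : ContinuousOn (fun p : ℝ × E => T (p.1 - t) (u t) p.2 +
      (p.1 - t) * T (p.1 - t) (fun y => f (u t y)) p.2) (Icc t (t + r) ×ˢ univ) := by
    refine (continuousOn_T_sub hut hum.bd t _).add (ContinuousOn.mul (Continuous.continuousOn
      (by fun_prop)) (continuousOn_T_sub hFc hFb t _))
  have hWb : ∀ s ∈ Icc t (t + r), ∀ y, |T (s - t) (u t) y +
      (s - t) * T (s - t) (fun y => f (u t y)) y| ≤ 1 + r * L := by
    intro s hs y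
    have b1 := T_abs_le hum (s - t) y
    have b2 := T_abs_le hFm (s - t) y
    have b3 : |(s - t) * T (s - t) (fun y => f (u t y)) y| ≤ r * L := by
      rw [abs_mul, abs_of_nonneg (by linarith [hs.1])]
      apply mul_le_mul (by linarith [hs.2]) b2 (abs_nonneg _) (by linarith [hr.1])
    exact (abs_add_le _ _).trans (add_le_add b1 b3)
  have hrange := hs.range
  rw [abs_le]
  constructor
  · -- u - W + ε r ≥ 0
    have key := comparison (t0 := t) (T := t + r) (K := 0) (M := 1 + r * L)
      (w := fun s y => u s y - (T (s - t) (u t) y +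
        (s - t) * T (s - t) (fun y => f (u t y)) y) + ε * (s - t)) ?_ ?_ ?_ ?_ (t + r)
        (right_mem_Icc.2 (by linarith [hr.1])) x
    · simp only [add_sub_cancel_left] at key
      linarith
    · exact (hs.cont.sub hWc).add (Continuous.continuousOn (by fun_prop))
    · intro s hs' y
      have h1 := (hrange s hs' y).1
      have h2 := (abs_le.1 (hWb s hs' y)).2
      have h3 : 0 ≤ ε * (s - t) := mul_nonneg hε.le (by linarith [hs'.1])
      linarith
    · intro y
      simp [T_of_nonpos]
    · intro s hs' y _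
      have pc : PDE (fun (s : ℝ) (_ : E) => ε * (s - t)) s y ε := by
        refine ⟨ε, 0, ?_, ⟨fun _ => 0, fun i => ⟨fun _ => 0, fun r => hasDerivAt_const _ _,
          hasDerivAt_const _ _⟩, by simp⟩, by ring⟩
        simpa using ((hasDerivAt_id s).sub_const t).const_mul ε
      refine ⟨_, ((hs.pde s hs' y).sub (hPDE s hs' y)).add pc, ?_⟩
      have := (abs_le.1 (hsrc s hs' y)).2
      rw [zero_mul]
      linarith
  · have key := comparison (t0 := t) (T := t + r) (K := 0) (M := 2 + r * L)
      (w := fun s y => (T (s - t) (u t) y +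
        (s - t) * T (s - t) (fun y => f (u t y)) y) - u s y + ε * (s - t)) ?_ ?_ ?_ ?_ (t + r)
        (right_mem_Icc.2 (by linarith [hr.1])) x
    · simp only [add_sub_cancel_left] at key
      linarith
    · exact (hWc.sub hs.cont).add (Continuous.continuousOn (by fun_prop))
    · intro s hs' y
      have h1 := (hrange s hs' y).2
      have h2 := (abs_le.1 (hWb s hs' y)).1
      have h3 : 0 ≤ ε * (s - t) := mul_nonneg hε.le (by linarith [hs'.1])
      linarith
    · intro y
      simp [T_of_nonpos]
    · intro s hs' y _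
      have pc : PDE (fun (s : ℝ) (_ : E) => ε * (s - t)) s y ε := by
        refine ⟨ε, 0, ?_, ⟨fun _ => 0, fun i => ⟨fun _ => 0, fun r => hasDerivAt_const _ _,
          hasDerivAt_const _ _⟩, by simp⟩, by ring⟩
        simpa using ((hasDerivAt_id s).sub_const t).const_mul ε
      refine ⟨_, ((hPDE s hs' y).sub (hs.pde s hs' y)).add pc, ?_⟩
      have := (abs_le.1 (hsrc s hs' y)).1
      rw [zero_mul]
      linarith

/-- Semigroup law. -/
theorem T_semigroup {g : E → ℝ} {M : ℝ} (hg : Continuous g) (hb : ∀ x, |g x| ≤ M) {s t : ℝ}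
    (hs : 0 ≤ s) (ht : 0 ≤ t) (x : E) : T s (T t g) x = T (s + t) g x := by
  have hgm : BM g M := ⟨hg.measurable, hb⟩
  have hM : 0 ≤ M := (abs_nonneg _).trans (hb 0)
  have hTc : Continuous (T t g) := by
    have h1 : Continuous (fun y : E => ((t, y) : ℝ × E)) := by fun_prop
    exact (continuous_T hg hb).comp h1
  have hTb : ∀ y, |T t g y| ≤ M := fun y => T_abs_le hgm t y
  have hTm : BM (T t g) M := ⟨hTc.measurable, hTb⟩
  have hc1 : ContinuousOn (fun p : ℝ × E => T p.1 (T t g) p.2) (Icc 0 s ×ˢ univ) :=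
    (continuous_T hTc hTb).continuousOn
  have hc2 : ContinuousOn (fun p : ℝ × E => T (p.1 + t) g p.2) (Icc 0 s ×ˢ univ) := by
    have := continuousOn_T_sub hg hb (-t) (Icc 0 s ×ˢ univ)
    simpa using this
  have hp1 : ∀ r ∈ Ioc 0 s, ∀ y, PDE (fun r y => T r (T t g) y) r y 0 := fun r hr y =>
    PDE_T hTm hr.1 y
  have hp2 : ∀ r ∈ Ioc 0 s, ∀ y, PDE (fun r y => T (r + t) g y) r y 0 := fun r hr y => by
    have := PDE_T' hgm (t0 := -t) (t := r) (by linarith [hr.1]) y
    simpa using this
  apply le_antisymm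
  · have key := comparison (t0 := 0) (T := s) (K := 0) (M := 2 * M)
      (w := fun r y => T (r + t) g y - T r (T t g) y) (hc2.sub hc1) ?_ ?_ ?_ s
      (right_mem_Icc.2 hs) x
    · linarith
    · intro r _ y
      have b1 := (abs_le.1 (T_abs_le hgm (r + t) y)).1
      have b2 := (abs_le.1 (T_abs_le hTm r y)).2
      linarith
    · intro y
      simp [T_of_nonpos]
    · intro r hr y _
      exact ⟨_, (hp2 r hr y).sub (hp1 r hr y), by simp⟩
  · have key := comparison (t0 := 0) (T := s) (K := 0) (M := 2 * M)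
      (w := fun r y => T r (T t g) y - T (r + t) g y) (hc1.sub hc2) ?_ ?_ ?_ s
      (right_mem_Icc.2 hs) x
    · linarith
    · intro r _ y
      have b1 := (abs_le.1 (T_abs_le hgm (r + t) y)).2
      have b2 := (abs_le.1 (T_abs_le hTm r y)).1
      linarith
    · intro y
      simp [T_of_nonpos]
    · intro r hr y _
      exact ⟨_, (hp1 r hr y).sub (hp2 r hr y), by simp⟩

end Pool.Agent.H29.KPP
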