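import Pool.Agent.H29.KPP.C2
import Pool.Agent.H29.KPP.Defs

/-!
From the definitions to the abstract theorem.
-/

open MeasureTheory Set Filter Topology Metric
open scoped RealInnerProductSpace ENNReal

namespace Pool.Agent.H29.KPP

lemma IsFisherKPP.nl {f : ℝ → ℝ} (hf : IsFisherKPP f) : ∃ L, NL f L := by
  obtain ⟨K, hK⟩ := hf.contDiffOn.exists_lipschitzOnWith one_ne_zero (convex_Icc 0 1) isCompact_Icc
  refine ⟨K, K.2, hf.zero, fun a ha => ?_, fun a ha b hb => ?_, fun ϑ hϑ a ha => ?_⟩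
  · rcases eq_or_lt_of_le ha.1 with h | h
    · rw [← h, hf.zero]
    · rcases eq_or_lt_of_le ha.2 with h' | h'
      · rw [h', hf.one]
      · exact (hf.pos a ⟨h, h'⟩).le
  · have := hK.dist_le_mul a ha b hb
    rwa [Real.dist_eq, Real.dist_eq] at this
  · rcases eq_or_lt_of_le ha.1 with h | h
    · rw [← h, hf.zero, mul_zero, hf.zero]
    · rcases eq_or_lt_of_le hϑ.1 with h' | h'
      · rw [← h', zero_mul, zero_mul, hf.zero]
      · have h1 : ϑ * a ∈ Ioc (0:ℝ) 1 := ⟨by positivity, by nlinarith [hϑ.2, ha.2]⟩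
        have h2 := hf.anti h1 ⟨h, ha.2⟩ (by nlinarith [hϑ.2])
        simp only at h2
        rw [div_le_div_iff₀ h h1.1] at h2
        have h3 : a * (ϑ * f a) ≤ a * f (ϑ * a) := by nlinarith
        exact le_of_mul_le_mul_left h3 h

lemma hasD2_of_contDiff {E : Type*} [NormedAddCommGroup E] [InnerProductSpace ℝ E]
    {w : E → ℝ} (hw : ContDiff ℝ 2 w) (x b : E) :
    HasD2 (fun s : ℝ => w (x + s • b)) (iteratedFDeriv ℝ 2 w x ![b, b]) := by
  have hline : ∀ s : ℝ, HasDerivAt (fun s : ℝ => x + s • b) b s := fun s => by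
    simpa using ((hasDerivAt_id s).smul_const b).const_add x
  have hd : Differentiable ℝ w := hw.differentiable (by norm_num)
  have hd2 : Differentiable ℝ (fderiv ℝ w) :=
    (hw.fderiv_right (m := 1) (by norm_num)).differentiable (by norm_num)
  refine ⟨fun s => fderiv ℝ w (x + s • b) b, fun s => ?_, ?_⟩
  · exact (hd _).hasFDerivAt.comp_hasDerivAt s (hline s)
  · rw [iteratedFDeriv_two_apply]
    have h1 : HasDerivAt (fun s : ℝ => fderiv ℝ w (x + s • b))
        (fderiv ℝ (fderiv ℝ w) (x + (0:ℝ) • b) b) 0 :=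
      (hd2 _).hasFDerivAt.comp_hasDerivAt (0:ℝ) (hline 0)
    have h2 := h1.clm_apply (hasDerivAt_const (0:ℝ) b)
    simpa using h2

lemma IsSolution.sol {N : ℕ} {f : ℝ → ℝ} {U : Set (RN N)} {u : ℝ → RN N → ℝ}
    (h : IsSolution f U u) : Sol f u := by
  refine ⟨h.mem_Icc, h.continuousOn, fun t ht x => ?_⟩
  refine ⟨deriv (fun s => u s x) t, Laplacian.laplacian (u t) x,
    (h.differentiableAt t ht x).hasDerivAt, ?_, by rw [h.eqn t ht x]; ring⟩
  refine ⟨fun i => iteratedFDeriv ℝ 2 (u t) x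
    ![stdOrthonormalBasis ℝ (RN N) i, stdOrthonormalBasis ℝ (RN N) i],
    fun i => hasD2_of_contDiff (h.contDiff t ht) x _, ?_⟩
  rw [InnerProductSpace.laplacian_eq_iteratedFDeriv_stdOrthonormalBasis]

lemma IsSolution.hasTrace {N : ℕ} {f : ℝ → ℝ} {U : Set (RN N)} {u : ℝ → RN N → ℝ}
    (h : IsSolution f U u) (hU : NullMeasurableSet U) : HasTrace U u := by
  refine ⟨hU, fun K hK => ?_⟩
  have h1 := (ENNReal.tendsto_toReal ENNReal.zero_ne_top).comp (h.initial K hK)
  rw [ENNReal.toReal_zero] at h1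
  refine h1.congr' ?_
  filter_upwards [self_mem_nhdsWithin] with t ht
  have ht' : 0 < t := ht
  simp only [Function.comp]
  rw [eLpNorm_one_eq_lintegral_enorm]
  have h2 : AEStronglyMeasurable (fun x => u t x - U.indicator (fun _ => (1:ℝ)) x)
      (volume.restrict K) := by
    have c1 : AEStronglyMeasurable (U.indicator (fun _ => (1:ℝ)) : RN N → ℝ) :=
      aestronglyMeasurable_const.indicator₀ hU
    exact (((h.sol).continuous_at ht').aestronglyMeasurable.sub c1).restrict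
  rw [← integral_norm_eq_lintegral_enorm h2]
  rfl

/-- The geometric covering property. -/
lemma ball_subset_of_mem_innerSet {N : ℕ} {U : Set (RN N)} {δ : ℝ} {z : RN N}
    (hz : z ∈ innerSet U δ) : ball z δ ⊆ U := by
  intro p hp
  by_contra hpU
  have hseg : IsPreconnected (segment ℝ z p) := (convex_segment z p).isPreconnected
  have hdisj : ∀ q ∈ segment ℝ z p, q ∉ frontier U := by
    intro q hq hqf
    have h1 : infEDist z (frontier U) ≤ edist z q := infEDist_le_edist_of_mem hqf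
    have h2 : ENNReal.ofReal δ ≤ edist z q := hz.2.trans h1
    have h3 : dist z q ≤ dist z p := by
      obtain ⟨a, b, ha, hb, hab, rfl⟩ := hq
      have e : z - (a • z + b • p) = b • (z - p) := by
        have : a = 1 - b := by linarith
        rw [this]; module
      rw [dist_eq_norm, dist_eq_norm, e, norm_smul, Real.norm_of_nonneg hb]
      have : b ≤ 1 := by linarith
      nlinarith [norm_nonneg (z - p)]
    have h4 : dist z q < δ := lt_of_le_of_lt h3 (by rw [dist_comm]; exact hp)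
    rw [edist_dist] at h2
    have h5 : 0 < δ := lt_of_le_of_lt dist_nonneg h4
    have h6 := (ENNReal.ofReal_le_ofReal_iff dist_nonneg).1 h2
    linarith
  have hcover : segment ℝ z p ⊆ interior U ∪ (closure U)ᶜ := by
    intro q hq
    by_cases hqc : q ∈ closure U
    · left
      by_contra hqi
      exact hdisj q hq ⟨hqc, hqi⟩
    · right; exact hqc
  have hz1 : z ∈ segment ℝ z p := left_mem_segment ℝ z p
  have hp1 : p ∈ segment ℝ z p := right_mem_segment ℝ z p
  have hzi : z ∈ interior U := by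
    rcases hcover hz1 with h | h
    · exact h
    · exact absurd (subset_closure hz.1) h
  have hpe : p ∈ (closure U)ᶜ := by
    rcases hcover hp1 with h | h
    · exact absurd (interior_subset h) hpU
    · exact h
  obtain ⟨q, _, hq1, hq2⟩ := hseg (interior U) (closure U)ᶜ isOpen_interior
    isClosed_closure.isOpen_compl hcover ⟨z, hz1, hzi⟩ ⟨p, hp1, hpe⟩
  exact hq2 (subset_closure (interior_subset hq1))

lemma covering {N : ℕ} {U U' : Set (RN N)} (hH : CondH U') (hd : hausdorffEDist U U' < ⊤) :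
    ∃ R δ : ℝ, 0 < δ ∧ 0 ≤ R ∧ ∀ x ∈ U, ∃ z, dist x z ≤ R ∧ ball z δ ⊆ U' := by
  obtain ⟨δ, hδ, hδ'⟩ := hH
  set d1 := hausdorffEDist U U'
  set d2 := hausdorffEDist U' (innerSet U' δ)
  refine ⟨(d1 + 1 + (d2 + 1)).toReal, δ, hδ, ENNReal.toReal_nonneg, fun x hx => ?_⟩
  have hlt1 : d1 < d1 + 1 := ENNReal.lt_add_right hd.ne one_ne_zero
  have hlt2 : d2 < d2 + 1 := ENNReal.lt_add_right hδ'.ne one_ne_zero
  obtain ⟨y, hy, hxy⟩ := exists_edist_lt_of_hausdorffEDist_lt hx hlt1
  obtain ⟨z, hz, hyz⟩ := exists_edist_lt_of_hausdorffEDist_lt hy hlt2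
  refine ⟨z, ?_, ball_subset_of_mem_innerSet hz⟩
  have h1 : edist x z ≤ d1 + 1 + (d2 + 1) :=
    (edist_triangle x y z).trans (add_le_add hxy.le hyz.le)
  have hfin : d1 + 1 + (d2 + 1) ≠ ⊤ := by
    simp [ENNReal.add_eq_top, hd.ne, hδ'.ne]
  rw [dist_edist]
  exact ENNReal.toReal_mono hfin h1

lemma tendsto_eLpNorm_top {N : ℕ} {g : ℕ → RN N → ℝ} {g' : RN N → ℝ}
    (h : TendstoLocallyUniformly g g' atTop) (K : Set (RN N)) (hK : IsCompact K) :
    Tendsto (fun n => eLpNorm (fun y => g n y - g' y) ⊤ (volume.restrict K)) atTop (𝓝 0) := by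
  rw [tendstoLocallyUniformly_iff_forall_isCompact] at h
  have h1 := h K hK
  rw [Metric.tendstoUniformlyOn_iff] at h1
  rw [ENNReal.tendsto_nhds_zero]
  intro ε hε
  rcases eq_or_ne ε ⊤ with rfl | hεt
  · exact Filter.Eventually.of_forall fun n => le_top
  have hε' : 0 < ε.toReal := ENNReal.toReal_pos hε.ne' hεt
  filter_upwards [h1 ε.toReal hε'] with n hn
  rw [eLpNorm_exponent_top]
  have h2 : ∀ᵐ y ∂(volume.restrict K), ‖g n y - g' y‖ ≤ ε.toReal := by
    filter_upwards [ae_restrict_mem hK.measurableSet] with y hy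
    have := hn y hy
    rw [dist_comm, dist_eq_norm] at this
    exact this.le
  refine (eLpNormEssSup_le_of_ae_bound h2).trans ?_
  rw [ENNReal.ofReal_toReal hεt]

lemma memOmega_of_lu {N : ℕ} {u : ℝ → RN N → ℝ} {t : ℕ → ℝ} {p : ℕ → RN N}
    (ht : Tendsto t atTop atTop) {v : RN N → ℝ} (hv : Continuous v) (hb : ∀ x, |v x| ≤ 1)
    (h : TendstoLocallyUniformly (fun n y => u (t n) (p n + y)) v atTop) : MemOmega u v :=
  ⟨memLp_top_of_bound hv.aestronglyMeasurable 1 (Filter.Eventually.of_forall hb), t, p, ht,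
    fun K hK => tendsto_eLpNorm_top h K hK⟩

lemma ae_eq_of_two_limits {N : ℕ} {g : ℕ → RN N → ℝ} {a ψ : RN N → ℝ}
    (h1 : ∀ K : Set (RN N), IsCompact K →
      Tendsto (fun n => eLpNorm (fun y => g n y - a y) ⊤ (volume.restrict K)) atTop (𝓝 0))
    (h2 : ∀ K : Set (RN N), IsCompact K →
      Tendsto (fun n => eLpNorm (fun y => g n y - ψ y) ⊤ (volume.restrict K)) atTop (𝓝 0)) :
    ψ =ᵐ[volume] a := by
  have hK : ∀ K : Set (RN N), IsCompact K → ψ =ᵐ[volume.restrict K] a := by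
    intro K hK
    have h3 : ∀ n, eLpNormEssSup (fun y => ψ y - a y) (volume.restrict K) ≤
        eLpNorm (fun y => g n y - a y) ⊤ (volume.restrict K) +
          eLpNorm (fun y => g n y - ψ y) ⊤ (volume.restrict K) := by
      intro n
      have e1 : (fun y => ψ y - a y) = (fun y => g n y - a y) + (fun y => -(g n y - ψ y)) := by
        funext y; simp
      rw [e1]
      refine eLpNormEssSup_add_le.trans ?_
      rw [← eLpNorm_exponent_top, ← eLpNorm_exponent_top]
      have e2 : (fun y => -(g n y - ψ y)) = -(fun y => g n y - ψ y) := rfl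
      rw [e2, eLpNorm_neg]
    have h4 := (h1 K hK).add (h2 K hK)
    rw [add_zero] at h4
    have h5 : eLpNormEssSup (fun y => ψ y - a y) (volume.restrict K) = 0 :=
      le_antisymm (ge_of_tendsto' h4 h3) bot_le
    rw [eLpNormEssSup_eq_zero_iff] at h5
    filter_upwards [h5] with y hy
    have : ψ y - a y = 0 := hy
    linarith
  have h6 : ∀ n : ℕ, ∀ᵐ y ∂(volume : Measure (RN N)), y ∈ closedBall (0 : RN N) n → ψ y = a y :=
    fun n => (ae_restrict_iff' measurableSet_closedBall).1 (hK _ (isCompact_closedBall _ _))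
  filter_upwards [ae_all_iff.2 h6] with y hy
  obtain ⟨n, hn⟩ := exists_nat_ge ‖y‖
  exact hy n (by simpa using hn)

theorem main {N : ℕ} {f : ℝ → ℝ} (hf : IsFisherKPP f) {U U' : Set (RN N)}
    (hU : NullMeasurableSet U) (hU' : NullMeasurableSet U') (hH : CondH U) (hH' : CondH U')
    (hd : hausdorffEDist U U' < ⊤) {u u' : ℝ → RN N → ℝ} (hu : IsSolution f U u)
    (hu' : IsSolution f U' u') (hp : IsAsympLocallyPlanar u) : IsAsympLocallyPlanar u' := by
  obtain ⟨L, hL⟩ := hf.nl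
  have hs := hu.sol
  have hs' := hu'.sol
  obtain ⟨R, δ, hδ, hR, hcov⟩ := covering hH' hd
  obtain ⟨R', δ', hδ', hR', hcov'⟩ := covering hH (by rwa [hausdorffEDist_comm])
  obtain ⟨η1, hη1, hc1⟩ := compare_solutions hL hs hs' (hu.hasTrace hU) (hu'.hasTrace hU') hδ hR hcov
  obtain ⟨η2, hη2, hc2⟩ := compare_solutions hL hs' hs (hu'.hasTrace hU') (hu.hasTrace hU) hδ' hR'
    hcov'
  set η := min η1 η2
  have hη : 0 < η := lt_min hη1.1 hη2.1
  intro ψ hψ
  obtain ⟨_, t, p, ht, hlim⟩ := hψ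
  obtain ⟨φ1, a, hφ1, hac, hau⟩ := exists_entire hL hs' ht p
  have ht1 : Tendsto (fun n => t (φ1 n)) atTop atTop := ht.comp hφ1.tendsto_atTop
  obtain ⟨φ2, v, hφ2, hvc, hvu⟩ := exists_entire hL hs ht1 (fun n => p (φ1 n))
  have ht2 : Tendsto (fun n => t (φ1 (φ2 n))) atTop atTop := ht1.comp hφ2.tendsto_atTop
  have hau2 : ∀ s, TendstoLocallyUniformly
      (fun n y => u' (t (φ1 (φ2 n)) + s) (p (φ1 (φ2 n)) + y)) (a s) atTop :=
    fun s => TLU_subseq (hau s) hφ2
  have hla : ∀ s y, Tendsto (fun n => u' (t (φ1 (φ2 n)) + s) (p (φ1 (φ2 n)) + y)) atTop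
      (𝓝 (a s y)) := fun s y => tendsto_of_lu (hau2 s) y
  have hlv : ∀ s y, Tendsto (fun n => u (t (φ1 (φ2 n)) + s) (p (φ1 (φ2 n)) + y)) atTop
      (𝓝 (v s y)) := fun s y => tendsto_of_lu (hvu s) y
  have hEa := ent_of_limit hL hs' ht2 hac hla
  have hEv := ent_of_limit hL hs ht2 hvc hlv
  have hEul := euler_of_limit hL hs' ht2 hla
  have hpos : ∀ s : ℝ, ∀ᶠ n in atTop, 0 < t (φ1 (φ2 n)) + s := by
    intro s
    filter_upwards [ht2.eventually_gt_atTop (-s)] with n hn
    linarith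
  have k1 : ∀ s y, η * v s y ≤ a (s + 1) y := by
    intro s y
    refine le_of_tendsto_of_tendsto ((hlv s y).const_mul η) (hla (s + 1) y) ?_
    filter_upwards [hpos s] with n hn
    have h1 := hc1 _ hn (p (φ1 (φ2 n)) + y)
    have h2 := (hs.range _ hn (p (φ1 (φ2 n)) + y)).1
    have h3 : η ≤ η1 := min_le_left _ _
    rw [add_assoc] at h1
    nlinarith
  have k2 : ∀ s y, η * a s y ≤ v (s + 1) y := by
    intro s y
    refine le_of_tendsto_of_tendsto ((hla s y).const_mul η) (hlv (s + 1) y) ?_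
    filter_upwards [hpos s] with n hn
    have h1 := hc2 _ hn (p (φ1 (φ2 n)) + y)
    have h2 := (hs'.range _ hn (p (φ1 (φ2 n)) + y)).1
    have h3 : η ≤ η2 := min_le_right _ _
    rw [add_assoc] at h1
    nlinarith
  have hvp : ∀ s, ∃ e : RN N, ‖e‖ = 1 ∧ ∀ x h, ⟪h, e⟫ = 0 → v s (x + h) = v s x := by
    intro s
    have hts : Tendsto (fun n => t (φ1 (φ2 n)) + s) atTop atTop :=
      tendsto_atTop_add_const_right _ s ht2
    obtain ⟨Ψ, e, hΨ, he, hae⟩ := hp (v s) (memOmega_of_lu hts (hEv.cont_at s)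
      (hEv.bm s).bd (hvu s))
    have heq : v s = fun x => Ψ ⟪x, e⟫ := by
      apply Continuous.ae_eq_iff_eq volume (hEv.cont_at s) _ |>.1 hae
      exact hΨ.continuous.comp (by fun_prop)
    refine ⟨e, he, fun x h hh => ?_⟩
    rw [heq]
    simp only [inner_add_left, hh, add_zero]
  obtain ⟨e, he, hap⟩ := planar_of_compare hL.L0 hEa hEv hη k1 k2 hvp
  refine ⟨fun r => a 0 (0 + r • e), e, contDiff_dir hL hf.contDiffOn hEa hEul he 0 0, he, ?_⟩
  have h1 : ψ =ᵐ[volume] a 0 := by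
    apply ae_eq_of_two_limits (g := fun n y => u' (t (φ1 (φ2 n)) + 0) (p (φ1 (φ2 n)) + y))
    · exact fun K hK => tendsto_eLpNorm_top (hau2 0) K hK
    · intro K hK
      simp only [add_zero]
      exact (hlim K hK).comp (hφ1.comp hφ2).tendsto_atTop
  filter_upwards [h1] with x hx
  rw [hx, zero_add]
  have h2 := hap 0 (⟪x, e⟫ • e) (x - ⟪x, e⟫ • e) (by
    rw [inner_sub_left, inner_smul_left, real_inner_self_eq_norm_sq, he]; simp)
  rw [add_sub_cancel] at h2
  exact h2

end Pool.Agent.H29.KPP
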