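import Pool.Agent.H29.KPP.Compare

/-!
The heat kernel and the heat semigroup on a finite-dimensional inner product space.
-/

open MeasureTheory Set Filter Topology Metric
open scoped RealInnerProductSpace ENNReal

set_option linter.unusedSectionVars false

namespace Pool.Agent.H29.KPP

variable {E : Type*} [NormedAddCommGroup E] [InnerProductSpace ℝ E] [FiniteDimensional ℝ E]
  [MeasurableSpace E] [BorelSpace E]

/-- The heat kernel `(4πσ)^(-n/2) exp(-|z|²/(4σ))`. -/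
noncomputable def G (σ : ℝ) (z : E) : ℝ :=
  (4 * Real.pi * σ) ^ (-((Module.finrank ℝ E : ℕ) : ℝ) / 2) * Real.exp (-‖z‖ ^ 2 / (4 * σ))

/-- The heat semigroup, in a form that makes sense for `σ ≤ 0` too (where it is the identity). -/
noncomputable def T (σ : ℝ) (g : E → ℝ) (x : E) : ℝ :=
  ∫ z, G 1 z * g (x - Real.sqrt σ • z)

lemma G_pos {σ : ℝ} (hσ : 0 < σ) (z : E) : 0 < G σ z := by
  unfold G
  have := Real.pi_pos
  positivity

lemma G_nonneg {σ : ℝ} (hσ : 0 < σ) (z : E) : 0 ≤ G σ z := (G_pos hσ z).le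

lemma continuous_G (σ : ℝ) : Continuous (fun z : E => G σ z) := by
  unfold G
  fun_prop

lemma integrable_gauss {c : ℝ} (hc : 0 < c) : Integrable (fun z : E => Real.exp (-c * ‖z‖ ^ 2)) := by
  have h := GaussianFourier.integrable_cexp_neg_mul_sq_norm_add (V := E) (b := (c : ℂ))
    (by simpa using hc) 0 0
  have h2 := h.norm
  refine h2.congr (Filter.Eventually.of_forall fun z => ?_)
  have h3 : (-(c : ℂ) * (‖z‖ : ℂ) ^ 2 + 0 * ((⟪(0 : E), z⟫ : ℝ) : ℂ)) =
      ((-c * ‖z‖ ^ 2 : ℝ) : ℂ) := by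
    push_cast; ring
  simp only [h3]
  rw [← Complex.ofReal_exp, Complex.norm_real, Real.norm_of_nonneg (Real.exp_pos _).le]

lemma integrable_gauss_sub {c : ℝ} (hc : 0 < c) (x : E) :
    Integrable (fun y : E => Real.exp (-c * ‖x - y‖ ^ 2)) :=
  (integrable_gauss hc).comp_sub_left x

lemma G_eq_gauss {σ : ℝ} (z : E) :
    G σ z = (4 * Real.pi * σ) ^ (-((Module.finrank ℝ E : ℕ) : ℝ) / 2) *
      Real.exp (-(1 / (4 * σ)) * ‖z‖ ^ 2) := by
  unfold G
  congr 2
  ring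

lemma integrable_G {σ : ℝ} (hσ : 0 < σ) : Integrable (fun z : E => G σ z) := by
  have : (fun z : E => G σ z) = fun z => (4 * Real.pi * σ) ^
      (-((Module.finrank ℝ E : ℕ) : ℝ) / 2) * Real.exp (-(1 / (4 * σ)) * ‖z‖ ^ 2) := by
    funext z; exact G_eq_gauss z
  rw [this]
  exact (integrable_gauss (by positivity)).const_mul _

lemma integral_G {σ : ℝ} (hσ : 0 < σ) : ∫ z : E, G σ z = 1 := by
  simp_rw [G_eq_gauss]
  rw [integral_const_mul, GaussianFourier.integral_rexp_neg_mul_sq_norm (by positivity)]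
  have h1 : Real.pi / (1 / (4 * σ)) = 4 * Real.pi * σ := by field_simp
  rw [h1, ← Real.rpow_add (by have := Real.pi_pos; positivity)]
  rw [show (-((Module.finrank ℝ E : ℕ) : ℝ) / 2 + ((Module.finrank ℝ E : ℕ) : ℝ) / 2) = 0 by ring]
  exact Real.rpow_zero _

lemma T_eq {σ : ℝ} (hσ : 0 < σ) (g : E → ℝ) (x : E) :
    T σ g x = ∫ y, G σ (x - y) * g y := by
  have hs : 0 < Real.sqrt σ := Real.sqrt_pos.2 hσ
  have h1 : ∫ y, G σ (x - y) * g y = ∫ y, G σ y * g (x - y) := by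
    rw [← integral_sub_left_eq_self (fun y => G σ y * g (x - y)) volume x]
    simp
  rw [h1]
  have h2 := Measure.integral_comp_smul (volume : Measure E)
    (fun y => G σ y * g (x - y)) (Real.sqrt σ)
  have h3 : ∀ z : E, G σ (Real.sqrt σ • z) =
      σ ^ (-((Module.finrank ℝ E : ℕ) : ℝ) / 2) * G 1 z := by
    intro z
    unfold G
    rw [norm_smul, Real.norm_of_nonneg hs.le, mul_pow, Real.sq_sqrt hσ.le]
    have e1 : -(σ * ‖z‖ ^ 2) / (4 * σ) = -‖z‖ ^ 2 / (4 * 1) := by field_simp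
    rw [e1, mul_one, Real.mul_rpow (by have := Real.pi_pos; positivity) hσ.le]
    ring
  simp only [h3] at h2
  have h4 : ∫ (x_1 : E), σ ^ (-((Module.finrank ℝ E : ℕ) : ℝ) / 2) * G 1 x_1 *
      g (x - Real.sqrt σ • x_1) = σ ^ (-((Module.finrank ℝ E : ℕ) : ℝ) / 2) * T σ g x := by
    unfold T
    rw [← integral_const_mul]
    congr 1
    funext z
    ring
  rw [h4] at h2
  have h5 : |((Real.sqrt σ) ^ (Module.finrank ℝ E))⁻¹| =
      σ ^ (-((Module.finrank ℝ E : ℕ) : ℝ) / 2) := by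
    rw [abs_of_pos (by positivity), ← Real.rpow_natCast, Real.sqrt_eq_rpow,
      ← Real.rpow_mul hσ.le, ← Real.rpow_neg hσ.le]
    congr 1
    ring
  rw [h5, smul_eq_mul] at h2
  have h6 : σ ^ (-((Module.finrank ℝ E : ℕ) : ℝ) / 2) ≠ 0 := (Real.rpow_pos_of_pos hσ _).ne'
  exact mul_left_cancel₀ h6 h2

lemma T_of_nonpos {σ : ℝ} (hσ : σ ≤ 0) (g : E → ℝ) (x : E) : T σ g x = g x := by
  unfold T
  rw [Real.sqrt_eq_zero_of_nonpos hσ]
  simp only [zero_smul, sub_zero]
  rw [integral_mul_const, integral_G one_pos, one_mul]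

lemma T_const (σ c : ℝ) (x : E) : T σ (fun _ => c) x = c := by
  unfold T
  rw [integral_mul_const, integral_G one_pos, one_mul]

/-- Bounded measurable functions. -/
structure BM (g : E → ℝ) (M : ℝ) : Prop where
  meas : Measurable g
  bd : ∀ x, |g x| ≤ M

lemma BM.integrand {g : E → ℝ} {M : ℝ} (hg : BM g M) (σ : ℝ) (x : E) :
    Integrable (fun z => G 1 z * g (x - Real.sqrt σ • z)) := by
  refine (integrable_G one_pos).mul_bdd (c := M) ?_ ?_
  · apply Measurable.aestronglyMeasurable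
    exact hg.meas.comp (by fun_prop)
  · exact Filter.Eventually.of_forall fun z => hg.bd _

lemma BM.kernel {g : E → ℝ} {M : ℝ} (hg : BM g M) {σ : ℝ} (hσ : 0 < σ) (x : E) :
    Integrable (fun y => G σ (x - y) * g y) := by
  refine ((integrable_G hσ).comp_sub_left x).mul_bdd (c := M) ?_ ?_
  · exact hg.meas.aestronglyMeasurable
  · exact Filter.Eventually.of_forall fun z => hg.bd _

lemma T_mono {g h : E → ℝ} {M M' : ℝ} (hg : BM g M) (hh : BM h M') (hle : ∀ x, g x ≤ h x)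
    (σ : ℝ) (x : E) : T σ g x ≤ T σ h x := by
  unfold T
  apply integral_mono (hg.integrand σ x) (hh.integrand σ x)
  intro z
  exact mul_le_mul_of_nonneg_left (hle _) (G_nonneg one_pos z)

lemma T_nonneg {g : E → ℝ} (hle : ∀ x, 0 ≤ g x) (σ : ℝ) (x : E) : 0 ≤ T σ g x := by
  unfold T
  exact integral_nonneg fun z => mul_nonneg (G_nonneg one_pos z) (hle _)

lemma BM.const (c : ℝ) : BM (fun _ : E => c) |c| := ⟨measurable_const, fun _ => le_rfl⟩

lemma T_abs_le {g : E → ℝ} {M : ℝ} (hg : BM g M) (σ : ℝ) (x : E) : |T σ g x| ≤ M := by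
  rw [abs_le]
  constructor
  · rw [← T_const σ (-M) x]
    exact T_mono (BM.const _) hg (fun y => (abs_le.1 (hg.bd y)).1) σ x
  · rw [← T_const σ M x]
    exact T_mono hg (BM.const _) (fun y => (abs_le.1 (hg.bd y)).2) σ x

lemma T_sub {g h : E → ℝ} {M M' : ℝ} (hg : BM g M) (hh : BM h M')
    (σ : ℝ) (x : E) : T σ (fun y => g y - h y) x = T σ g x - T σ h x := by
  unfold T
  rw [← integral_sub (hg.integrand σ x) (hh.integrand σ x)]
  congr 1
  funext z
  ring

lemma T_const_mul (c : ℝ) (g : E → ℝ) (σ : ℝ) (x : E) :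
    T σ (fun y => c * g y) x = c * T σ g x := by
  unfold T
  rw [← integral_const_mul]
  congr 1
  funext z
  ring

lemma T_shift (g : E → ℝ) (σ : ℝ) (x h : E) : T σ (fun y => g (y + h)) x = T σ g (x + h) := by
  unfold T
  congr 1
  funext z
  congr 2
  abel

/-- Joint continuity of the heat semigroup applied to a bounded continuous function. -/
lemma continuous_T {g : E → ℝ} {M : ℝ} (hg : Continuous g) (hb : ∀ x, |g x| ≤ M) :
    Continuous (fun p : ℝ × E => T p.1 g p.2) := by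
  unfold T
  apply continuous_of_dominated (bound := fun z => G 1 z * M)
  · intro p
    exact ((BM.mk hg.measurable hb).integrand p.1 p.2).aestronglyMeasurable
  · intro p
    refine Filter.Eventually.of_forall fun z => ?_
    rw [norm_mul, Real.norm_of_nonneg (G_nonneg one_pos z)]
    exact mul_le_mul_of_nonneg_left (hb _) (G_nonneg one_pos z)
  · exact (integrable_G one_pos).mul_const M
  · refine Filter.Eventually.of_forall fun z => ?_
    apply Continuous.mul continuous_const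
    apply hg.comp
    fun_prop

/-- Kernel comparison. -/
lemma G_compare {σ τ : ℝ} (hσ : 0 < σ) (hτ : 0 < τ) (p q : E) :
    G σ q ≤ ((σ + τ) / σ) ^ (((Module.finrank ℝ E : ℕ) : ℝ) / 2) *
      Real.exp (‖p‖ ^ 2 / (4 * τ)) * G (σ + τ) (p + q) := by
  have hpi := Real.pi_pos
  have h1 : (4 * Real.pi * σ) ^ (-((Module.finrank ℝ E : ℕ) : ℝ) / 2) =
      ((σ + τ) / σ) ^ (((Module.finrank ℝ E : ℕ) : ℝ) / 2) *
        (4 * Real.pi * (σ + τ)) ^ (-((Module.finrank ℝ E : ℕ) : ℝ) / 2) := by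
    have e1 : (4 * Real.pi * σ) ^ (((Module.finrank ℝ E : ℕ) : ℝ) / 2) =
        (4 * Real.pi) ^ (((Module.finrank ℝ E : ℕ) : ℝ) / 2) *
          σ ^ (((Module.finrank ℝ E : ℕ) : ℝ) / 2) := Real.mul_rpow (by positivity) (by positivity)
    have e2 : (4 * Real.pi * (σ + τ)) ^ (((Module.finrank ℝ E : ℕ) : ℝ) / 2) =
        (4 * Real.pi) ^ (((Module.finrank ℝ E : ℕ) : ℝ) / 2) *
          (σ + τ) ^ (((Module.finrank ℝ E : ℕ) : ℝ) / 2) :=
      Real.mul_rpow (by positivity) (by positivity)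
    rw [neg_div, Real.rpow_neg (by positivity), Real.rpow_neg (by positivity),
      Real.div_rpow (by positivity) (by positivity), e1, e2]
    have f1 : (4 * Real.pi) ^ (((Module.finrank ℝ E : ℕ) : ℝ) / 2) ≠ 0 := by positivity
    have f2 : σ ^ (((Module.finrank ℝ E : ℕ) : ℝ) / 2) ≠ 0 := by positivity
    have f3 : (σ + τ) ^ (((Module.finrank ℝ E : ℕ) : ℝ) / 2) ≠ 0 := by positivity
    field_simp
  have h2 : -‖q‖ ^ 2 / (4 * σ) ≤ ‖p‖ ^ 2 / (4 * τ) + -‖p + q‖ ^ 2 / (4 * (σ + τ)) := by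
    have h3 : ‖p + q‖ ^ 2 ≤ (‖p‖ + ‖q‖) ^ 2 := by
      gcongr; exact norm_add_le p q
    have h4 : (‖p‖ + ‖q‖) ^ 2 / (4 * (σ + τ)) ≤ ‖p‖ ^ 2 / (4 * τ) + ‖q‖ ^ 2 / (4 * σ) := by
      rw [div_add_div _ _ (by positivity) (by positivity), div_le_div_iff₀ (by positivity)
        (by positivity)]
      nlinarith [sq_nonneg (σ * ‖p‖ - τ * ‖q‖)]
    have h5 : ‖p + q‖ ^ 2 / (4 * (σ + τ)) ≤ (‖p‖ + ‖q‖) ^ 2 / (4 * (σ + τ)) := by
      gcongr
    rw [neg_div, neg_div]
    linarith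
  unfold G
  rw [h1]
  calc _ ≤ ((σ + τ) / σ) ^ (((Module.finrank ℝ E : ℕ) : ℝ) / 2) *
        (4 * Real.pi * (σ + τ)) ^ (-((Module.finrank ℝ E : ℕ) : ℝ) / 2) *
        Real.exp (‖p‖ ^ 2 / (4 * τ) + -‖p + q‖ ^ 2 / (4 * (σ + τ))) := by
        gcongr
    _ = _ := by rw [Real.exp_add]; ring

/-- The constant of the kernel comparison. -/
noncomputable def HC (E : Type*) [NormedAddCommGroup E] [InnerProductSpace ℝ E]
    (σ τ d : ℝ) : ℝ :=
  ((σ + τ) / σ) ^ (((Module.finrank ℝ E : ℕ) : ℝ) / 2) * Real.exp (d ^ 2 / (4 * τ))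

lemma HC_pos {σ τ : ℝ} (hσ : 0 < σ) (hτ : 0 < τ) (d : ℝ) : 0 < HC E σ τ d := by
  unfold HC; positivity

/-- Kernel Harnack inequality. -/
lemma T_harnack {g : E → ℝ} {M : ℝ} (hg : BM g M) (h0 : ∀ x, 0 ≤ g x) {σ τ : ℝ} (hσ : 0 < σ)
    (hτ : 0 < τ) (x x' : E) :
    T σ g x' ≤ HC E σ τ ‖x - x'‖ * T (σ + τ) g x := by
  rw [T_eq hσ, T_eq (by linarith), ← integral_const_mul]
  apply integral_mono (hg.kernel hσ x')
    ((hg.kernel (σ := σ + τ) (by linarith) x).const_mul _)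
  intro y
  have h1 := G_compare hσ hτ (x - x') (x' - y)
  rw [sub_add_sub_cancel] at h1
  have h2 := mul_le_mul_of_nonneg_right h1 (h0 y)
  simp only [HC]
  calc G σ (x' - y) * g y ≤ _ := h2
    _ = _ := by ring

end Pool.Agent.H29.KPP
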