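import Pool.Agent.H29.KPP.Entire

/-!
The abstract main theorem: an entire limit that is comparable with a planar one is planar.
-/

open MeasureTheory Set Filter Topology Metric
open scoped RealInnerProductSpace ENNReal

set_option linter.unusedSectionVars false

namespace Pool.Agent.H29.KPP

variable {E : Type*} [NormedAddCommGroup E] [InnerProductSpace ℝ E] [FiniteDimensional ℝ E]
  [MeasurableSpace E] [BorelSpace E]

lemma Ent.forward {L : ℝ} {v : ℝ → E → ℝ} (hv : Ent L v) {t0 t : ℝ} {h : E}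
    (hp : ∀ x, v t0 (x + h) = v t0 x) (ht : t0 ≤ t) (x : E) : v t (x + h) = v t x := by
  have key : ∀ k : E, (∀ x, v t0 (x + k) = v t0 x) → ∀ x, v t (x + k) ≤ v t x := by
    intro k hk x
    have h1 := hv.diff 1 (by simp) 0 k t x (t - t0) (by linarith)
    have e1 : ∀ y, v (t - (t - t0)) y - v (t - (t - t0)) (y + k) = 0 := by
      intro y
      rw [show t - (t - t0) = t0 by ring, hk y]; ring
    simp only [sub_zero, one_mul] at h1
    simp only [e1, neg_zero, max_self, T_const, mul_zero, sub_zero] at h1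
    linarith
  apply le_antisymm (key h hp x)
  have h2 := key (-h) (fun y => by
    have := hp (y + -h)
    rw [neg_add_cancel_right] at this
    exact this.symm) (x + h)
  rwa [add_neg_cancel_right] at h2

/-- A common direction for all times. -/
lemma Ent.common_direction {L : ℝ} {v : ℝ → E → ℝ} (hv : Ent L v)
    (hp : ∀ t, ∃ e : E, ‖e‖ = 1 ∧ ∀ x h, ⟪h, e⟫ = 0 → v t (x + h) = v t x) :
    ∃ e : E, ‖e‖ = 1 ∧ ∀ t x h, ⟪h, e⟫ = 0 → v t (x + h) = v t x := by
  set K : ℕ → Set E := fun n => sphere (0:E) 1 ∩ ⋂ (x : E), ⋂ (h : E),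
    {e : E | v (-(n:ℝ)) (x + (h - ⟪h, e⟫ • e)) = v (-(n:ℝ)) x} with hK
  have horth : ∀ (e : E), ‖e‖ = 1 → ∀ h : E, ⟪h - ⟪h, e⟫ • e, e⟫ = 0 := by
    intro e he h
    rw [inner_sub_left, inner_smul_left, real_inner_self_eq_norm_sq, he]
    simp
  have hmemK : ∀ n (e : E), e ∈ K n ↔ ‖e‖ = 1 ∧
      ∀ x h, ⟪h, e⟫ = 0 → v (-(n:ℝ)) (x + h) = v (-(n:ℝ)) x := by
    intro n e
    simp only [hK, mem_inter_iff, mem_sphere_zero_iff_norm, mem_iInter, mem_ofPred_eq]
    constructor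
    · rintro ⟨h1, h2⟩
      refine ⟨h1, fun x h hh => ?_⟩
      have := h2 x h
      rwa [hh, zero_smul, sub_zero] at this
    · rintro ⟨h1, h2⟩
      exact ⟨h1, fun x h => h2 x _ (horth e h1 h)⟩
  have hclosed : ∀ n, IsClosed (K n) := by
    intro n
    refine isClosed_sphere.inter (isClosed_iInter fun x => isClosed_iInter fun h => ?_)
    apply isClosed_eq _ continuous_const
    apply (hv.cont_at _).comp
    fun_prop
  have hne : (⋂ n, K n).Nonempty := by
    apply IsCompact.nonempty_iInter_of_sequence_nonempty_isCompact_isClosed K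
    · intro n e he
      rw [hmemK] at he ⊢
      refine ⟨he.1, fun x h hh => ?_⟩
      refine hv.forward (t0 := -((n+1 : ℕ):ℝ)) (fun y => he.2 y h hh) ?_ x
      push_cast; linarith
    · intro n
      obtain ⟨e, he, he'⟩ := hp (-(n:ℝ))
      exact ⟨e, (hmemK n e).2 ⟨he, he'⟩⟩
    · exact (isCompact_sphere (0:E) 1).of_isClosed_subset (hclosed 0) inter_subset_left
    · exact hclosed
  obtain ⟨e, he⟩ := hne
  rw [mem_iInter] at he
  refine ⟨e, ((hmemK 0 e).1 (he 0)).1, fun t x h hh => ?_⟩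
  obtain ⟨n, hn⟩ := exists_nat_ge (-t)
  exact hv.forward (t0 := -(n:ℝ)) (fun y => ((hmemK n e).1 (he n)).2 y h hh) (by linarith) x

/-- Harnack inequality for entire limits. -/
lemma Ent.harnack {L : ℝ} {a : ℝ → E → ℝ} (ha : Ent L a) {s : ℝ} (hs : 0 < s) (h : E)
    (t : ℝ) (x : E) :
    a (t - s) (x + h) ≤ Real.exp L * HC E 1 s ‖h‖ * a t x := by
  have h1 := ha.upper (t - s) (x + h) 1 zero_le_one
  have h2 := T_harnack (ha.bm (t - s - 1)) (fun y => (ha.range _ y).1) one_pos hs x (x + h)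
  have h3 := ha.lower t x (1 + s) (by linarith)
  rw [show t - (1 + s) = t - s - 1 by ring] at h3
  rw [mul_one] at h1
  have e : x - (x + h) = -h := by abel
  rw [e, norm_neg] at h2
  have hHC := HC_pos (E := E) one_pos hs ‖h‖
  calc a (t - s) (x + h) ≤ Real.exp L * T 1 (a (t - s - 1)) (x + h) := h1
    _ ≤ Real.exp L * (HC E 1 s ‖h‖ * T (1 + s) (a (t - s - 1)) x) := by gcongr
    _ ≤ Real.exp L * (HC E 1 s ‖h‖ * a t x) := by gcongr
    _ = _ := by ring

/-- Polynomial bound along a ray of points, from the comparison with a planar function. -/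
lemma poly_bound {L : ℝ} {a v : ℝ → E → ℝ} (hv : Ent L v) {η : ℝ} (hη : 0 < η)
    (h1 : ∀ t x, η * v t x ≤ a (t + 1) x) (h2 : ∀ t x, η * a t x ≤ v (t + 1) x) {e : E}
    (hp : ∀ t x h, ⟪h, e⟫ = 0 → v t (x + h) = v t x) {r : ℝ} (hr : 2 < r) {h : E}
    (hh : ⟪h, e⟫ = 0) (t : ℝ) (x : E) :
    η ^ 2 * a (t - r) (x + h) ≤
      Real.exp L * (r - 1) ^ (((Module.finrank ℝ E : ℕ) : ℝ) / 2) * a t x := by
  have k1 := h2 (t - r) (x + h)
  rw [hp _ _ _ hh] at k1
  have k2 := hv.upper (t - r + 1) x 1 zero_le_one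
  rw [show t - r + 1 - 1 = t - r by ring, mul_one] at k2
  have k3 := T_harnack (hv.bm (t - r)) (fun y => (hv.range _ y).1) one_pos
    (by linarith : 0 < r - 2) x x
  rw [sub_self, norm_zero] at k3
  have k4 := hv.lower (t - 1) x (1 + (r - 2)) (by linarith)
  rw [show t - 1 - (1 + (r - 2)) = t - r by ring] at k4
  have k5 := h1 (t - 1) x
  rw [sub_add_cancel] at k5
  have hHC : HC E 1 (r - 2) 0 = (r - 1) ^ (((Module.finrank ℝ E : ℕ) : ℝ) / 2) := by
    unfold HC
    rw [show (1 + (r - 2)) / 1 = r - 1 by ring]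
    simp
  rw [hHC] at k3
  set C := (r - 1) ^ (((Module.finrank ℝ E : ℕ) : ℝ) / 2) with hC
  have hC0 : 0 < C := Real.rpow_pos_of_pos (by linarith) _
  calc η ^ 2 * a (t - r) (x + h) = η * (η * a (t - r) (x + h)) := by ring
    _ ≤ η * (Real.exp L * (C * v (t - 1) x)) := by
        apply mul_le_mul_of_nonneg_left _ hη.le
        refine k1.trans (k2.trans ?_)
        apply mul_le_mul_of_nonneg_left _ (Real.exp_pos _).le
        refine k3.trans ?_
        exact mul_le_mul_of_nonneg_left k4 hC0.le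
    _ = Real.exp L * C * (η * v (t - 1) x) := by ring
    _ ≤ _ := mul_le_mul_of_nonneg_left k5 (by positivity)

/-- One step of the propagation of near-extremality: estimate of the defect. -/
lemma defect_step {L : ℝ} (hL : 0 ≤ L) {a : ℝ → E → ℝ} (ha : Ent L a) {s ϑ : ℝ} (hs : 0 < s) {h : E}
    (hϑ : ϑ ∈ Icc (0:ℝ) 1) (hle : ∀ t x, ϑ * a (t - s) (x + h) ≤ a t x) {ρ : ℝ} (hρ : 0 < ρ)
    (t : ℝ) (x : E) :
    a (t - s) (x + h) - ϑ * a (t - s - s) (x + h + h) ≤
      HC E ρ s ‖h‖ * Real.exp (L * (ρ + s)) * (a t x - ϑ * a (t - s) (x + h)) +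
        (Real.exp (L * ρ) - 1) * a (t - s) (x + h) := by
  set D : E → ℝ := fun y => a (t - s - ρ) y - ϑ * a (t - s - ρ - s) (y + h) with hD
  have hD0 : ∀ y, 0 ≤ D y := fun y => by
    have := hle (t - s - ρ) y
    simp only [hD]; linarith
  have hDc : Continuous D := by
    have c1 := ha.cont_at (t - s - ρ)
    have c2 := ha.cont_at (t - s - ρ - s)
    simp only [hD]
    fun_prop
  have hDb : BM D 1 := by
    refine ⟨hDc.measurable, fun y => ?_⟩
    have r1 := ha.range (t - s - ρ) y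
    have r2 := ha.range (t - s - ρ - s) (y + h)
    have := mul_nonneg hϑ.1 r2.1
    rw [abs_of_nonneg (hD0 y)]
    simp only [hD]
    linarith [r1.2]
  -- upper bound for the left side
  have k1 := ha.upper (t - s) (x + h) ρ hρ.le
  have k2 := ha.lower (t - s) (x + h) ρ hρ.le
  have k3 := ha.lower (t - s - s) (x + h + h) ρ hρ.le
  rw [← T_shift] at k3
  have e0 : t - s - s - ρ = t - s - ρ - s := by ring
  rw [e0] at k3
  have hb2 : BM (fun y => ϑ * a (t - s - ρ - s) (y + h)) 1 := by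
    refine ⟨((((ha.cont_at (t - s - ρ - s)).comp (continuous_id.add continuous_const)).const_mul
      ϑ)).measurable, fun y => ?_⟩
    have r2 := ha.range (t - s - ρ - s) (y + h)
    rw [abs_of_nonneg (mul_nonneg hϑ.1 r2.1)]
    nlinarith [hϑ.1, hϑ.2, r2.1, r2.2]
  have k4 : T ρ D (x + h) = T ρ (a (t - s - ρ)) (x + h) -
      ϑ * T ρ (fun y => a (t - s - ρ - s) (y + h)) (x + h) := by
    rw [← T_const_mul]
    exact T_sub (ha.bm _) hb2 ρ (x + h)
  have k5 := T_harnack hDb hD0 hρ hs x (x + h)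
  rw [show x - (x + h) = -h by abel, norm_neg] at k5
  have k6 := ha.diff ϑ hϑ s h t x (ρ + s) (by linarith)
  have e1 : t - (ρ + s) = t - s - ρ := by ring
  rw [e1] at k6
  have e2 : (fun y => max (a (t - s - ρ) y - ϑ * a (t - s - ρ - s) (y + h)) 0) = D := by
    funext y; exact max_eq_left (hD0 y)
  have e3 : (fun y => max (-(a (t - s - ρ) y - ϑ * a (t - s - ρ - s) (y + h))) 0) =
      fun _ : E => (0:ℝ) := by
    funext y
    apply max_eq_right
    have := hD0 y
    simp only [hD] at this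
    linarith
  rw [e2, e3, T_const, mul_zero, sub_zero] at k6
  have k7 : T (ρ + s) D x ≤ Real.exp (L * (ρ + s)) * (a t x - ϑ * a (t - s) (x + h)) := by
    have h8 := mul_le_mul_of_nonneg_left k6 (Real.exp_pos (L * (ρ + s))).le
    rw [← mul_assoc, ← Real.exp_add] at h8
    have : L * (ρ + s) + -L * (ρ + s) = 0 := by ring
    rw [this, Real.exp_zero, one_mul] at h8
    exact h8
  have hHC := HC_pos (E := E) hρ hs ‖h‖
  have k8 : T ρ D (x + h) ≤ HC E ρ s ‖h‖ * Real.exp (L * (ρ + s)) *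
      (a t x - ϑ * a (t - s) (x + h)) := by
    refine k5.trans ?_
    rw [mul_assoc]
    exact mul_le_mul_of_nonneg_left k7 hHC.le
  have k9 : 1 ≤ Real.exp (L * ρ) := Real.one_le_exp (mul_nonneg hL hρ.le)
  have k10 : (Real.exp (L * ρ) - 1) * T ρ (a (t - s - ρ)) (x + h) ≤
      (Real.exp (L * ρ) - 1) * a (t - s) (x + h) :=
    mul_le_mul_of_nonneg_left k2 (by linarith)
  have k11 : ϑ * T ρ (fun y => a (t - s - ρ - s) (y + h)) (x + h) ≤
      ϑ * a (t - s - s) (x + h + h) := mul_le_mul_of_nonneg_left k3 hϑ.1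
  nlinarith

/-- The key monotonicity: `a(t-s, x+h) ≤ a(t,x)` for `s > 0` and `h ⊥ e`. -/
theorem key_monotone {L : ℝ} (hL : 0 ≤ L) {a v : ℝ → E → ℝ} (ha : Ent L a) (hv : Ent L v)
    {η : ℝ} (hη : 0 < η)
    (h1 : ∀ t x, η * v t x ≤ a (t + 1) x) (h2 : ∀ t x, η * a t x ≤ v (t + 1) x) {e : E}
    (hp : ∀ t x h, ⟪h, e⟫ = 0 → v t (x + h) = v t x) {s : ℝ} (hs : 0 < s) {h : E}
    (hh : ⟪h, e⟫ = 0) : ∀ t x, a (t - s) (x + h) ≤ a t x := by
  -- the maximal ratio
  set Θ : Set ℝ := {ϑ | ϑ ∈ Icc (0:ℝ) 1 ∧ ∀ t x, ϑ * a (t - s) (x + h) ≤ a t x} with hΘ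
  have hΘc : IsCompact Θ := by
    refine isCompact_Icc.of_isClosed_subset ?_ (fun ϑ hϑ => hϑ.1) (s := Icc (0:ℝ) 1)
    have : Θ = Icc (0:ℝ) 1 ∩ ⋂ (t : ℝ), ⋂ (x : E), {ϑ : ℝ | ϑ * a (t - s) (x + h) ≤ a t x} := by
      ext ϑ; simp [hΘ]
    rw [this]
    refine isClosed_Icc.inter (isClosed_iInter fun t => isClosed_iInter fun x => ?_)
    exact isClosed_le (by fun_prop) continuous_const
  have hΘn : Θ.Nonempty := ⟨0, by simp, fun t x => by simpa using (ha.range t x).1⟩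
  obtain ⟨ϑ, hϑ, hmax⟩ := hΘc.exists_isGreatest hΘn
  by_cases h1ϑ : ϑ = 1
  · intro t x
    have := hϑ.2 t x
    rwa [h1ϑ, one_mul] at this
  exfalso
  have hϑ1 : ϑ < 1 := lt_of_le_of_ne hϑ.1.2 h1ϑ
  have hϑ0 : 0 ≤ ϑ := hϑ.1.1
  have hle := hϑ.2
  set κ0 : ℝ := (1 - ϑ) / 2 with hκ0
  have hκ00 : 0 < κ0 := by rw [hκ0]; linarith
  have hκ01 : κ0 < 1 := by rw [hκ0]; linarith
  -- propagation
  have prop : ∀ κ, 0 < κ → κ ≤ κ0 → ∃ κ' > 0, ∀ t x,
      a t x - ϑ * a (t - s) (x + h) ≤ κ' * a (t - s) (x + h) →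
      a (t - s) (x + h) - ϑ * a (t - s - s) (x + h + h) ≤ κ * a (t - s - s) (x + h + h) := by
    intro κ hκ hκκ
    obtain ⟨ρ, hρ, hρ'⟩ : ∃ ρ > 0, Real.exp (L * ρ) - 1 ≤ κ / 2 := by
      have hc : ContinuousAt (fun ρ : ℝ => Real.exp (L * ρ) - 1) 0 :=
        Continuous.continuousAt (by fun_prop)
      have hev : ∀ᶠ ρ in 𝓝[>] (0:ℝ), Real.exp (L * ρ) - 1 < κ / 2 := by
        have := hc.tendsto.eventually (gt_mem_nhds (show Real.exp (L * 0) - 1 < κ / 2 by
          simp; linarith))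
        exact this.filter_mono nhdsWithin_le_nhds
      obtain ⟨ρ, hρ1, hρ2⟩ := (hev.and self_mem_nhdsWithin).exists
      exact ⟨ρ, hρ2, hρ1.le⟩
    set C := HC E ρ s ‖h‖ * Real.exp (L * (ρ + s)) with hC
    have hC0 : 0 < C := mul_pos (HC_pos hρ hs _) (Real.exp_pos _)
    refine ⟨κ / (2 * C), by positivity, fun t x hD => ?_⟩
    have k1 := defect_step hL ha hs hϑ.1 hle hρ t x
    rw [← hC] at k1
    have hA0 := (ha.range (t - s) (x + h)).1
    have hB0 := (ha.range (t - s - s) (x + h + h)).1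
    set A := a (t - s) (x + h)
    set B := a (t - s - s) (x + h + h)
    have k2 : C * (a t x - ϑ * A) ≤ κ / 2 * A := by
      calc C * (a t x - ϑ * A) ≤ C * (κ / (2 * C) * A) := by gcongr
        _ = κ / 2 * A := by field_simp
    have k3 : A - ϑ * B ≤ κ * A := by nlinarith
    have hκϑ : ϑ ≤ 1 - κ := by rw [hκ0] at hκκ; linarith
    have k4 : (1 - κ) * A ≤ (1 - κ) * B := by nlinarith
    have k5 : A ≤ B := le_of_mul_le_mul_left k4 (by linarith)
    nlinarith
  -- chain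
  have chain : ∀ m : ℕ, ∃ κ > 0, κ ≤ κ0 ∧ ∀ t x,
      a t x - ϑ * a (t - s) (x + h) ≤ κ * a (t - s) (x + h) →
      ∀ j : ℕ, j ≤ m → a (t - j * s) (x + (j:ℝ) • h) ≤
        (ϑ + κ0) * a (t - (j + 1 : ℕ) * s) (x + ((j + 1 : ℕ):ℝ) • h) := by
    have step : ∀ κ ≤ κ0, ∀ t x, a t x - ϑ * a (t - s) (x + h) ≤ κ * a (t - s) (x + h) →
        a (t - (0:ℕ) * s) (x + ((0:ℕ):ℝ) • h) ≤
        (ϑ + κ0) * a (t - (0 + 1 : ℕ) * s) (x + ((0 + 1 : ℕ):ℝ) • h) := by
      intro κ hκ t x hD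
      have := (ha.range (t - s) (x + h)).1
      simp only [Nat.cast_zero, zero_mul, sub_zero, zero_smul, add_zero, zero_add, Nat.cast_one,
        one_mul, one_smul]
      nlinarith
    intro m
    induction m with
    | zero =>
      refine ⟨κ0, hκ00, le_rfl, fun t x hD j hj => ?_⟩
      obtain rfl : j = 0 := by omega
      exact step κ0 le_rfl t x hD
    | succ m ih =>
      obtain ⟨κ, hκ, hκκ, hch⟩ := ih
      obtain ⟨κ', hκ', hpr⟩ := prop κ hκ hκκ
      refine ⟨min κ' κ0, lt_min hκ' hκ00, min_le_right _ _, fun t x hD j hj => ?_⟩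
      have hA0 := (ha.range (t - s) (x + h)).1
      rcases Nat.eq_zero_or_pos j with rfl | hjpos
      · exact step _ (min_le_right _ _) t x hD
      · obtain ⟨i, rfl⟩ : ∃ i, j = i + 1 := ⟨j - 1, by omega⟩
        have hD' : a t x - ϑ * a (t - s) (x + h) ≤ κ' * a (t - s) (x + h) :=
          hD.trans (mul_le_mul_of_nonneg_right (min_le_left _ _) hA0)
        have h3 := hch (t - s) (x + h) (hpr t x hD') i (by omega)
        have e1 : t - s - i * s = t - ((i + 1 : ℕ):ℝ) * s := by push_cast; ring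
        have e2 : x + h + (i:ℝ) • h = x + ((i + 1 : ℕ):ℝ) • h := by push_cast; module
        have e3 : t - s - ((i + 1 : ℕ):ℝ) * s = t - ((i + 1 + 1 : ℕ):ℝ) * s := by push_cast; ring
        have e4 : x + h + ((i + 1 : ℕ):ℝ) • h = x + ((i + 1 + 1 : ℕ):ℝ) • h := by
          push_cast; module
        rw [e1, e2, e3, e4] at h3
        exact h3
  -- conclusion
  set q : ℝ := ϑ + κ0 with hq
  have hq1 : q < 1 := by rw [hq, hκ0]; linarith
  have hq0 : 0 < q := by rw [hq]; linarith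
  have final : ∀ m : ℕ, 1 ≤ m → 2 < m * s → η ^ 2 ≤
      Real.exp L * (m * s - 1) ^ (((Module.finrank ℝ E : ℕ) : ℝ) / 2) * q ^ m := by
    intro m hm hms
    obtain ⟨κ, hκ, hκκ, hch⟩ := chain m
    have hnot : ϑ + κ ∉ Θ := fun hmem => by
      have := hmax hmem; linarith
    have hnot2 : ∃ t x, a t x < (ϑ + κ) * a (t - s) (x + h) := by
      by_contra! hcon
      exact hnot ⟨⟨by linarith, by rw [hκ0] at hκκ; linarith⟩, hcon⟩
    obtain ⟨t, x, htx⟩ := hnot2
    have hj := hch t x (by linarith)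
    have hpos1 : 0 < a (t - s) (x + h) := by
      have h0 := (ha.range t x).1
      have h3 : 0 < (ϑ + κ) * a (t - s) (x + h) := lt_of_le_of_lt h0 htx
      exact (pos_iff_pos_of_mul_pos h3).1 (by linarith)
    have hbd : ∀ j : ℕ, 1 ≤ j → j ≤ m → 0 < a (t - j * s) (x + (j:ℝ) • h) ∧
        a t x ≤ q ^ j * a (t - j * s) (x + (j:ℝ) • h) := by
      intro j hj1 hjm
      induction j, hj1 using Nat.le_induction with
      | base =>
        have := hj 0 (by omega)
        simp only [Nat.cast_zero, zero_mul, sub_zero, zero_smul, add_zero, zero_add, Nat.cast_one,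
          one_mul, one_smul] at this
        simpa using ⟨hpos1, this⟩
      | succ j hj1 ih =>
        obtain ⟨ih1, ih2⟩ := ih (by omega)
        have h3 := hj j (by omega)
        refine ⟨?_, ?_⟩
        · have h4 := lt_of_lt_of_le ih1 h3
          exact (pos_iff_pos_of_mul_pos h4).1 hq0
        · calc a t x ≤ q ^ j * a (t - j * s) (x + (j:ℝ) • h) := ih2
            _ ≤ q ^ j * (q * a (t - (j + 1 : ℕ) * s) (x + ((j + 1 : ℕ):ℝ) • h)) := by gcongr
            _ = _ := by rw [pow_succ]; ring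
    obtain ⟨hb1, hb2⟩ := hbd m hm le_rfl
    have hb3 := poly_bound hv hη h1 h2 hp hms (h := (m:ℝ) • h)
      (by rw [inner_smul_left, hh, mul_zero]) t x
    set C := Real.exp L * (m * s - 1) ^ (((Module.finrank ℝ E : ℕ) : ℝ) / 2) with hC
    have hC0 : 0 ≤ C := mul_nonneg (Real.exp_pos _).le (Real.rpow_nonneg (by linarith) _)
    have hb4 : η ^ 2 * a (t - m * s) (x + (m:ℝ) • h) ≤
        (C * q ^ m) * a (t - m * s) (x + (m:ℝ) • h) := by
      calc _ ≤ C * a t x := hb3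
        _ ≤ C * (q ^ m * a (t - m * s) (x + (m:ℝ) • h)) := by gcongr
        _ = _ := by ring
    exact le_of_mul_le_mul_right hb4 hb1
  -- let m → ∞
  set n : ℕ := Module.finrank ℝ E with hn
  have hlim : Tendsto (fun m : ℕ => Real.exp L * s ^ n * ((m:ℝ) ^ n * q ^ m)) atTop (𝓝 0) := by
    have := (tendsto_pow_const_mul_const_pow_of_abs_lt_one n
      (r := q) (by rw [abs_of_pos hq0]; exact hq1)).const_mul (Real.exp L * s ^ n)
    simpa using this
  have hev := hlim.eventually (gt_mem_nhds (show (0:ℝ) < η ^ 2 by positivity))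
  obtain ⟨m0, hm0⟩ := exists_nat_gt (2 / s)
  obtain ⟨m, hm1, hm2⟩ := (hev.and (eventually_ge_atTop (max m0 1))).exists
  have hmm0 : m0 ≤ m := (le_max_left _ _).trans hm2
  have hm1' : 1 ≤ m := (le_max_right _ _).trans hm2
  have hms : 2 < (m:ℝ) * s := by
    have : (2 / s : ℝ) < m := lt_of_lt_of_le hm0 (by exact_mod_cast hmm0)
    rwa [div_lt_iff₀ hs] at this
  have hfin := final m hm1' hms
  have hbound : ((m:ℝ) * s - 1) ^ ((n : ℝ) / 2) ≤ s ^ n * (m:ℝ) ^ n := by
    calc ((m:ℝ) * s - 1) ^ ((n : ℝ) / 2) ≤ ((m:ℝ) * s) ^ ((n : ℝ) / 2) := by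
          apply Real.rpow_le_rpow (by linarith) (by linarith) (by positivity)
      _ ≤ ((m:ℝ) * s) ^ (n : ℝ) := by
          apply Real.rpow_le_rpow_of_exponent_le (by linarith)
          have : (0:ℝ) ≤ n := by positivity
          linarith
      _ = _ := by rw [Real.rpow_natCast, mul_pow]; ring
  have : η ^ 2 ≤ Real.exp L * s ^ n * ((m:ℝ) ^ n * q ^ m) := by
    calc η ^ 2 ≤ Real.exp L * ((m:ℝ) * s - 1) ^ ((n : ℝ) / 2) * q ^ m := hfin
      _ ≤ Real.exp L * (s ^ n * (m:ℝ) ^ n) * q ^ m := by gcongr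
      _ = _ := by ring
  linarith

/-- **Abstract main theorem.** -/
theorem planar_of_compare {L : ℝ} (hL : 0 ≤ L) {a v : ℝ → E → ℝ} (ha : Ent L a) (hv : Ent L v)
    {η : ℝ} (hη : 0 < η)
    (h1 : ∀ t x, η * v t x ≤ a (t + 1) x) (h2 : ∀ t x, η * a t x ≤ v (t + 1) x)
    (hp : ∀ t, ∃ e : E, ‖e‖ = 1 ∧ ∀ x h, ⟪h, e⟫ = 0 → v t (x + h) = v t x) :
    ∃ e : E, ‖e‖ = 1 ∧ ∀ t x h, ⟪h, e⟫ = 0 → a t (x + h) = a t x := by
  obtain ⟨e, he, hpe⟩ := hv.common_direction hp
  refine ⟨e, he, ?_⟩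
  have hle : ∀ t x h, ⟪h, e⟫ = 0 → a t (x + h) ≤ a t x := by
    intro t x h hh
    have hk := fun s (hs : 0 < s) => key_monotone hL ha hv hη h1 h2 hpe hs hh t x
    have hc : Tendsto (fun s : ℝ => a (t - s) (x + h)) (𝓝[>] 0) (𝓝 (a (t - 0) (x + h))) := by
      have h3 : Continuous (fun s : ℝ => a (t - s) (x + h)) := by
        have h4 : Continuous (fun s : ℝ => ((t - s, x + h) : ℝ × E)) := by fun_prop
        exact ha.cont.comp h4
      exact (h3.tendsto 0).mono_left nhdsWithin_le_nhds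
    rw [sub_zero] at hc
    refine le_of_tendsto hc ?_
    filter_upwards [self_mem_nhdsWithin] with s hs
    exact hk s hs
  intro t x h hh
  apply le_antisymm (hle t x h hh)
  have := hle t (x + h) (-h) (by rw [inner_neg_left, hh, neg_zero])
  rwa [add_neg_cancel_right] at this

end Pool.Agent.H29.KPP
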