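import Pool.Agent.H29.KPP.Euler

/-!
Duhamel formula for entire limits and `C²` regularity in every direction.
-/

open MeasureTheory Set Filter Topology Metric
open scoped RealInnerProductSpace ENNReal

set_option linter.unusedSectionVars false

namespace Pool.Agent.H29.KPP

variable {E : Type*} [NormedAddCommGroup E] [InnerProductSpace ℝ E] [FiniteDimensional ℝ E]
  [MeasurableSpace E] [BorelSpace E]

/-- The Euler estimate for entire limits. -/
def EulerE (f : ℝ → ℝ) (a : ℝ → E → ℝ) : Prop :=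
  ∀ ε > 0, ∃ h0 > 0, ∀ r ∈ Ioo 0 h0, ∀ t x,
    |a (t + r) x - (T r (a t) x + r * T r (fun y => f (a t y)) x)| ≤ ε * r

theorem euler_of_limit {f : ℝ → ℝ} {L : ℝ} (hf : NL f L) {u : ℝ → E → ℝ} (h : Sol f u)
    {t : ℕ → ℝ} (ht : Tendsto t atTop atTop) {p : ℕ → E} {a : ℝ → E → ℝ}
    (hlim : ∀ s y, Tendsto (fun n => u (t n + s) (p n + y)) atTop (𝓝 (a s y))) :
    EulerE f a := by
  have hpos : ∀ s : ℝ, ∀ᶠ n in atTop, 1 ≤ t n + s := by
    intro s
    filter_upwards [ht.eventually_ge_atTop (1 - s)] with n hn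
    linarith
  have hbm : ∀ s : ℝ, ∀ᶠ n in atTop, BM (fun y => u (t n + s) (p n + y)) 1 := by
    intro s
    filter_upwards [hpos s] with n hn
    refine ⟨((h.continuous_at (t := t n + s) (by linarith)).comp (by fun_prop)).measurable,
      fun x => ?_⟩
    have := h.range (t n + s) (by linarith) (p n + x)
    rw [abs_le]; constructor <;> linarith [this.1, this.2]
  have hbf : ∀ s : ℝ, ∀ᶠ n in atTop, BM (fun y => f (u (t n + s) (p n + y))) L := by
    intro s
    filter_upwards [hpos s] with n hn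
    refine ⟨((hf.cont_comp (h.continuous_at (t := t n + s) (by linarith))
      (h.range (t n + s) (by linarith))).comp (by fun_prop : Continuous (fun y => p n + y))).measurable,
      fun x => ?_⟩
    exact hf.abs_le (h.range (t n + s) (by linarith) _)
  have hrange : ∀ s y, a s y ∈ Icc (0:ℝ) 1 := by
    intro s y
    refine isClosed_Icc.mem_of_tendsto (hlim s y) ?_
    filter_upwards [hpos s] with n hn
    exact h.range _ (by linarith) _
  have hflim : ∀ s y, Tendsto (fun n => f (u (t n + s) (p n + y))) atTop (𝓝 (f (a s y))) := by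
    intro s y
    have h1 : Tendsto (fun n => u (t n + s) (p n + y)) atTop (𝓝[Icc 0 1] (a s y)) := by
      apply tendsto_nhdsWithin_of_tendsto_nhds_of_eventually_within _ (hlim s y)
      filter_upwards [hpos s] with n hn
      exact h.range _ (by linarith) _
    exact (hf.continuousOn (a s y) (hrange s y)).tendsto.comp h1
  intro ε hε
  obtain ⟨h0, hh0, hE⟩ := h.euler hf hε
  refine ⟨h0, hh0, fun r hr s y => ?_⟩
  have h1 : Tendsto (fun n => |u (t n + (s + r)) (p n + y) -
      (T r (fun z => u (t n + s) (p n + z)) y +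
        r * T r (fun z => f (u (t n + s) (p n + z))) y)|) atTop
      (𝓝 |a (s + r) y - (T r (a s) y + r * T r (fun y => f (a s y)) y)|) :=
    ((hlim (s + r) y).sub ((tendsto_T (hbm s) (hlim s) r y).add
      ((tendsto_T (hbf s) (hflim s) r y).const_mul r))).abs
  refine le_of_tendsto h1 ?_
  filter_upwards [hpos s] with n hn
  have h2 := hE (t n + s) hn r hr (y + p n)
  have e1 := T_shift (u (t n + s)) r y (p n)
  have e2 := T_shift (fun z => f (u (t n + s) z)) r y (p n)
  rw [← e1, ← e2] at h2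
  have c1 : ∀ z : E, p n + z = z + p n := fun z => add_comm _ _
  have c2 : t n + (s + r) = t n + s + r := by ring
  simp only [c1, c2]
  exact h2

/-- Joint continuity of `T ρ (H s) x` in all the variables. -/
lemma continuous_kernel_param {k : E → ℝ} (hk : Integrable k) {H : ℝ → E → ℝ} {M : ℝ}
    (hH : Continuous (fun p : ℝ × E => H p.1 p.2)) (hb : ∀ s x, |H s x| ≤ M) :
    Continuous (fun q : ℝ × ℝ × E => ∫ z, k z * H q.2.1 (q.2.2 - Real.sqrt q.1 • z)) := by
  have hsec : ∀ s, Continuous (H s) := fun s => by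
    have h1 : Continuous (fun x : E => ((s, x) : ℝ × E)) := by fun_prop
    exact hH.comp h1
  apply continuous_of_dominated (bound := fun z => ‖k z‖ * M)
  · intro q
    exact hk.aestronglyMeasurable.mul ((hsec _).comp (by fun_prop)).aestronglyMeasurable
  · intro q
    refine Filter.Eventually.of_forall fun z => ?_
    rw [norm_mul]
    exact mul_le_mul_of_nonneg_left (hb _ _) (norm_nonneg _)
  · exact hk.norm.mul_const M
  · refine Filter.Eventually.of_forall fun z => ?_
    apply Continuous.mul continuous_const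
    have h1 : Continuous (fun q : ℝ × ℝ × E => ((q.2.1, q.2.2 - Real.sqrt q.1 • z) : ℝ × E)) := by
      fun_prop
    exact hH.comp h1

lemma continuous_T_param {H : ℝ → E → ℝ} {M : ℝ}
    (hH : Continuous (fun p : ℝ × E => H p.1 p.2)) (hb : ∀ s x, |H s x| ≤ M) :
    Continuous (fun q : ℝ × ℝ × E => T q.1 (H q.2.1) q.2.2) :=
  continuous_kernel_param (integrable_G one_pos) hH hb

lemma section_cont {H : ℝ → E → ℝ} (hH : Continuous (fun p : ℝ × E => H p.1 p.2)) (s : ℝ) :
    Continuous (H s) := by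
  have h1 : Continuous (fun x : E => ((s, x) : ℝ × E)) := by fun_prop
  exact hH.comp h1

/-- **Duhamel formula.** -/
theorem duhamel {f : ℝ → ℝ} {L : ℝ} (hf : NL f L) {a : ℝ → E → ℝ} (ha : Ent L a)
    (he : EulerE f a) (t : ℝ) (x : E) :
    a t x = T 1 (a (t - 1)) x + ∫ ρ in (0:ℝ)..1, T ρ (fun y => f (a (t - ρ) y)) x := by
  have hab : ∀ s x, |a s x| ≤ 1 := fun s => (ha.bm s).bd
  have hFc : Continuous (fun p : ℝ × E => f (a p.1 p.2)) :=
    hf.cont_comp ha.cont (fun p => ha.range p.1 p.2)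
  have hFb : ∀ s x, |f (a s x)| ≤ L := fun s x => hf.abs_le (ha.range s x)
  have hFm : ∀ s, BM (fun y => f (a s y)) L := fun s =>
    ⟨(section_cont (H := fun s y => f (a s y)) hFc s).measurable, hFb s⟩
  have hΦc : Continuous (fun s => T (t - s) (a s) x) := by
    have h1 : Continuous (fun s : ℝ => ((t - s, s, x) : ℝ × ℝ × E)) := by fun_prop
    exact (continuous_T_param ha.cont hab).comp h1
  have hφc : Continuous (fun s => T (t - s) (fun y => f (a s y)) x) := by
    have h1 : Continuous (fun s : ℝ => ((t - s, s, x) : ℝ × ℝ × E)) := by fun_prop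
    exact (continuous_T_param (H := fun s y => f (a s y)) hFc hFb).comp h1
  have hder : ∀ s ∈ Ioo (t - 1) t, HasDerivWithinAt (fun s => T (t - s) (a s) x)
      (T (t - s) (fun y => f (a s y)) x) (Ioi s) s := by
    intro s hs
    rw [hasDerivWithinAt_iff_isLittleO, Asymptotics.isLittleO_iff]
    intro c hc
    obtain ⟨h0, hh0, hE⟩ := he c hc
    have hev : ∀ᶠ s' in 𝓝[>] s, s' ∈ Ioo s (min (s + h0) t) :=
      Ioo_mem_nhdsGT (lt_min (by linarith) hs.2)
    filter_upwards [hev] with s' hs'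
    set r := s' - s with hr
    have hr0 : 0 < r := by rw [hr]; linarith [hs'.1]
    have hrh : r < h0 := by
      have := hs'.2.trans_le (min_le_left _ _)
      rw [hr]; linarith
    have hst : s' < t := hs'.2.trans_le (min_le_right _ _)
    have e1 := hE r ⟨hr0, hrh⟩ s
    have e2 : s + r = s' := by rw [hr]; ring
    rw [e2] at e1
    -- functions
    set g1 : E → ℝ := T r (a s) with hg1
    set g2 : E → ℝ := T r (fun y => f (a s y)) with hg2
    have hg1c : Continuous g1 := by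
      have h1 : Continuous (fun y : E => ((r, y) : ℝ × E)) := by fun_prop
      exact (continuous_T (ha.cont_at s) (hab s)).comp h1
    have hg2c : Continuous g2 := by
      have h1 : Continuous (fun y : E => ((r, y) : ℝ × E)) := by fun_prop
      exact (continuous_T (section_cont (H := fun s y => f (a s y)) hFc s) (hFb s)).comp h1
    have hg1m : BM g1 1 := ⟨hg1c.measurable, fun y => T_abs_le (ha.bm s) r y⟩
    have hg2m : BM g2 L := ⟨hg2c.measurable, fun y => T_abs_le (hFm s) r y⟩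
    have hg3m : BM (fun y => r * g2 y) (r * L) := ⟨(hg2c.const_mul r).measurable, fun y => by
      rw [abs_mul, abs_of_pos hr0]
      exact mul_le_mul_of_nonneg_left (hg2m.bd y) hr0.le⟩
    have hg4m : BM (fun y => a s' y - g1 y) 2 := by
      refine ⟨((ha.cont_at s').sub hg1c).measurable, fun y => ?_⟩
      calc |a s' y - g1 y| ≤ |a s' y| + |g1 y| := abs_sub _ _
        _ ≤ 2 := by linarith [hab s' y, hg1m.bd y]
    have hEm : BM (fun y => (a s' y - g1 y) - r * g2 y) (c * r) := by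
      refine ⟨(((ha.cont_at s').sub hg1c).sub (hg2c.const_mul r)).measurable, fun y => ?_⟩
      have := e1 y
      rwa [← sub_sub] at this
    have k1 := T_sub hg4m hg3m (t - s') x
    rw [T_sub (ha.bm s') hg1m, T_const_mul] at k1
    have k2 : T (t - s') g1 x = T (t - s) (a s) x := by
      rw [hg1, T_semigroup (ha.cont_at s) (hab s) (by linarith) hr0.le]
      congr 1; rw [hr]; ring
    have k3 : T (t - s') g2 x = T (t - s) (fun y => f (a s y)) x := by
      rw [hg2, T_semigroup (section_cont (H := fun s y => f (a s y)) hFc s) (hFb s)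
        (by linarith) hr0.le]
      congr 1; rw [hr]; ring
    rw [k2, k3] at k1
    have k4 := T_abs_le hEm (t - s') x
    rw [k1] at k4
    simp only [smul_eq_mul]
    rw [Real.norm_eq_abs, Real.norm_eq_abs, abs_of_pos hr0]
    exact k4
  have hFTC := intervalIntegral.integral_eq_sub_of_hasDeriv_right_of_le (by linarith : t - 1 ≤ t)
    hΦc.continuousOn hder (hφc.intervalIntegrable _ _)
  simp only [sub_self, sub_sub_cancel] at hFTC
  rw [T_of_nonpos le_rfl] at hFTC
  have hsub : ∫ ρ in (0:ℝ)..1, T ρ (fun y => f (a (t - ρ) y)) x =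
      ∫ s in (t - 1)..t, T (t - s) (fun y => f (a s y)) x := by
    have h1 := intervalIntegral.integral_comp_sub_left
      (fun s => T (t - s) (fun y => f (a s y)) x) (a := 0) (b := 1) t
    simp only [sub_sub_cancel, sub_zero] at h1
    exact h1
  rw [hsub, hFTC]
  ring

/-- The derivative of the semigroup in the direction `e`, in scaled form. -/
noncomputable def T1 (e : E) (ρ : ℝ) (g : E → ℝ) (x : E) : ℝ :=
  (Real.sqrt ρ)⁻¹ * ∫ z, G1 e 1 z * g (x - Real.sqrt ρ • z)

lemma T1_eq {ρ : ℝ} (hρ : 0 < ρ) (e : E) (g : E → ℝ) (x : E) :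
    T1 e ρ g x = ∫ y, G1 e ρ (x - y) * g y := by
  have hs : 0 < Real.sqrt ρ := Real.sqrt_pos.2 hρ
  have h1 : ∫ y, G1 e ρ (x - y) * g y = ∫ y, G1 e ρ y * g (x - y) := by
    rw [← integral_sub_left_eq_self (fun y => G1 e ρ y * g (x - y)) volume x]
    simp
  rw [h1]
  have h2 := Measure.integral_comp_smul (volume : Measure E)
    (fun y => G1 e ρ y * g (x - y)) (Real.sqrt ρ)
  have h3 : ∀ z : E, G1 e ρ (Real.sqrt ρ • z) =
      ρ ^ (-((Module.finrank ℝ E : ℕ) : ℝ) / 2) * ((Real.sqrt ρ)⁻¹ * G1 e 1 z) := by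
    intro z
    unfold G1 G
    rw [norm_smul, Real.norm_of_nonneg hs.le, mul_pow, Real.sq_sqrt hρ.le, inner_smul_left]
    have e1 : -(ρ * ‖z‖ ^ 2) / (4 * ρ) = -‖z‖ ^ 2 / (4 * 1) := by field_simp
    have e2 : ρ = Real.sqrt ρ * Real.sqrt ρ := (Real.mul_self_sqrt hρ.le).symm
    have e3 : -((starRingEnd ℝ) (Real.sqrt ρ) * ⟪z, e⟫) / (2 * ρ) =
        (Real.sqrt ρ)⁻¹ * (-⟪z, e⟫ / (2 * 1)) := by
      simp only [conj_trivial]
      nth_rewrite 2 [e2]
      field_simp
    rw [e1, e3, mul_one, Real.mul_rpow (by have := Real.pi_pos; positivity) hρ.le]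
    ring
  simp only [h3] at h2
  have h4 : ∫ (x_1 : E), ρ ^ (-((Module.finrank ℝ E : ℕ) : ℝ) / 2) *
      ((Real.sqrt ρ)⁻¹ * G1 e 1 x_1) *
      g (x - Real.sqrt ρ • x_1) = ρ ^ (-((Module.finrank ℝ E : ℕ) : ℝ) / 2) * T1 e ρ g x := by
    unfold T1
    rw [← integral_const_mul, ← integral_const_mul]
    congr 1
    funext z
    ring
  rw [h4] at h2
  have h5 : |((Real.sqrt ρ) ^ (Module.finrank ℝ E))⁻¹| =
      ρ ^ (-((Module.finrank ℝ E : ℕ) : ℝ) / 2) := by
    rw [abs_of_pos (by positivity), ← Real.rpow_natCast, Real.sqrt_eq_rpow,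
      ← Real.rpow_mul hρ.le, ← Real.rpow_neg hρ.le]
    congr 1
    ring
  rw [h5, smul_eq_mul] at h2
  have h6 : ρ ^ (-((Module.finrank ℝ E : ℕ) : ℝ) / 2) ≠ 0 := (Real.rpow_pos_of_pos hρ _).ne'
  exact mul_left_cancel₀ h6 h2

lemma hasDerivAt_T_dir {g : E → ℝ} {M : ℝ} (hg : BM g M) {ρ : ℝ} (hρ : 0 < ρ) {e : E}
    (he : ‖e‖ = 1) (x : E) (r : ℝ) :
    HasDerivAt (fun r : ℝ => T ρ g (x + r • e)) (T1 e ρ g (x + r • e)) r := by
  obtain ⟨C0, hC0, hb0⟩ := G_gauss_bound (E := E) hρ
  obtain ⟨C1, hC1, hb1⟩ := G1_gauss_bound hρ e he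
  simp only [T_eq hρ, T1_eq hρ]
  exact conv_deriv he (by positivity) (continuous_G ρ) (continuous_G1 e ρ) hC1
    (fun z s => hasDerivAt_G hρ z e he s) hb0 hb1 hg x r

lemma integrable_G1 {e : E} (he : ‖e‖ = 1) : Integrable (fun z : E => G1 e 1 z) := by
  obtain ⟨C1, hC1, hb1⟩ := G1_gauss_bound one_pos e he
  refine Integrable.mono' ((integrable_gauss (c := 1 / (8 * 1)) (by positivity)).const_mul C1)
    (continuous_G1 e 1).aestronglyMeasurable ?_
  exact Filter.Eventually.of_forall fun y => hb1 y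

lemma T1_abs_le {g : E → ℝ} {M : ℝ} (hg : BM g M) {e : E}
    (he : ‖e‖ = 1) (ρ : ℝ) (x : E) :
    |T1 e ρ g x| ≤ (Real.sqrt ρ)⁻¹ * ((∫ z : E, ‖G1 e 1 z‖) * M) := by
  unfold T1
  rw [abs_mul, abs_of_nonneg (by positivity)]
  apply mul_le_mul_of_nonneg_left _ (by positivity)
  rw [← Real.norm_eq_abs, ← integral_mul_const]
  refine (norm_integral_le_integral_norm _).trans ?_
  apply integral_mono_of_nonneg (Filter.Eventually.of_forall fun z => norm_nonneg _)
    ((integrable_G1 he).norm.mul_const M)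
  refine Filter.Eventually.of_forall fun z => ?_
  simp only [norm_mul]
  exact mul_le_mul_of_nonneg_left (hg.bd _) (norm_nonneg _)

lemma continuous_T1_param {e : E} (he : ‖e‖ = 1) {H : ℝ → E → ℝ} {M : ℝ}
    (hH : Continuous (fun p : ℝ × E => H p.1 p.2)) (hb : ∀ s x, |H s x| ≤ M) :
    ContinuousOn (fun q : ℝ × ℝ × E => T1 e q.1 (H q.2.1) q.2.2) (Ioi 0 ×ˢ univ) := by
  unfold T1
  apply ContinuousOn.mul
  · apply ContinuousOn.inv₀
    · exact (Real.continuous_sqrt.comp continuous_fst).continuousOn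
    · rintro ⟨ρ, s, x⟩ ⟨hρ, _⟩
      exact (Real.sqrt_pos.2 hρ).ne'
  · exact (continuous_kernel_param (integrable_G1 he) hH hb).continuousOn

/-- The Duhamel integral. -/
noncomputable def Int (H : ℝ → E → ℝ) (t : ℝ) (x : E) : ℝ :=
  ∫ ρ in (0:ℝ)..1, T ρ (H (t - ρ)) x

/-- Its directional derivative. -/
noncomputable def Int1 (e : E) (H : ℝ → E → ℝ) (t : ℝ) (x : E) : ℝ :=
  ∫ ρ in (0:ℝ)..1, T1 e ρ (H (t - ρ)) x

lemma intervalIntegrable_sqrt_inv (C : ℝ) :
    IntervalIntegrable (fun ρ : ℝ => (Real.sqrt ρ)⁻¹ * C) volume 0 1 := by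
  have h1 : IntervalIntegrable (fun ρ : ℝ => ρ ^ (-(1/2) : ℝ)) volume 0 1 :=
    intervalIntegral.intervalIntegrable_rpow' (by norm_num)
  have h2 := h1.mul_const C
  refine h2.congr ?_
  intro ρ hρ
  rw [uIoc_of_le zero_le_one] at hρ
  simp only
  rw [Real.rpow_neg hρ.1.le, ← Real.sqrt_eq_rpow]

lemma T1_meas {e : E} (he : ‖e‖ = 1) {H : ℝ → E → ℝ} {M : ℝ}
    (hH : Continuous (fun p : ℝ × E => H p.1 p.2)) (hb : ∀ s x, |H s x| ≤ M) (t : ℝ) (x : E) :
    AEStronglyMeasurable (fun ρ => T1 e ρ (H (t - ρ)) x) (volume.restrict (uIoc 0 1)) := by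
  rw [uIoc_of_le zero_le_one]
  apply ContinuousOn.aestronglyMeasurable _ measurableSet_Ioc
  have h1 : Continuous (fun ρ : ℝ => ((ρ, t - ρ, x) : ℝ × ℝ × E)) := by fun_prop
  exact (continuous_T1_param he hH hb).comp h1.continuousOn
    (fun ρ hρ => ⟨hρ.1, mem_univ _⟩)

lemma hasDerivAt_Int {e : E} (he : ‖e‖ = 1) {H : ℝ → E → ℝ} {M : ℝ}
    (hH : Continuous (fun p : ℝ × E => H p.1 p.2)) (hb : ∀ s x, |H s x| ≤ M) (t : ℝ) (x : E)
    (r : ℝ) : HasDerivAt (fun r : ℝ => Int H t (x + r • e)) (Int1 e H t (x + r • e)) r := by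
  have hBM : ∀ s, BM (H s) M := fun s => ⟨(section_cont hH s).measurable, hb s⟩
  have hTc : ∀ x, Continuous (fun ρ : ℝ => T ρ (H (t - ρ)) x) := by
    intro x
    have h1 : Continuous (fun ρ : ℝ => ((ρ, t - ρ, x) : ℝ × ℝ × E)) := by fun_prop
    exact (continuous_T_param hH hb).comp h1
  refine (intervalIntegral.hasDerivAt_integral_of_dominated_loc_of_deriv_le
    (F := fun (r : ℝ) ρ => T ρ (H (t - ρ)) (x + r • e))
    (F' := fun (r : ℝ) ρ => T1 e ρ (H (t - ρ)) (x + r • e))
    (bound := fun ρ => (Real.sqrt ρ)⁻¹ * ((∫ z : E, ‖G1 e 1 z‖) * M))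
    (s := univ) univ_mem ?_ ?_ ?_ ?_ ?_ ?_).2
  · exact Filter.Eventually.of_forall fun r => (hTc _).aestronglyMeasurable
  · exact (hTc _).intervalIntegrable _ _
  · exact T1_meas he hH hb t _
  · refine Filter.Eventually.of_forall fun ρ _ r _ => ?_
    exact T1_abs_le (hBM _) he ρ _
  · exact intervalIntegrable_sqrt_inv _
  · refine Filter.Eventually.of_forall fun ρ hρ r _ => ?_
    rw [uIoc_of_le zero_le_one] at hρ
    exact hasDerivAt_T_dir (hBM _) hρ.1 he x r

lemma continuous_Int1 {e : E} (he : ‖e‖ = 1) {H : ℝ → E → ℝ} {M : ℝ}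
    (hH : Continuous (fun p : ℝ × E => H p.1 p.2)) (hb : ∀ s x, |H s x| ≤ M) :
    Continuous (fun p : ℝ × E => Int1 e H p.1 p.2) := by
  have hBM : ∀ s, BM (H s) M := fun s => ⟨(section_cont hH s).measurable, hb s⟩
  unfold Int1
  apply intervalIntegral.continuous_of_dominated_interval
    (bound := fun ρ => (Real.sqrt ρ)⁻¹ * ((∫ z : E, ‖G1 e 1 z‖) * M))
  · exact fun p => T1_meas he hH hb p.1 p.2
  · exact fun p => Filter.Eventually.of_forall fun ρ _ => T1_abs_le (hBM _) he ρ _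
  · exact intervalIntegrable_sqrt_inv _
  · refine Filter.Eventually.of_forall fun ρ hρ => ?_
    rw [uIoc_of_le zero_le_one] at hρ
    have h1 : Continuous (fun p : ℝ × E => ((ρ, p.1 - ρ, p.2) : ℝ × ℝ × E)) := by fun_prop
    have h2 := (continuous_T1_param he hH hb).comp h1.continuousOn (s := univ)
      (fun p _ => ⟨hρ.1, mem_univ _⟩)
    exact continuousOn_univ.1 h2

lemma Int1_bound {e : E} (he : ‖e‖ = 1) {H : ℝ → E → ℝ} {M : ℝ}
    (hH : Continuous (fun p : ℝ × E => H p.1 p.2)) (hb : ∀ s x, |H s x| ≤ M) :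
    ∃ C, ∀ t x, |Int1 e H t x| ≤ C := by
  have hBM : ∀ s, BM (H s) M := fun s => ⟨(section_cont hH s).measurable, hb s⟩
  refine ⟨∫ ρ in (0:ℝ)..1, (Real.sqrt ρ)⁻¹ * ((∫ z : E, ‖G1 e 1 z‖) * M), fun t x => ?_⟩
  unfold Int1
  rw [← Real.norm_eq_abs]
  apply intervalIntegral.norm_integral_le_of_norm_le zero_le_one
  · exact Filter.Eventually.of_forall fun ρ _ => T1_abs_le (hBM _) he ρ _
  · exact intervalIntegrable_sqrt_inv _

end Pool.Agent.H29.KPP
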