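import Pool.Agent.H29.KPP.Deriv

/-!
Consequences of the comparison principle for solutions of `∂_t u = Δ u + f(u)` with values in `[0,1]`.
-/

open MeasureTheory Set Filter Topology Metric
open scoped RealInnerProductSpace ENNReal

set_option linter.unusedSectionVars false

namespace Pool.Agent.H29.KPP

variable {E : Type*} [NormedAddCommGroup E] [InnerProductSpace ℝ E] [FiniteDimensional ℝ E]
  [MeasurableSpace E] [BorelSpace E]

/-- What is used about the nonlinearity. -/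
structure NL (f : ℝ → ℝ) (L : ℝ) : Prop where
  L0 : 0 ≤ L
  zero : f 0 = 0
  nonneg : ∀ a ∈ Icc (0:ℝ) 1, 0 ≤ f a
  lip : ∀ a ∈ Icc (0:ℝ) 1, ∀ b ∈ Icc (0:ℝ) 1, |f a - f b| ≤ L * |a - b|
  kpp : ∀ ϑ ∈ Icc (0:ℝ) 1, ∀ a ∈ Icc (0:ℝ) 1, ϑ * f a ≤ f (ϑ * a)

lemma NL.le {f : ℝ → ℝ} {L : ℝ} (h : NL f L) {a : ℝ} (ha : a ∈ Icc (0:ℝ) 1) : f a ≤ L * a := by
  have h1 := h.lip a ha 0 (by simp)
  rw [h.zero, sub_zero, sub_zero, abs_of_nonneg (h.nonneg a ha), abs_of_nonneg ha.1] at h1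
  exact h1

/-- `v` is a solution with values in `[0,1]` on the time interval `[t0,t1]`. -/
structure SolOn (f : ℝ → ℝ) (v : ℝ → E → ℝ) (t0 t1 : ℝ) : Prop where
  range : ∀ t ∈ Icc t0 t1, ∀ x, v t x ∈ Icc (0:ℝ) 1
  cont : ContinuousOn (fun p : ℝ × E => v p.1 p.2) (Icc t0 t1 ×ˢ univ)
  pde : ∀ t ∈ Ioc t0 t1, ∀ x, PDE v t x (f (v t x))

lemma SolOn.continuous_at {f : ℝ → ℝ} {v : ℝ → E → ℝ} {t0 t1 : ℝ} (h : SolOn f v t0 t1)
    {t : ℝ} (ht : t ∈ Icc t0 t1) : Continuous (v t) := by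
  have h1 : Continuous (fun x : E => ((t, x) : ℝ × E)) := by fun_prop
  have h2 := h.cont.comp h1.continuousOn (s := univ) (fun x _ => ⟨ht, mem_univ _⟩)
  exact continuousOn_univ.1 h2

lemma SolOn.bm {f : ℝ → ℝ} {v : ℝ → E → ℝ} {t0 t1 : ℝ} (h : SolOn f v t0 t1)
    {t : ℝ} (ht : t ∈ Icc t0 t1) : BM (v t) 1 :=
  ⟨(h.continuous_at ht).measurable, fun x => by
    rw [abs_le]; have := h.range t ht x; constructor <;> linarith [this.1, this.2]⟩

lemma continuousOn_T_sub {g : E → ℝ} {M : ℝ} (hg : Continuous g) (hb : ∀ x, |g x| ≤ M)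
    (t0 : ℝ) (S : Set (ℝ × E)) :
    ContinuousOn (fun p : ℝ × E => T (p.1 - t0) g p.2) S := by
  have h1 : Continuous (fun p : ℝ × E => ((p.1 - t0, p.2) : ℝ × E)) := by fun_prop
  exact ((continuous_T hg hb).comp h1).continuousOn

/-- (J1), lower bound. -/
theorem SolOn.lower {f : ℝ → ℝ} {L : ℝ} (hf : NL f L) {v : ℝ → E → ℝ} {t0 t1 : ℝ}
    (h : SolOn f v t0 t1) (ht : t0 ≤ t1) (x : E) : T (t1 - t0) (v t0) x ≤ v t1 x := by
  have hbm := h.bm (left_mem_Icc.2 ht)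
  have hT1 : ∀ s y, |T s (v t0) y| ≤ 1 := fun s y => T_abs_le hbm s y
  have key := comparison (t0 := t0) (T := t1) (K := 0) (M := 2)
    (w := fun s y => v s y - T (s - t0) (v t0) y) ?_ ?_ ?_ ?_ t1 (right_mem_Icc.2 ht) x
  · simpa using key
  · exact h.cont.sub (continuousOn_T_sub (h.continuous_at (left_mem_Icc.2 ht)) hbm.bd t0 _)
  · intro t ht' y
    have h1 := (h.range t ht' y).1
    have h2 := (abs_le.1 (hT1 (t - t0) y)).2
    linarith
  · intro y
    simp [T_of_nonpos]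
  · intro t ht' y _
    refine ⟨_, (h.pde t ht' y).sub (PDE_T' hbm ht'.1 y), ?_⟩
    have := hf.nonneg _ (h.range t (Ioc_subset_Icc_self ht') y)
    simpa using this

/-- (J1), upper bound. -/
theorem SolOn.upper {f : ℝ → ℝ} {L : ℝ} (hf : NL f L) {v : ℝ → E → ℝ} {t0 t1 : ℝ}
    (h : SolOn f v t0 t1) (ht : t0 ≤ t1) (x : E) :
    v t1 x ≤ Real.exp (L * (t1 - t0)) * T (t1 - t0) (v t0) x := by
  have hbm := h.bm (left_mem_Icc.2 ht)
  have hT1 : ∀ s y, 0 ≤ T s (v t0) y := fun s y =>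
    T_nonneg (fun z => (h.range t0 (left_mem_Icc.2 ht) z).1) s y
  have key := comparison (t0 := t0) (T := t1) (K := L) (M := 2)
    (w := fun s y => Real.exp (L * (s - t0)) * T (s - t0) (v t0) y - v s y)
    ?_ ?_ ?_ ?_ t1 (right_mem_Icc.2 ht) x
  · simpa using key
  · refine ContinuousOn.sub (ContinuousOn.mul (Continuous.continuousOn (by fun_prop)) ?_) h.cont
    exact continuousOn_T_sub (h.continuous_at (left_mem_Icc.2 ht)) hbm.bd t0 _
  · intro t ht' y
    have h1 := (h.range t ht' y).2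
    have h2 := mul_nonneg (Real.exp_pos (L * (t - t0))).le (hT1 (t - t0) y)
    linarith
  · intro y
    simp [T_of_nonpos]
  · intro t ht' y _
    refine ⟨_, ((PDE_T' hbm ht'.1 y).exp_mul L t0).sub (h.pde t ht' y), ?_⟩
    have := hf.le (h.range t (Ioc_subset_Icc_self ht') y)
    simp only [zero_add]
    nlinarith

/-- (J2). -/
theorem SolOn.diff {f : ℝ → ℝ} {L : ℝ} (hf : NL f L) {v w : ℝ → E → ℝ} {t0 t1 ϑ : ℝ}
    (hv : SolOn f v t0 t1) (hw : SolOn f w t0 t1) (hϑ : ϑ ∈ Icc (0:ℝ) 1) (ht : t0 ≤ t1) (x : E) :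
    Real.exp (-L * (t1 - t0)) * T (t1 - t0) (fun y => max (v t0 y - ϑ * w t0 y) 0) x -
      Real.exp (L * (t1 - t0)) * T (t1 - t0) (fun y => max (-(v t0 y - ϑ * w t0 y)) 0) x ≤
      v t1 x - ϑ * w t1 x := by
  have hl := left_mem_Icc.2 ht
  have hvc := hv.continuous_at hl
  have hwc := hw.continuous_at hl
  have hD : ∀ y, |v t0 y - ϑ * w t0 y| ≤ 1 := by
    intro y
    have h1 := hv.range t0 hl y
    have h2 := hw.range t0 hl y
    rw [abs_le]
    have h3 : ϑ * w t0 y ≤ 1 := by nlinarith [hϑ.1, hϑ.2, h2.1, h2.2]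
    have h4 : 0 ≤ ϑ * w t0 y := mul_nonneg hϑ.1 h2.1
    constructor <;> linarith [h1.1, h1.2]
  set P : E → ℝ := fun y => max (v t0 y - ϑ * w t0 y) 0 with hP
  set Q : E → ℝ := fun y => max (-(v t0 y - ϑ * w t0 y)) 0 with hQ
  have hPc : Continuous P := by simp only [hP]; fun_prop
  have hQc : Continuous Q := by simp only [hQ]; fun_prop
  have hPb : ∀ y, |P y| ≤ 1 := by
    intro y
    have h0 : 0 ≤ P y := le_max_right _ _
    rw [abs_of_nonneg h0]
    exact max_le (abs_le.1 (hD y)).2 zero_le_one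
  have hQb : ∀ y, |Q y| ≤ 1 := by
    intro y
    have h0 : 0 ≤ Q y := le_max_right _ _
    rw [abs_of_nonneg h0]
    exact max_le (by linarith [(abs_le.1 (hD y)).1]) zero_le_one
  have hPm : BM P 1 := ⟨hPc.measurable, hPb⟩
  have hQm : BM Q 1 := ⟨hQc.measurable, hQb⟩
  have hP0 : ∀ s y, 0 ≤ T s P y := fun s y => T_nonneg (fun z => le_max_right _ _) s y
  have hQ0 : ∀ s y, 0 ≤ T s Q y := fun s y => T_nonneg (fun z => le_max_right _ _) s y
  have hP1 : ∀ s y, T s P y ≤ 1 := fun s y => (abs_le.1 (T_abs_le hPm s y)).2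
  have key := comparison (t0 := t0) (T := t1) (K := L) (M := 3)
    (w := fun s y => v s y - ϑ * w s y - (Real.exp (-L * (s - t0)) * T (s - t0) P y -
      Real.exp (L * (s - t0)) * T (s - t0) Q y)) ?_ ?_ ?_ ?_ t1 (right_mem_Icc.2 ht) x
  · linarith
  · refine ContinuousOn.sub (hv.cont.sub (continuousOn_const.mul hw.cont)) (ContinuousOn.sub
      (ContinuousOn.mul (Continuous.continuousOn (by fun_prop)) ?_)
      (ContinuousOn.mul (Continuous.continuousOn (by fun_prop)) ?_))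
    · exact continuousOn_T_sub hPc hPb t0 _
    · exact continuousOn_T_sub hQc hQb t0 _
  · intro t ht' y
    have h1 := (hv.range t ht' y)
    have h2 := (hw.range t ht' y)
    have h3 : ϑ * w t y ≤ 1 := by nlinarith [hϑ.1, hϑ.2, h2.1, h2.2]
    have h4 : Real.exp (-L * (t - t0)) ≤ 1 := by
      apply Real.exp_le_one_iff.2
      have : 0 ≤ t - t0 := by linarith [ht'.1]
      have := mul_nonneg hf.L0 this
      linarith
    have h5 := mul_nonneg (Real.exp_pos (L * (t - t0))).le (hQ0 (t - t0) y)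
    have h6 : Real.exp (-L * (t - t0)) * T (t - t0) P y ≤ 1 :=
      mul_le_one₀ h4 (hP0 _ _) (hP1 _ _)
    linarith [h1.1]
  · intro y
    simp only [sub_self, mul_zero, Real.exp_zero, one_mul]
    rw [T_of_nonpos le_rfl, T_of_nonpos le_rfl]
    simp only [hP, hQ]
    rcases le_total 0 (v t0 y - ϑ * w t0 y) with h | h
    · rw [max_eq_left h, max_eq_right (by linarith)]; linarith
    · rw [max_eq_right h, max_eq_left (by linarith)]; linarith
  · intro t ht' y hneg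
    refine ⟨_, ((hv.pde t ht' y).sub ((hw.pde t ht' y).const_mul ϑ)).sub
      (((PDE_T' hPm ht'.1 y).exp_mul (-L) t0).sub ((PDE_T' hQm ht'.1 y).exp_mul L t0)), ?_⟩
    have ht'' := Ioc_subset_Icc_self ht'
    have h1 := (hv.range t ht'' y)
    have h2 := (hw.range t ht'' y)
    have h3 : ϑ * w t y ∈ Icc (0:ℝ) 1 :=
      ⟨mul_nonneg hϑ.1 h2.1, by nlinarith [hϑ.1, hϑ.2, h2.1, h2.2]⟩
    have h4 := hf.kpp ϑ hϑ _ h2
    have h5 := (abs_le.1 (hf.lip _ h1 _ h3)).1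
    set a := v t y - ϑ * w t y with ha
    set p := Real.exp (-L * (t - t0)) * T (t - t0) P y with hp
    set q := Real.exp (L * (t - t0)) * T (t - t0) Q y with hq
    have hp0 : 0 ≤ p := mul_nonneg (Real.exp_pos _).le (hP0 _ _)
    have hq0 : 0 ≤ q := mul_nonneg (Real.exp_pos _).le (hQ0 _ _)
    have e1 : Real.exp (-L * (t - t0)) * (0 + -L * T (t - t0) P y) = -L * p := by
      rw [hp]; ring
    have e2 : Real.exp (L * (t - t0)) * (0 + L * T (t - t0) Q y) = L * q := by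
      rw [hq]; ring
    rw [e1, e2]
    have h6 : |a| ≤ (p + q) - (a - (p - q)) := by
      rw [abs_le]
      constructor <;> linarith
    have h7 := mul_le_mul_of_nonneg_left h6 hf.L0
    nlinarith

/-- A global solution on `(0,∞)`. -/
structure Sol (f : ℝ → ℝ) (u : ℝ → E → ℝ) : Prop where
  range : ∀ t > 0, ∀ x, u t x ∈ Icc (0:ℝ) 1
  cont : ContinuousOn (fun p : ℝ × E => u p.1 p.2) (Ioi 0 ×ˢ univ)
  pde : ∀ t > 0, ∀ x, PDE u t x (f (u t x))

lemma Sol.on {f : ℝ → ℝ} {u : ℝ → E → ℝ} (h : Sol f u) {s t0 : ℝ} (y : E) (t1 : ℝ)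
    (h0 : 0 < t0 - s) : SolOn f (fun r x => u (r - s) (x + y)) t0 t1 := by
  refine ⟨fun t ht x => h.range _ (by linarith [ht.1]) _, ?_, fun t ht x => ?_⟩
  · have h1 : Continuous (fun p : ℝ × E => ((p.1 - s, p.2 + y) : ℝ × E)) := by fun_prop
    refine h.cont.comp h1.continuousOn ?_
    rintro ⟨t, x⟩ ⟨ht, _⟩
    exact ⟨by simp only [mem_Ioi]; linarith [ht.1], mem_univ _⟩
  · exact (h.pde (t - s) (by linarith [ht.1]) (x + y)).shift s y

lemma Sol.on' {f : ℝ → ℝ} {u : ℝ → E → ℝ} (h : Sol f u) {t0 : ℝ} (t1 : ℝ)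
    (h0 : 0 < t0) : SolOn f u t0 t1 := by
  have := h.on (s := 0) (t0 := t0) 0 t1 (by simpa using h0)
  simpa using this

end Pool.Agent.H29.KPP
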