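import Pool.Agent.H29.KPP.Sol

/-!
Comparison of two solutions whose initial sets are comparable (J3).
-/

open MeasureTheory Set Filter Topology Metric
open scoped RealInnerProductSpace ENNReal

set_option linter.unusedSectionVars false

namespace Pool.Agent.H29.KPP

variable {E : Type*} [NormedAddCommGroup E] [InnerProductSpace ℝ E] [FiniteDimensional ℝ E]
  [MeasurableSpace E] [BorelSpace E]

/-- `u(t,·) → 1_U` in `L¹_loc` as `t → 0+`. -/
structure HasTrace (U : Set E) (u : ℝ → E → ℝ) : Prop where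
  meas : NullMeasurableSet U
  lim : ∀ K : Set E, IsCompact K →
    Tendsto (fun t => ∫ x in K, |u t x - U.indicator (fun _ => (1:ℝ)) x|) (𝓝[>] 0) (𝓝 0)

lemma indicator_mem (U : Set E) (x : E) : U.indicator (fun _ => (1:ℝ)) x ∈ Icc (0:ℝ) 1 := by
  by_cases hx : x ∈ U <;> simp [hx]

lemma abs_sub_indicator_le {f : ℝ → ℝ} {u : ℝ → E → ℝ} (h : Sol f u) (U : Set E) {t : ℝ}
    (ht : 0 < t) (x : E) : |u t x - U.indicator (fun _ => (1:ℝ)) x| ≤ 1 := by
  have h1 := h.range t ht x
  have h2 := indicator_mem U x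
  rw [abs_le]; constructor <;> linarith [h1.1, h1.2, h2.1, h2.2]

lemma Sol.continuous_at {f : ℝ → ℝ} {u : ℝ → E → ℝ} (h : Sol f u) {t : ℝ} (ht : 0 < t) :
    Continuous (u t) := (h.on' t ht).continuous_at (left_mem_Icc.2 le_rfl)

lemma aesm_sub_indicator {f : ℝ → ℝ} {u : ℝ → E → ℝ} (h : Sol f u) {U : Set E}
    (hU : NullMeasurableSet U) {t : ℝ} (ht : 0 < t) :
    AEStronglyMeasurable (fun x => |u t x - U.indicator (fun _ => (1:ℝ)) x|) := by
  have h1 : AEStronglyMeasurable (U.indicator (fun _ => (1:ℝ)) : E → ℝ) :=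
    aestronglyMeasurable_const.indicator₀ hU
  have h2 : AEStronglyMeasurable (u t) (volume : Measure E) :=
    (h.continuous_at ht).aestronglyMeasurable
  exact (h2.sub h1).norm

lemma weighted_trace {f : ℝ → ℝ} {u : ℝ → E → ℝ} (h : Sol f u) {U : Set E} (htr : HasTrace U u)
    {W : E → ℝ} (hW : Integrable W) (hW0 : ∀ z, 0 ≤ W z) {B : ℝ} (hB : ∀ z, W z ≤ B) :
    Tendsto (fun t => ∫ x, W x * |u t x - U.indicator (fun _ => (1:ℝ)) x|) (𝓝[>] 0) (𝓝 0) := by
  have hB0 : 0 ≤ B := (hW0 0).trans (hB 0)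
  have hI : ∀ t > 0, Integrable (fun x => W x * |u t x - U.indicator (fun _ => (1:ℝ)) x|) := by
    intro t ht
    refine hW.mul_bdd (c := 1) (aesm_sub_indicator h htr.meas ht) ?_
    refine Filter.Eventually.of_forall fun x => ?_
    rw [Real.norm_eq_abs, abs_abs]
    exact abs_sub_indicator_le h U ht x
  rw [Metric.tendsto_nhds]
  intro ε hε
  -- tail
  obtain ⟨R, hR⟩ : ∃ R : ℝ, ∫ x in (closedBall (0:E) R)ᶜ, W x < ε / 2 := by
    have h1 : Tendsto (fun R : ℝ => ∫ x in closedBall (0:E) R, W x) atTop (𝓝 (∫ x, W x)) :=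
      (aecover_closedBall tendsto_id).integral_tendsto_of_countably_generated hW
    have h2 := h1.eventually (lt_mem_nhds (show (∫ x, W x) - ε / 2 < ∫ x, W x by linarith))
    obtain ⟨R, hR⟩ := h2.exists
    refine ⟨R, ?_⟩
    have h3 := integral_add_compl (measurableSet_closedBall (x := (0:E)) (ε := R)) hW
    linarith
  have h4 := (htr.lim (closedBall (0:E) R) (isCompact_closedBall _ _)).eventually
    (gt_mem_nhds (show (0:ℝ) < ε / (2 * (B + 1)) by positivity))
  filter_upwards [h4, self_mem_nhdsWithin] with t ht ht0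
  have ht0' : 0 < t := ht0
  rw [Real.dist_eq, sub_zero, abs_of_nonneg (integral_nonneg fun x =>
    mul_nonneg (hW0 x) (abs_nonneg _))]
  rw [← integral_add_compl (measurableSet_closedBall (x := (0:E)) (ε := R)) (hI t ht0')]
  have h5 : ∫ x in closedBall (0:E) R, W x * |u t x - U.indicator (fun _ => (1:ℝ)) x| ≤
      B * ∫ x in closedBall (0:E) R, |u t x - U.indicator (fun _ => (1:ℝ)) x| := by
    rw [← integral_const_mul]
    apply integral_mono (hI t ht0').integrableOn
    · refine Integrable.const_mul ?_ B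
      refine Measure.integrableOn_of_bounded (M := 1) (by
        exact (isCompact_closedBall (0:E) R).measure_lt_top.ne)
        (aesm_sub_indicator h htr.meas ht0') ?_
      refine Filter.Eventually.of_forall fun x => ?_
      rw [Real.norm_eq_abs, abs_abs]
      exact abs_sub_indicator_le h U ht0' x
    · intro x
      exact mul_le_mul_of_nonneg_right (hB x) (abs_nonneg _)
  have h6 : ∫ x in (closedBall (0:E) R)ᶜ, W x * |u t x - U.indicator (fun _ => (1:ℝ)) x| ≤
      ∫ x in (closedBall (0:E) R)ᶜ, W x := by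
    apply integral_mono (hI t ht0').integrableOn hW.integrableOn
    intro x
    have := abs_sub_indicator_le h U ht0' x
    have h7 := hW0 x
    show W x * |u t x - U.indicator (fun _ => (1:ℝ)) x| ≤ W x
    nlinarith
  have h7 : B * ∫ x in closedBall (0:E) R, |u t x - U.indicator (fun _ => (1:ℝ)) x| ≤
      B * (ε / (2 * (B + 1))) := mul_le_mul_of_nonneg_left ht.le hB0
  have h8 : B * (ε / (2 * (B + 1))) ≤ ε / 2 := by
    rw [mul_div_assoc', div_le_div_iff₀ (by positivity) (by positivity)]
    nlinarith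
  linarith

/-- Lower bound for a solution near its initial set. -/
lemma lower_on_set {f : ℝ → ℝ} {L : ℝ} (hf : NL f L) {u : ℝ → E → ℝ} (h : Sol f u) {U : Set E}
    (htr : HasTrace U u) {R δ : ℝ} (hδ : 0 < δ) (hR : 0 ≤ R) :
    ∃ η > 0, ∀ x z, dist x z ≤ R → ball z δ ⊆ U → ∀ t ∈ Icc (1:ℝ) 2, η ≤ u t x := by
  have hpi := Real.pi_pos
  set n : ℝ := ((Module.finrank ℝ E : ℕ) : ℝ) with hn
  have hn0 : 0 ≤ n := by positivity
  set g0 : ℝ := (8 * Real.pi) ^ (-n / 2) * Real.exp (-(R + δ) ^ 2 / 2) with hg0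
  have hg0pos : 0 < g0 := by positivity
  set V : ℝ := (volume (ball (0:E) δ)).toReal with hV
  have hVpos : 0 < V := ENNReal.toReal_pos (measure_ball_pos _ _ hδ).ne' measure_ball_lt_top.ne
  refine ⟨g0 * V, by positivity, fun x z hxz hball t ht => ?_⟩
  have hVz : (volume (ball z δ)).toReal = V := by
    rw [hV, ← Measure.addHaar_ball_center]
  have hker : ∀ s ∈ Icc (1/2 : ℝ) 2, ∀ y ∈ ball z δ, g0 ≤ G s (x - y) := by
    intro s hs y hy
    have hs0 : 0 < s := by linarith [hs.1]
    have h1 : ‖x - y‖ ≤ R + δ := by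
      rw [← dist_eq_norm]
      have := dist_triangle x z y
      have h2 : dist z y < δ := by rw [dist_comm]; exact hy
      linarith
    unfold G
    rw [← hn]
    have h2 : (8 * Real.pi) ^ (-n / 2) ≤ (4 * Real.pi * s) ^ (-n / 2) := by
      apply Real.rpow_le_rpow_of_nonpos (by positivity)
      · nlinarith [hs.2]
      · linarith
    have h3 : Real.exp (-(R + δ) ^ 2 / 2) ≤ Real.exp (-‖x - y‖ ^ 2 / (4 * s)) := by
      apply Real.exp_le_exp.2
      rw [neg_div, neg_div]
      apply neg_le_neg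
      have h4 : ‖x - y‖ ^ 2 ≤ (R + δ) ^ 2 := by gcongr
      rw [div_le_div_iff₀ (by positivity) (by positivity)]
      have h5 : 0 ≤ (R + δ) ^ 2 := by positivity
      nlinarith [hs.1, mul_le_mul_of_nonneg_left h4 (show (0:ℝ) ≤ 2 by norm_num),
        mul_nonneg h5 (by linarith [hs.1] : (0:ℝ) ≤ 4 * s - 2)]
    exact mul_le_mul h2 h3 (Real.exp_pos _).le (by positivity)
  have hlim := htr.lim (closedBall z δ) (isCompact_closedBall _ _)
  have hlim2 : Tendsto (fun ε => g0 * (V - ∫ x in closedBall z δ,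
      |u ε x - U.indicator (fun _ => (1:ℝ)) x|)) (𝓝[>] 0) (𝓝 (g0 * (V - 0))) :=
    (tendsto_const_nhds.sub hlim).const_mul g0
  rw [sub_zero] at hlim2
  refine le_of_tendsto hlim2 ?_
  have hev : ∀ᶠ ε in 𝓝[>] (0:ℝ), ε ∈ Ioo (0:ℝ) (1/2) := Ioo_mem_nhdsGT (by norm_num)
  filter_upwards [hev] with ε hε
  have hε0 : 0 < ε := hε.1
  have hlow := (h.on' t hε0).lower hf (by linarith [ht.1, hε.2] : ε ≤ t) x
  refine le_trans ?_ hlow
  have hbm := (h.on' t hε0).bm (left_mem_Icc.2 (by linarith [ht.1, hε.2] : ε ≤ t))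
  rw [T_eq (by linarith [ht.1, hε.2])]
  have hfin : volume (ball z δ) ≠ ⊤ := measure_ball_lt_top.ne
  have hiu : IntegrableOn (fun y => u ε y) (ball z δ) :=
    Measure.integrableOn_of_bounded (M := 1) hfin hbm.meas.aestronglyMeasurable
      (Filter.Eventually.of_forall fun y => hbm.bd y)
  have hiabs : ∀ K : Set E, volume K ≠ ⊤ →
      IntegrableOn (fun x => |u ε x - U.indicator (fun _ => (1:ℝ)) x|) K := by
    intro K hK
    refine Measure.integrableOn_of_bounded (M := 1) hK (aesm_sub_indicator h htr.meas hε0) ?_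
    refine Filter.Eventually.of_forall fun x => ?_
    rw [Real.norm_eq_abs, abs_abs]
    exact abs_sub_indicator_le h U hε0 x
  calc g0 * (V - ∫ x in closedBall z δ, |u ε x - U.indicator (fun _ => (1:ℝ)) x|)
      ≤ g0 * ∫ y in ball z δ, u ε y := by
        apply mul_le_mul_of_nonneg_left _ hg0pos.le
        have h1 : ∫ x in ball z δ, |u ε x - U.indicator (fun _ => (1:ℝ)) x| ≤
            ∫ x in closedBall z δ, |u ε x - U.indicator (fun _ => (1:ℝ)) x| := by
          apply setIntegral_mono_set (hiabs _ (isCompact_closedBall z δ).measure_lt_top.ne)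
          · exact Filter.Eventually.of_forall fun x => abs_nonneg _
          · exact Filter.Eventually.of_forall fun x hx => ball_subset_closedBall hx
        have h2 : V - ∫ y in ball z δ, u ε y =
            ∫ x in ball z δ, |u ε x - U.indicator (fun _ => (1:ℝ)) x| := by
          have h3 : V = ∫ y in ball z δ, (1:ℝ) := by
            rw [setIntegral_const, smul_eq_mul, mul_one, Measure.real, hVz]
          have hic : IntegrableOn (fun _ : E => (1:ℝ)) (ball z δ) :=
            integrableOn_const hfin (by simp)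
          rw [h3, ← integral_sub hic hiu]
          apply setIntegral_congr_fun measurableSet_ball
          intro y hy
          have h4 := (h.range ε hε0 y).2
          simp only [indicator_of_mem (hball hy)]
          rw [abs_of_nonpos (by linarith)]
          ring
        linarith
    _ = ∫ y in ball z δ, g0 * u ε y := by rw [integral_const_mul]
    _ ≤ ∫ y in ball z δ, G (t - ε) (x - y) * u ε y := by
        apply setIntegral_mono_on (hiu.const_mul _) (hbm.kernel (by linarith [ht.1, hε.2])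
          x).integrableOn measurableSet_ball
        intro y hy
        exact mul_le_mul_of_nonneg_right (hker (t - ε) ⟨by linarith [ht.1, hε.2],
          by linarith [ht.2]⟩ y hy) (h.range ε hε0 y).1
    _ ≤ ∫ y, G (t - ε) (x - y) * u ε y := by
        apply setIntegral_le_integral (hbm.kernel (by linarith [ht.1, hε.2]) x)
        exact Filter.Eventually.of_forall fun y =>
          mul_nonneg (G_nonneg (by linarith [ht.1, hε.2]) _) (h.range ε hε0 y).1

/-- (J3). -/
theorem compare_solutions {f : ℝ → ℝ} {L : ℝ} (hf : NL f L) {u u' : ℝ → E → ℝ} (h : Sol f u)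
    (h' : Sol f u') {U U' : Set E} (htr : HasTrace U u) (htr' : HasTrace U' u') {R δ : ℝ}
    (hδ : 0 < δ) (hR : 0 ≤ R) (hcov : ∀ x ∈ U, ∃ z, dist x z ≤ R ∧ ball z δ ⊆ U') :
    ∃ η ∈ Ioc (0:ℝ) 1, ∀ t > 0, ∀ x, η * u t x ≤ u' (t + 1) x := by
  obtain ⟨η0, hη0, hlow⟩ := lower_on_set hf h' htr' hδ hR
  have hη : min η0 1 ∈ Ioc (0:ℝ) 1 := ⟨lt_min hη0 one_pos, min_le_right _ _⟩
  set η := min η0 1
  refine ⟨η, hη, fun t ht x => ?_⟩
  have hpi := Real.pi_pos
  set n : ℝ := ((Module.finrank ℝ E : ℕ) : ℝ) with hn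
  have hn0 : 0 ≤ n := by positivity
  set C : ℝ := Real.exp (L * t) * 2 ^ (n / 2) with hC
  have hC0 : 0 ≤ C := by positivity
  have hGb : ∃ B, ∀ z : E, G t (x - z) ≤ B := by
    refine ⟨(4 * Real.pi * t) ^ (-n / 2), fun z => ?_⟩
    unfold G
    rw [← hn]
    have h1 : Real.exp (-‖x - z‖ ^ 2 / (4 * t)) ≤ 1 := by
      apply Real.exp_le_one_iff.2
      rw [neg_div]
      have : 0 ≤ ‖x - z‖ ^ 2 / (4 * t) := by positivity
      linarith
    have h2 : 0 ≤ (4 * Real.pi * t) ^ (-n / 2) := by positivity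
    nlinarith
  obtain ⟨B, hB⟩ := hGb
  have hlim := weighted_trace h htr (W := fun y => G t (x - y))
    ((integrable_G ht).comp_sub_left x) (fun z => G_nonneg ht _) hB
  have hlim2 : Tendsto (fun ε => -(C * ∫ y, G t (x - y) *
      |u ε y - U.indicator (fun _ => (1:ℝ)) y|)) (𝓝[>] 0) (𝓝 (-(C * 0))) :=
    (hlim.const_mul C).neg
  simp only [mul_zero, neg_zero] at hlim2
  suffices hs : 0 ≤ u' (t + 1) x - η * u t x by linarith
  refine le_of_tendsto hlim2 ?_
  have hev : ∀ᶠ ε in 𝓝[>] (0:ℝ), ε ∈ Ioo (0:ℝ) (min (t/2) 1) :=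
    Ioo_mem_nhdsGT (lt_min (by linarith) one_pos)
  filter_upwards [hev] with ε hε
  have hε0 : 0 < ε := hε.1
  have hε1 : ε < t / 2 := hε.2.trans_le (min_le_left _ _)
  have hε2 : ε < 1 := hε.2.trans_le (min_le_right _ _)
  have hv : SolOn f (fun s y => u' (s + 1) y) ε t := by
    have := h'.on (s := -1) (t0 := ε) 0 t (by linarith)
    simpa using this
  have hw := h.on' t hε0
  have hd := hv.diff hf hw ⟨hη.1.le, hη.2⟩ (by linarith : ε ≤ t) x
  refine le_trans ?_ hd
  have hts : 0 < t - ε := by linarith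
  have hP0 : 0 ≤ Real.exp (-L * (t - ε)) *
      T (t - ε) (fun y => max (u' (ε + 1) y - η * u ε y) 0) x :=
    mul_nonneg (Real.exp_pos _).le (T_nonneg (fun z => le_max_right _ _) _ _)
  have hQ : Real.exp (L * (t - ε)) *
      T (t - ε) (fun y => max (-(u' (ε + 1) y - η * u ε y)) 0) x ≤
      C * ∫ y, G t (x - y) * |u ε y - U.indicator (fun _ => (1:ℝ)) y| := by
    rw [hC, mul_assoc]
    have hTn : 0 ≤ T (t - ε) (fun y => max (-(u' (ε + 1) y - η * u ε y)) 0) x :=
      T_nonneg (fun z => le_max_right _ _) _ _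
    have h1 : Real.exp (L * (t - ε)) ≤ Real.exp (L * t) := by
      apply Real.exp_le_exp.2
      have := mul_nonneg hf.L0 hε0.le
      nlinarith
    refine mul_le_mul h1 ?_ hTn (Real.exp_pos _).le
    rw [T_eq hts, ← integral_const_mul]
    have hcont : Continuous (fun y => max (-(u' (ε + 1) y - η * u ε y)) 0) := by
      have c1 := h.continuous_at hε0
      have c2 := h'.continuous_at (by linarith : 0 < ε + 1)
      fun_prop
    have hneg : ∀ y, max (-(u' (ε + 1) y - η * u ε y)) 0 ≤
        |u ε y - U.indicator (fun _ => (1:ℝ)) y| := by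
      intro y
      apply max_le _ (abs_nonneg _)
      have r1 := h.range ε hε0 y
      have r2 := h'.range (ε + 1) (by linarith) y
      by_cases hy : y ∈ U
      · obtain ⟨z, hz, hz'⟩ := hcov y hy
        have h2 := hlow y z hz hz' (ε + 1) ⟨by linarith, by linarith⟩
        have h3 : η * u ε y ≤ η := by nlinarith [hη.1, r1.2]
        have h4 : η ≤ η0 := min_le_left _ _
        have : -(u' (ε + 1) y - η * u ε y) ≤ 0 := by linarith
        exact this.trans (abs_nonneg _)
      · rw [indicator_of_notMem hy, sub_zero, abs_of_nonneg r1.1]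
        have : η * u ε y ≤ u ε y := by nlinarith [hη.2, r1.1]
        linarith [r2.1]
    have hbd : ∀ y, |max (-(u' (ε + 1) y - η * u ε y)) 0| ≤ 1 := fun y => by
      rw [abs_of_nonneg (le_max_right _ _)]
      exact (hneg y).trans (abs_sub_indicator_le h U hε0 y)
    apply integral_mono ((BM.mk hcont.measurable hbd).kernel hts x)
    · refine Integrable.const_mul ?_ _
      refine ((integrable_G ht).comp_sub_left x).mul_bdd (c := 1)
        (aesm_sub_indicator h htr.meas hε0) ?_
      refine Filter.Eventually.of_forall fun x => ?_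
      rw [Real.norm_eq_abs, abs_abs]
      exact abs_sub_indicator_le h U hε0 x
    · intro y
      have hG : G (t - ε) (x - y) ≤ 2 ^ (n / 2) * G t (x - y) := by
        unfold G
        rw [← hn]
        have e1 : (4 * Real.pi * (t - ε)) ^ (-n / 2) ≤
            2 ^ (n / 2) * (4 * Real.pi * t) ^ (-n / 2) := by
          have e2 : 2 ^ (n / 2) * (4 * Real.pi * t) ^ (-n / 2) = (2 * Real.pi * t) ^ (-n / 2) := by
            have e3 : (4 * Real.pi * t) ^ (-n / 2) = (2:ℝ) ^ (-n / 2) *
                (2 * Real.pi * t) ^ (-n / 2) := by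
              rw [← Real.mul_rpow (by norm_num) (by positivity)]
              congr 1; ring
            rw [e3, ← mul_assoc, ← Real.rpow_add (by norm_num)]
            rw [show n / 2 + -n / 2 = 0 by ring, Real.rpow_zero, one_mul]
          rw [e2]
          apply Real.rpow_le_rpow_of_nonpos (by positivity)
          · nlinarith
          · linarith
        have e4 : Real.exp (-‖x - y‖ ^ 2 / (4 * (t - ε))) ≤ Real.exp (-‖x - y‖ ^ 2 / (4 * t)) := by
          apply Real.exp_le_exp.2
          rw [neg_div, neg_div]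
          apply neg_le_neg
          apply div_le_div_of_nonneg_left (by positivity) (by positivity)
          linarith
        rw [← mul_assoc]
        gcongr
      have h2 := hneg y
      show G (t - ε) (x - y) * max (-(u' (ε + 1) y - η * u ε y)) 0 ≤
        2 ^ (n / 2) * (G t (x - y) * |u ε y - U.indicator (fun _ => (1:ℝ)) y|)
      rw [← mul_assoc]
      exact mul_le_mul hG h2 (le_max_right _ _) (mul_nonneg (by positivity) (G_nonneg ht _))
  linarith

end Pool.Agent.H29.KPP
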